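import Mathlib

/-!
Polish topologies adapted to a Borel action of a countable group, orbit closures and points
isolated in their own orbit.
-/

set_option autoImplicit false
set_option linter.unusedSectionVars false

namespace Pool.Agent.Lib.MP_00fb6a_lc

open Set Filter Topology TopologicalSpace MeasureTheory

variable (Γ : Type) [Group Γ] {X : Type} [MulAction Γ X]

/-- The orbit of `x` meets `U`. -/
def Meets (x : X) (U : Set X) : Prop := ∃ γ : Γ, γ • x ∈ U

/-- `x` and `x'` have the same orbit closure for the topology `τ`. -/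
def Rel (τ : TopologicalSpace X) (x x' : X) : Prop :=
  ∀ U, IsOpen[τ] U → (Meets Γ x U ↔ Meets Γ x' U)

/-- The orbit of `x` has a point that is `τ`-isolated in the orbit. -/
def Small (τ : TopologicalSpace X) (x : X) : Prop :=
  ∃ U, IsOpen[τ] U ∧ ∃ γ₀ : Γ, γ₀ • x ∈ U ∧ ∀ γ : Γ, γ • x ∈ U → γ • x = γ₀ • x

/-- A Polish topology with the given Borel sets making the action continuous. -/
structure Good [MeasurableSpace X] (τ : TopologicalSpace X) : Prop where
  polish : @PolishSpace X τ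
  borel : @BorelSpace X τ _
  cont : ∀ γ : Γ, Continuous[τ, τ] (fun x : X => γ • x)

variable {Γ}

theorem meets_smul (δ : Γ) (x : X) (U : Set X) : Meets Γ (δ • x) U ↔ Meets Γ x U := by
  constructor
  · rintro ⟨γ, h⟩
    exact ⟨γ * δ, by rwa [mul_smul]⟩
  · rintro ⟨γ, h⟩
    exact ⟨γ * δ⁻¹, by rwa [mul_smul, inv_smul_smul]⟩

theorem meets_self {x : X} {U : Set X} (h : x ∈ U) : Meets Γ x U := ⟨1, by rwa [one_smul]⟩

theorem Rel.refl (τ : TopologicalSpace X) (x : X) : Rel Γ τ x x := fun _ _ => Iff.rfl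

theorem Rel.symm {τ : TopologicalSpace X} {x x' : X} (h : Rel Γ τ x x') : Rel Γ τ x' x :=
  fun U hU => (h U hU).symm

theorem Rel.trans {τ : TopologicalSpace X} {x y z : X} (h : Rel Γ τ x y) (h' : Rel Γ τ y z) :
    Rel Γ τ x z := fun U hU => (h U hU).trans (h' U hU)

theorem rel_smul (τ : TopologicalSpace X) (δ : Γ) (x : X) : Rel Γ τ (δ • x) x :=
  fun U _ => meets_smul δ x U

theorem Rel.mono {τ τ' : TopologicalSpace X} (hle : τ' ≤ τ) {x x' : X} (h : Rel Γ τ' x x') :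
    Rel Γ τ x x' := fun U hU => h U (hle U hU)

theorem Small.mono {τ τ' : TopologicalSpace X} (hle : τ' ≤ τ) {x : X} (h : Small Γ τ x) :
    Small Γ τ' x := by
  obtain ⟨U, hU, h⟩ := h
  exact ⟨U, hle U hU, h⟩

theorem Small.smul {τ : TopologicalSpace X} {x : X} (h : Small Γ τ x) (δ : Γ) :
    Small Γ τ (δ • x) := by
  obtain ⟨U, hU, γ₀, h0, h1⟩ := h
  refine ⟨U, hU, γ₀ * δ⁻¹, by rwa [mul_smul, inv_smul_smul], fun γ hγ => ?_⟩
  rw [mul_smul, inv_smul_smul, ← mul_smul]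
  exact h1 _ (by rwa [mul_smul])

/-- For a point with an isolated orbit point, having the same orbit closure means having the
same orbit. -/
theorem Small.exists_smul {τ : TopologicalSpace X} (hT : @T1Space X τ) {x x' : X}
    (h : Small Γ τ x) (hr : Rel Γ τ x x') : ∃ δ : Γ, x' = δ • x := by
  obtain ⟨U, hU, γ₀, h0, h1⟩ := h
  obtain ⟨γ, hγ⟩ := (hr U hU).1 ⟨γ₀, h0⟩
  by_cases he : γ • x' = γ₀ • x
  · exact ⟨γ⁻¹ * γ₀, by rw [mul_smul, ← he, inv_smul_smul]⟩
  · exfalso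
    have hV : IsOpen[τ] (U ∩ {γ₀ • x}ᶜ) := hU.inter isOpen_compl_singleton
    obtain ⟨γ', hγ'⟩ := (hr _ hV).2 ⟨γ, hγ, he⟩
    exact hγ'.2 (h1 γ' hγ'.1)

theorem Small.of_rel {τ : TopologicalSpace X} (hT : @T1Space X τ) {x x' : X}
    (h : Small Γ τ x) (hr : Rel Γ τ x x') : Small Γ τ x' := by
  obtain ⟨δ, rfl⟩ := h.exists_smul hT hr
  exact h.smul δ

theorem Rel.mem_iff {τ : TopologicalSpace X} {x x' : X} (hr : Rel Γ τ x x') {A : Set X}
    (hA : IsOpen[τ] A) (hinv : ∀ (γ : Γ) z, γ • z ∈ A ↔ z ∈ A) : x ∈ A ↔ x' ∈ A := by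
  have key : ∀ z, Meets Γ z A ↔ z ∈ A := fun z =>
    ⟨fun ⟨γ, h⟩ => (hinv γ z).1 h, meets_self⟩
  rw [← key, ← key]
  exact hr A hA

theorem exists_basis_seq (X : Type) [TopologicalSpace X] [SecondCountableTopology X] :
    ∃ B : ℕ → Set X, (∀ n, IsOpen (B n)) ∧
      ∀ x U, IsOpen U → x ∈ U → ∃ n, x ∈ B n ∧ B n ⊆ U := by
  obtain ⟨b, hb, -, hbasis⟩ := exists_countable_basis X
  have hc : (insert ∅ b).Countable := hb.insert _
  obtain ⟨B, hB⟩ := hc.exists_eq_range (insert_nonempty _ _)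
  refine ⟨B, fun n => ?_, fun x U hU hx => ?_⟩
  · have : B n ∈ insert ∅ b := hB ▸ mem_range_self n
    rcases this with h | h
    · rw [h]; exact isOpen_empty
    · exact hbasis.isOpen h
  · obtain ⟨V, hV, hxV, hVU⟩ := hbasis.exists_subset_of_mem_open hx hU
    have : V ∈ range B := hB ▸ mem_insert_of_mem _ hV
    obtain ⟨n, rfl⟩ := this
    exact ⟨n, hxV, hVU⟩

theorem rel_iff_basis {τ : TopologicalSpace X} {B : ℕ → Set X} (hB : ∀ n, IsOpen[τ] (B n))
    (hB' : ∀ x U, IsOpen[τ] U → x ∈ U → ∃ n, x ∈ B n ∧ B n ⊆ U) {x x' : X} :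
    Rel Γ τ x x' ↔ ∀ n, (Meets Γ x (B n) ↔ Meets Γ x' (B n)) := by
  refine ⟨fun h n => h _ (hB n), fun h U hU => ⟨?_, ?_⟩⟩
  · rintro ⟨γ, hγ⟩
    obtain ⟨n, h1, h2⟩ := hB' _ U hU hγ
    obtain ⟨γ', h3⟩ := (h n).1 ⟨γ, h1⟩
    exact ⟨γ', h2 h3⟩
  · rintro ⟨γ, hγ⟩
    obtain ⟨n, h1, h2⟩ := hB' _ U hU hγ
    obtain ⟨γ', h3⟩ := (h n).2 ⟨γ, h1⟩
    exact ⟨γ', h2 h3⟩

section Meas

variable [Countable Γ] [MeasurableSpace X]

theorem Good.t2 {τ : TopologicalSpace X} (h : Good Γ τ) : @T2Space X τ := by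
  have := h.polish
  infer_instance

theorem Good.t1 {τ : TopologicalSpace X} (h : Good Γ τ) : @T1Space X τ := by
  have := h.polish
  infer_instance

theorem Good.measurable_smul {τ : TopologicalSpace X} (h : Good Γ τ) (γ : Γ) :
    Measurable (fun x : X => γ • x) := by
  have := h.borel
  exact (h.cont γ).measurable

theorem Good.measurableSet_open {τ : TopologicalSpace X} (h : Good Γ τ) {U : Set X}
    (hU : IsOpen[τ] U) : MeasurableSet U := by
  have := h.borel
  exact hU.measurableSet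

theorem measurableSet_meets (hm : ∀ γ : Γ, Measurable (fun x : X => γ • x)) {U : Set X}
    (hU : MeasurableSet U) : MeasurableSet {x | Meets Γ x U} := by
  have : {x | Meets Γ x U} = ⋃ γ : Γ, (fun x : X => γ • x) ⁻¹' U := by
    ext x; simp [Meets]
  rw [this]
  exact MeasurableSet.iUnion fun γ => hm γ hU

theorem Good.measurableSet_small {τ : TopologicalSpace X} (h : Good Γ τ) :
    MeasurableSet {x | Small Γ τ x} := by
  have := h.polish
  have := h.borel
  obtain ⟨B, hB, hB'⟩ := exists_basis_seq X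
  have e : {x | Small Γ τ x} = ⋃ n, ⋃ γ₀ : Γ, ((fun x : X => γ₀ • x) ⁻¹' B n ∩
      ⋂ γ : Γ, (((fun x : X => γ • x) ⁻¹' B n)ᶜ ∪ {x | γ • x = γ₀ • x})) := by
    ext x
    simp only [mem_ofPred_eq, mem_iUnion, mem_inter_iff, mem_preimage, mem_iInter, mem_union,
      mem_compl_iff]
    constructor
    · rintro ⟨U, hU, γ₀, h0, h1⟩
      obtain ⟨n, h2, h3⟩ := hB' _ U hU h0
      refine ⟨n, γ₀, h2, fun γ => ?_⟩
      by_cases h4 : γ • x ∈ B n
      · exact Or.inr (h1 γ (h3 h4))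
      · exact Or.inl h4
    · rintro ⟨n, γ₀, h0, h1⟩
      exact ⟨B n, hB n, γ₀, h0, fun γ hγ => (h1 γ).resolve_left (not_not.2 hγ)⟩
  rw [e]
  refine MeasurableSet.iUnion fun n => MeasurableSet.iUnion fun γ₀ => ?_
  refine (h.measurable_smul γ₀ (hB n).measurableSet).inter (MeasurableSet.iInter fun γ => ?_)
  exact (h.measurable_smul γ (hB n).measurableSet).compl.union
    (measurableSet_eq_fun (h.measurable_smul γ) (h.measurable_smul γ₀))

theorem borel_of_le {τ τ' : TopologicalSpace X} (hτ : @PolishSpace X τ) (hb : @BorelSpace X τ _)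
    (hτ' : @PolishSpace X τ') (hle : τ' ≤ τ) : @BorelSpace X τ' _ := by
  refine @BorelSpace.mk X τ' _ ?_
  rw [borel_eq_borel_of_le hτ' hτ hle]
  exact @BorelSpace.measurable_eq X τ _ hb

/-- Countably many Borel sets can be made open. -/
theorem Good.refine {τ : TopologicalSpace X} (h : Good Γ τ) {ι : Type} [Countable ι]
    (S : ι → Set X) (hS : ∀ i, MeasurableSet (S i)) :
    ∃ τ', Good Γ τ' ∧ τ' ≤ τ ∧ ∀ i, IsOpen[τ'] (S i) := by
  have hp := h.polish
  have hb := h.borel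
  have h1 : ∀ i, PolishSpace.IsClopenable (S i) := fun i => (hS i).isClopenable
  choose T hT hTp _ hTo using h1
  obtain ⟨τ₁, h1T, h1τ, h1p⟩ := PolishSpace.exists_polishSpace_forall_le (t := τ) T hT hTp
  let t : Option Γ → TopologicalSpace X := fun o =>
    o.elim τ (fun γ => TopologicalSpace.induced (fun x : X => γ • x) τ₁)
  have hle : ∀ o, t o ≤ t none := by
    intro o
    cases o with
    | none => exact le_rfl
    | some γ =>
      change TopologicalSpace.induced (fun x : X => γ • x) τ₁ ≤ τ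
      rw [← continuous_id_iff_le]
      have c1 : Continuous[TopologicalSpace.induced (fun x : X => γ • x) τ₁, τ]
          (fun x : X => γ • x) :=
        @Continuous.comp X X X (TopologicalSpace.induced (fun x : X => γ • x) τ₁) τ₁ τ _ id
          (continuous_id_of_le h1τ) continuous_induced_dom
      have c2 := @Continuous.comp X X X (TopologicalSpace.induced (fun x : X => γ • x) τ₁) τ τ _ _
        (h.cont γ⁻¹) c1
      convert c2 using 1
      ext x
      simp
  have hpol : ∀ o, @PolishSpace X (t o) := by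
    intro o
    cases o with
    | none => exact hp
    | some γ => exact @Equiv.polishSpace_induced X X τ₁ h1p (MulAction.toPerm γ)
  have hP : @PolishSpace X (⨅ o, t o) := PolishSpace.iInf ⟨none, hle⟩ hpol
  have hτ : (⨅ o, t o) ≤ τ := iInf_le t none
  refine ⟨⨅ o, t o, ⟨hP, borel_of_le hp hb hP hτ, fun δ => ?_⟩, hτ, fun i => ?_⟩
  · rw [continuous_iInf_rng]
    intro o
    cases o with
    | none =>
      exact @Continuous.comp X X X (⨅ o, t o) τ τ _ _ (h.cont δ) (continuous_id_of_le hτ)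
    | some γ =>
      change Continuous[⨅ o, t o, TopologicalSpace.induced (fun x : X => γ • x) τ₁] _
      rw [continuous_iff_le_induced, induced_compose]
      have : ((fun x : X => γ • x) ∘ fun x : X => δ • x) = fun x : X => (γ * δ) • x := by
        ext x; simp [mul_smul]
      rw [this]
      exact iInf_le t (some (γ * δ))
  · have h2 : (⨅ o, t o) ≤ τ₁ := by
      refine (iInf_le t (some 1)).trans (le_of_eq ?_)
      change TopologicalSpace.induced (fun x : X => (1 : Γ) • x) τ₁ = τ₁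
      have : (fun x : X => (1 : Γ) • x) = id := by ext x; simp
      rw [this, induced_id]
    exact h2 _ (h1T i _ (hTo i))

theorem Good.iInf {τ : ℕ → TopologicalSpace X} (h : ∀ n, Good Γ (τ n)) (ha : Antitone τ) :
    Good Γ (⨅ n, τ n) := by
  have hP : @PolishSpace X (⨅ n, τ n) :=
    PolishSpace.iInf ⟨0, fun n => ha (Nat.zero_le n)⟩ fun n => (h n).polish
  refine ⟨hP, borel_of_le (h 0).polish (h 0).borel hP (iInf_le τ 0), fun δ => ?_⟩
  rw [continuous_iInf_rng]
  intro n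
  exact @Continuous.comp X X X (⨅ n, τ n) (τ n) (τ n) _ _ ((h n).cont δ)
    (continuous_id_of_le (iInf_le τ n))

/-- A Borel action of a countable group on a standard Borel space has a good topology. -/
theorem exists_good [StandardBorelSpace X] (hm : ∀ γ : Γ, Measurable (fun x : X => γ • x)) :
    ∃ τ : TopologicalSpace X, Good Γ τ := by
  have step : ∀ a : {τ : TopologicalSpace X // @PolishSpace X τ ∧ @BorelSpace X τ _},
      ∃ b : {τ : TopologicalSpace X // @PolishSpace X τ ∧ @BorelSpace X τ _},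
        b.1 ≤ a.1 ∧ ∀ γ : Γ, Continuous[b.1, a.1] (fun x : X => γ • x) := by
    rintro ⟨τ, hp, hb⟩
    have h1 : ∀ γ : Γ, ∃ t' : TopologicalSpace X, t' ≤ τ ∧
        Continuous[t', τ] (fun x : X => γ • x) ∧ @PolishSpace X t' :=
      fun γ => (hm γ).exists_continuous
    choose T hT hTc hTp using h1
    obtain ⟨τ₁, h1T, h1τ, h1p⟩ := PolishSpace.exists_polishSpace_forall_le (t := τ) T hT hTp
    exact ⟨⟨τ₁, h1p, borel_of_le hp hb h1p h1τ⟩, h1τ, fun γ =>
      @Continuous.comp X X X τ₁ (T γ) τ _ _ (hTc γ) (continuous_id_of_le (h1T γ))⟩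
  choose f hf hf' using step
  obtain ⟨τ₀, hb₀, hp₀⟩ := StandardBorelSpace.polish (α := X)
  let s : ℕ → {τ : TopologicalSpace X // @PolishSpace X τ ∧ @BorelSpace X τ _} :=
    fun n => Nat.rec ⟨τ₀, hp₀, hb₀⟩ (fun _ a => f a) n
  have hs : ∀ n, s (n + 1) = f (s n) := fun n => rfl
  have ha : Antitone (fun n => (s n).1) := antitone_nat_of_succ_le fun n => by
    rw [hs]; exact hf _
  have hP : @PolishSpace X (⨅ n, (s n).1) :=
    PolishSpace.iInf ⟨0, fun n => ha (Nat.zero_le n)⟩ fun n => (s n).2.1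
  refine ⟨⨅ n, (s n).1, hP, borel_of_le (s 0).2.1 (s 0).2.2 hP (iInf_le (fun n => (s n).1) 0),
    fun δ => ?_⟩
  rw [continuous_iInf_rng]
  intro n
  exact @Continuous.comp X X X (⨅ n, (s n).1) (s (n + 1)).1 (s n).1 _ _ (hf' (s n) δ)
    (continuous_id_of_le (iInf_le (fun n => (s n).1) (n + 1)))

end Meas

theorem exists_open_of_iInf {τ : ℕ → TopologicalSpace X} (ha : Antitone τ) {U : Set X}
    (hU : IsOpen[⨅ n, τ n] U) {x : X} (hx : x ∈ U) :
    ∃ n V, IsOpen[τ n] V ∧ x ∈ V ∧ V ⊆ U := by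
  have h1 : U ∈ @nhds X (⨅ n, τ n) x := @IsOpen.mem_nhds X (⨅ n, τ n) x U hU hx
  rw [nhds_iInf, Filter.mem_iInf_of_directed] at h1
  · obtain ⟨n, hn⟩ := h1
    obtain ⟨V, h2, h3, h4⟩ := (@mem_nhds_iff X (τ n) x U).1 hn
    exact ⟨n, V, h3, h4, h2⟩
  · intro m n
    exact ⟨max m n, nhds_mono (ha (le_max_left m n)), nhds_mono (ha (le_max_right m n))⟩

theorem rel_iInf {τ : ℕ → TopologicalSpace X} (ha : Antitone τ) {x x' : X} :
    Rel Γ (⨅ n, τ n) x x' ↔ ∀ n, Rel Γ (τ n) x x' := by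
  refine ⟨fun h n => h.mono (iInf_le τ n), fun h U hU => ⟨?_, ?_⟩⟩
  · rintro ⟨γ, hγ⟩
    obtain ⟨n, V, h1, h2, h3⟩ := exists_open_of_iInf ha hU hγ
    obtain ⟨γ', h4⟩ := (h n V h1).1 ⟨γ, h2⟩
    exact ⟨γ', h3 h4⟩
  · rintro ⟨γ, hγ⟩
    obtain ⟨n, V, h1, h2, h3⟩ := exists_open_of_iInf ha hU hγ
    obtain ⟨γ', h4⟩ := (h n V h1).2 ⟨γ, h2⟩
    exact ⟨γ', h3 h4⟩

theorem small_iInf {τ : ℕ → TopologicalSpace X} (ha : Antitone τ) {x : X} :
    Small Γ (⨅ n, τ n) x ↔ ∃ n, Small Γ (τ n) x := by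
  refine ⟨?_, fun ⟨n, h⟩ => h.mono (iInf_le τ n)⟩
  rintro ⟨U, hU, γ₀, h0, h1⟩
  obtain ⟨n, V, h2, h3, h4⟩ := exists_open_of_iInf ha hU h0
  exact ⟨n, V, h2, γ₀, h3, fun γ hγ => h1 γ (h4 hγ)⟩

end Pool.Agent.Lib.MP_00fb6a_lc
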