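import Mathlib
import Pool.Agent.Lib.MP_00fb6a_lc.Good

/-!
A Glimm-Effros construction inside orbit closures, uniformly measurable in the orbit closure.
-/

set_option autoImplicit false
set_option linter.unusedSectionVars false

namespace Pool.Agent.Lib.MP_00fb6a_lc

open Set Filter Topology TopologicalSpace MeasureTheory

/-- Eventual equality of binary sequences. -/
def E0 (u v : ℕ → Bool) : Prop := ∀ᶠ n in atTop, u n = v n

theorem measurable_comp_countable {α L Z : Type} [MeasurableSpace α] [MeasurableSpace Z]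
    [Countable L] {s : α → L} (hs : ∀ l, MeasurableSet {a | s a = l}) {F : L → α → Z}
    (hF : ∀ l, Measurable (F l)) : Measurable (fun a => F (s a) a) := by
  intro S hS
  have : (fun a => F (s a) a) ⁻¹' S = ⋃ l, ({a | s a = l} ∩ F l ⁻¹' S) := by
    ext a; simp
  rw [this]
  exact MeasurableSet.iUnion fun l => (hs l).inter (hF l hS)

section Defs

variable {Γ : Type} [Group Γ] {X : Type} [MulAction Γ X] [MetricSpace X] [Nonempty X]
  (g : ℕ → Γ) (B : ℕ → Set X)

/-- The open set chosen at the last stage. -/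
def uset : List ℕ → Set X
  | [] => univ
  | c :: _ => B c.unpair.2

/-- The group element attached to an initial segment of a binary sequence. -/
def word : List ℕ → (ℕ → Bool) → Γ
  | [], _ => 1
  | c :: l, u => word l u * (if u l.length = true then g c.unpair.1 else 1)

/-- The requirements on the choice `c` after the choices `l`. -/
def StepOK (b : Bool) (t : ℕ → Bool) (l : List ℕ) (c : ℕ) : Prop :=
  t c.unpair.2 = true ∧
  (∀ z ∈ closure (B c.unpair.2), z ∈ uset B l ∧ g c.unpair.1 • z ∈ uset B l) ∧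
  (∀ u, ∀ z ∈ B c.unpair.2, ∀ z' ∈ B c.unpair.2,
    dist (word g (c :: l) u • z) (word g (c :: l) u • z') ≤ 1 / ((l.length : ℝ) + 1)) ∧
  (t l.length = true → ∃ δ : Γ, ∀ z ∈ B c.unpair.2, δ • z ∈ B l.length) ∧
  (b = true → ∀ u u', ∀ m ≤ l.length, ∀ z ∈ B c.unpair.2, ∀ z' ∈ B c.unpair.2,
    g m • word g l u • z ≠ word g l u' • g c.unpair.1 • z' ∧
    g m • word g l u' • g c.unpair.1 • z' ≠ word g l u • z)

open Classical in
/-- The least admissible choice. -/
noncomputable def next (b : Bool) (t : ℕ → Bool) (l : List ℕ) : ℕ :=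
  if h : ∃ c, StepOK g B b t l c then Nat.find h else 0

/-- The list of the first choices. -/
noncomputable def seq (b : Bool) (t : ℕ → Bool) : ℕ → List ℕ
  | 0 => []
  | n + 1 => next g B b t (seq b t n) :: seq b t n

open Classical in
/-- A point of the open set chosen at the last stage. -/
noncomputable def pt (l : List ℕ) : X :=
  if h : (uset B l).Nonempty then h.some else Classical.arbitrary X

/-- The limit map. -/
noncomputable def ge (b : Bool) (t u : ℕ → Bool) : X :=
  limUnder atTop (fun n => word g (seq g B b t n) u • pt B (seq g B b t n))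

theorem seq_length (b : Bool) (t : ℕ → Bool) (n : ℕ) : (seq g B b t n).length = n := by
  induction n with
  | zero => rfl
  | succ n ih => simp [seq, ih]

theorem word_finite (l : List ℕ) : (range (word g l)).Finite := by
  induction l with
  | nil =>
    refine (finite_singleton (1 : Γ)).subset ?_
    rintro _ ⟨u, rfl⟩
    rfl
  | cons c l ih =>
    refine (ih.union (ih.image (· * g c.unpair.1))).subset ?_
    rintro _ ⟨u, rfl⟩
    by_cases h : u l.length = true
    · right
      exact ⟨word g l u, ⟨u, rfl⟩, by simp [word, h]⟩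
    · left
      exact ⟨u, by simp [word, h]⟩

end Defs

section Measurability

variable {Γ : Type} [Group Γ] {X : Type} [MulAction Γ X] [MetricSpace X] [Nonempty X]
  (g : ℕ → Γ) (B : ℕ → Set X)

theorem measurableSet_bit (k : ℕ) : MeasurableSet {t : ℕ → Bool | t k = true} :=
  (measurable_pi_apply k : Measurable fun t : ℕ → Bool => t k) (measurableSet_singleton true)

theorem measurableSet_stepOK (b : Bool) (l : List ℕ) (c : ℕ) :
    MeasurableSet {t | StepOK g B b t l c} := by
  unfold StepOK
  refine (measurableSet_bit _).inter ((MeasurableSet.const _).inter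
    ((MeasurableSet.const _).inter (MeasurableSet.inter ?_ (MeasurableSet.const _))))
  have : {t : ℕ → Bool | t l.length = true → ∃ δ : Γ, ∀ z ∈ B c.unpair.2, δ • z ∈ B l.length} =
      {t : ℕ → Bool | t l.length = true}ᶜ ∪
        {_t : ℕ → Bool | ∃ δ : Γ, ∀ z ∈ B c.unpair.2, δ • z ∈ B l.length} := by
    ext t
    simp only [mem_ofPred_eq, mem_union, mem_compl_iff]
    tauto
  change MeasurableSet
    {t : ℕ → Bool | t l.length = true → ∃ δ : Γ, ∀ z ∈ B c.unpair.2, δ • z ∈ B l.length}
  rw [this]
  exact (measurableSet_bit _).compl.union (MeasurableSet.const _)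

theorem measurableSet_next (b : Bool) (l : List ℕ) (c : ℕ) :
    MeasurableSet {t | next g B b t l = c} := by
  classical
  have e : {t | next g B b t l = c} =
      ({t | StepOK g B b t l c} ∩ ⋂ c' ∈ Finset.range c, {t | StepOK g B b t l c'}ᶜ) ∪
      ((⋂ c', {t | StepOK g B b t l c'}ᶜ) ∩ {_t | 0 = c}) := by
    ext t
    simp only [mem_ofPred_eq, mem_union, mem_inter_iff, mem_iInter, mem_compl_iff,
      Finset.mem_range, next]
    by_cases h : ∃ c, StepOK g B b t l c
    · rw [dif_pos h, Nat.find_eq_iff]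
      constructor
      · exact fun h' => Or.inl h'
      · rintro (h' | h')
        · exact h'
        · obtain ⟨c', hc'⟩ := h
          exact absurd hc' (h'.1 c')
    · rw [dif_neg h]
      constructor
      · exact fun h' => Or.inr ⟨fun c' hc' => h ⟨c', hc'⟩, h'⟩
      · rintro (h' | h')
        · exact absurd ⟨c, h'.1⟩ h
        · exact h'.2
  rw [e]
  refine ((measurableSet_stepOK g B b l c).inter ?_).union
    ((MeasurableSet.iInter fun c' => (measurableSet_stepOK g B b l c').compl).inter
      (MeasurableSet.const _))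
  exact Finset.measurableSet_biInter _ fun c' _ => (measurableSet_stepOK g B b l c').compl

theorem measurableSet_seq (b : Bool) (n : ℕ) :
    ∀ l, MeasurableSet {t | seq g B b t n = l} := by
  induction n with
  | zero => intro l; exact MeasurableSet.const ([] = l)
  | succ n ih =>
    intro l
    cases l with
    | nil =>
      have : {t | seq g B b t (n + 1) = []} = ∅ := by ext t; simp [seq]
      rw [this]; exact MeasurableSet.empty
    | cons c l =>
      have : {t | seq g B b t (n + 1) = c :: l} =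
          {t | seq g B b t n = l} ∩ {t | next g B b t l = c} := by
        ext t
        simp only [seq, List.cons.injEq, mem_ofPred_eq, mem_inter_iff]
        constructor
        · rintro ⟨h1, h2⟩
          exact ⟨h2, h2 ▸ h1⟩
        · rintro ⟨h1, h2⟩
          exact ⟨h1 ▸ h2, h1⟩
      rw [this]
      exact (ih l).inter (measurableSet_next g B b l c)

variable [MeasurableSpace X]

theorem measurable_word (l : List ℕ) : ∀ z : X, Measurable (fun u => word g l u • z) := by
  induction l with
  | nil => intro z; exact measurable_const (a := (1 : Γ) • z)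
  | cons c l ih =>
    intro z
    have : (fun u => word g (c :: l) u • z) = fun u =>
        if u l.length = true then word g l u • (g c.unpair.1 • z) else word g l u • z := by
      ext u
      by_cases h : u l.length = true <;> simp [word, h, mul_smul]
    rw [this]
    exact Measurable.ite (measurableSet_bit _) (ih _) (ih _)

theorem measurable_ge [BorelSpace X] [CompleteSpace X] [SecondCountableTopology X] (b : Bool) :
    Measurable (fun p : (ℕ → Bool) × (ℕ → Bool) => ge g B b p.1 p.2) := by
  refine (StronglyMeasurable.limUnder (l := atTop) (f := fun n (p : (ℕ → Bool) × (ℕ → Bool)) =>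
    word g (seq g B b p.1 n) p.2 • pt B (seq g B b p.1 n)) fun n => ?_).measurable
  refine Measurable.stronglyMeasurable ?_
  exact measurable_comp_countable (s := fun p : (ℕ → Bool) × (ℕ → Bool) => seq g B b p.1 n)
    (F := fun l p => word g l p.2 • pt B l)
    (fun l => measurable_fst (measurableSet_seq g B b n l))
    (fun l => (measurable_word g l _).comp measurable_snd)

end Measurability

section Correct

variable {Γ : Type} [Group Γ] {X : Type} [MulAction Γ X] [MetricSpace X] [Nonempty X]
  [ContinuousConstSMul Γ X] {g : ℕ → Γ} {B : ℕ → Set X}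

theorem infinite_of_not_small {x : X} (hx : ¬ Small Γ inferInstance x) {U : Set X}
    (hU : IsOpen U) {γ₀ : Γ} (h0 : γ₀ • x ∈ U) {F : Set X} (hF : F.Finite) :
    ∃ γ : Γ, γ • x ∈ U ∧ γ • x ∉ F := by
  by_contra h
  push Not at h
  apply hx
  refine ⟨U ∩ (F \ {γ₀ • x})ᶜ, hU.inter (hF.subset sdiff_subset).isClosed.isOpen_compl, γ₀,
    ⟨h0, fun h' => h'.2 rfl⟩, fun γ hγ => ?_⟩
  by_contra hne
  exact hγ.2 ⟨h γ hγ.1, hne⟩

theorem exists_step (hg : Function.Surjective g) (hB : ∀ n, IsOpen (B n))
    (hB' : ∀ x U, IsOpen U → x ∈ U → ∃ n, x ∈ B n ∧ B n ⊆ U) {b : Bool} {t : ℕ → Bool} {x : X}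
    (ht : ∀ n, t n = true ↔ Meets Γ x (B n)) (hb : b = true → ¬ Small Γ inferInstance x)
    (l : List ℕ) (hl : Meets Γ x (uset B l)) : ∃ c, StepOK g B b t l c := by
  have hU : IsOpen (uset B l) := by
    cases l with
    | nil => exact isOpen_univ
    | cons c l => exact hB _
  obtain ⟨γ₀, h0⟩ := hl
  set z₀ := γ₀ • x with hz₀
  have hW := word_finite g l
  -- choice of the new group element
  have hγ : ∃ γ : Γ, γ • z₀ ∈ uset B l ∧ (b = true → ∀ w ∈ range (word g l),
      ∀ w' ∈ range (word g l), ∀ m ∈ Iic l.length,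
        g m • w • z₀ ≠ w' • γ • z₀ ∧ g m • w' • γ • z₀ ≠ w • z₀) := by
    by_cases hbt : b = true
    · let F : Set X := ⋃ w ∈ range (word g l), ⋃ w' ∈ range (word g l), ⋃ m ∈ Iic l.length,
        {w'⁻¹ • g m • w • z₀, w'⁻¹ • (g m)⁻¹ • w • z₀}
      have hF : F.Finite := hW.biUnion fun w _ => hW.biUnion fun w' _ =>
        (finite_Iic _).biUnion fun m _ => toFinite _
      obtain ⟨γ, h1, h2⟩ := infinite_of_not_small (hb hbt) hU h0 hF
      refine ⟨γ * γ₀⁻¹, by rwa [mul_smul, hz₀, inv_smul_smul], fun _ w hw w' hw' m hm => ?_⟩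
      have e : (γ * γ₀⁻¹) • z₀ = γ • x := by rw [mul_smul, hz₀, inv_smul_smul]
      rw [e]
      constructor
      · intro h
        apply h2
        refine mem_iUnion₂.2 ⟨w, hw, mem_iUnion₂.2 ⟨w', hw', mem_iUnion₂.2 ⟨m, hm, ?_⟩⟩⟩
        left
        rw [h, inv_smul_smul]
      · intro h
        apply h2
        refine mem_iUnion₂.2 ⟨w, hw, mem_iUnion₂.2 ⟨w', hw', mem_iUnion₂.2 ⟨m, hm, ?_⟩⟩⟩
        right
        rw [← h, inv_smul_smul, inv_smul_smul]
        rfl
    · exact ⟨1, by rwa [one_smul], fun h => absurd h hbt⟩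
  obtain ⟨γ, hγ1, hγ2⟩ := hγ
  obtain ⟨i, rfl⟩ := hg γ
  -- eventual properties near the point
  have hcs : ∀ δ : Γ, Continuous (fun z : X => δ • z) := fun δ => continuous_const_smul δ
  have e1 : ∀ᶠ p : X × X in 𝓝 (z₀, z₀), ∀ w ∈ range (word g l) ∪ (· * g i) '' range (word g l),
      dist (w • p.1) (w • p.2) ≤ 1 / ((l.length : ℝ) + 1) := by
    rw [eventually_all_finite (hW.union (hW.image _))]
    intro w _
    have hc : Continuous (fun p : X × X => dist (w • p.1) (w • p.2)) := by fun_prop
    have : ∀ᶠ p : X × X in 𝓝 (z₀, z₀), dist (w • p.1) (w • p.2) < 1 / ((l.length : ℝ) + 1) := by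
      apply hc.continuousAt.eventually_lt continuousAt_const
      simp only [dist_self]
      positivity
    exact this.mono fun p hp => hp.le
  have e2 : ∀ᶠ p : X × X in 𝓝 (z₀, z₀), b = true → ∀ w ∈ range (word g l),
      ∀ w' ∈ range (word g l), ∀ m ∈ Iic l.length,
        g m • w • p.1 ≠ w' • g i • p.2 ∧ g m • w' • g i • p.2 ≠ w • p.1 := by
    by_cases hbt : b = true
    · simp only [hbt, forall_true_left]
      rw [eventually_all_finite hW]
      intro w hw
      rw [eventually_all_finite hW]
      intro w' hw'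
      rw [eventually_all_finite (finite_Iic _)]
      intro m hm
      obtain ⟨h1, h2⟩ := hγ2 hbt w hw w' hw' m hm
      refine Eventually.and ?_ ?_
      · exact (isOpen_ne_fun (by fun_prop) (by fun_prop)).mem_nhds h1
      · exact (isOpen_ne_fun (by fun_prop) (by fun_prop)).mem_nhds h2
    · exact Eventually.of_forall fun p h => absurd h hbt
  have e3 : ∃ δ : Γ, ∀ᶠ z in 𝓝 z₀, t l.length = true → δ • z ∈ B l.length := by
    by_cases htl : t l.length = true
    · have := (ht _).1 htl
      rw [← meets_smul γ₀] at this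
      obtain ⟨δ, hδ⟩ := this
      refine ⟨δ, ?_⟩
      have : ∀ᶠ z in 𝓝 z₀, δ • z ∈ B l.length := ((hB _).preimage (hcs δ)).mem_nhds hδ
      exact this.mono fun z hz _ => hz
    · exact ⟨1, Eventually.of_forall fun z h => absurd h htl⟩
  obtain ⟨δ, e3⟩ := e3
  obtain ⟨C, hC1, hC2, hC3⟩ := exists_mem_nhds_isClosed_subset
    ((hU.inter (hU.preimage (hcs (g i)))).mem_nhds (mem_inter h0 hγ1))
  obtain ⟨S1, hS1, S2, hS2, hS⟩ := mem_nhds_prod_iff.1 (e1.and e2)
  obtain ⟨O, hO1, hO2, hO3⟩ := mem_nhds_iff.1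
    (inter_mem (inter_mem hS1 hS2) (inter_mem hC1 e3))
  obtain ⟨k, hk1, hk2⟩ := hB' z₀ O hO2 hO3
  have hsub : B k ⊆ (S1 ∩ S2) ∩ (C ∩ {z | t l.length = true → δ • z ∈ B l.length}) :=
    hk2.trans hO1
  refine ⟨Nat.pair i k, ?_⟩
  unfold StepOK
  simp only [Nat.unpair_pair]
  refine ⟨(ht k).2 ⟨γ₀, hk1⟩, fun z hz => ?_, fun u z hz z' hz' => ?_, fun htl => ?_,
    fun hbt u u' m hm z hz z' hz' => ?_⟩
  · exact hC3 (closure_minimal (fun z hz => (hsub hz).2.1) hC2 hz)
  · have hp : (z, z') ∈ S1 ×ˢ S2 := ⟨(hsub hz).1.1, (hsub hz').1.2⟩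
    refine (hS hp).1 _ ?_
    by_cases hu : u l.length = true
    · right
      exact ⟨word g l u, ⟨u, rfl⟩, by simp [word, hu]⟩
    · left
      exact ⟨u, by simp [word, hu]⟩
  · exact ⟨δ, fun z hz => (hsub hz).2.2 htl⟩
  · have hp : (z, z') ∈ S1 ×ˢ S2 := ⟨(hsub hz).1.1, (hsub hz').1.2⟩
    exact (hS hp).2 hbt _ ⟨u, rfl⟩ _ ⟨u', rfl⟩ m hm

/-- The hypotheses under which the construction succeeds. -/
structure Setup (g : ℕ → Γ) (B : ℕ → Set X) (b : Bool) (t : ℕ → Bool) (x : X) : Prop where
  hg : Function.Surjective g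
  hB : ∀ n, IsOpen (B n)
  hB' : ∀ x U, IsOpen U → x ∈ U → ∃ n, x ∈ B n ∧ B n ⊆ U
  ht : ∀ n, t n = true ↔ Meets Γ x (B n)
  hb : b = true → ¬ Small Γ inferInstance x

variable {b : Bool} {t : ℕ → Bool} {x : X}

theorem Setup.meets (h : Setup g B b t x) (n : ℕ) : Meets Γ x (uset B (seq g B b t n)) := by
  induction n with
  | zero => exact meets_self (mem_univ x)
  | succ n ih =>
    classical
    have hex := exists_step h.hg h.hB h.hB' h.ht h.hb _ ih
    have h1 : StepOK g B b t (seq g B b t n) (next g B b t (seq g B b t n)) := by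
      unfold next
      rw [dif_pos hex]
      exact Nat.find_spec hex
    exact (h.ht _).1 h1.1

theorem Setup.ok (h : Setup g B b t x) (n : ℕ) :
    StepOK g B b t (seq g B b t n) (next g B b t (seq g B b t n)) := by
  classical
  have hex := exists_step h.hg h.hB h.hB' h.ht h.hb _ (h.meets n)
  unfold next
  rw [dif_pos hex]
  exact Nat.find_spec hex

/-- Membership in the `n`-th set of the scheme along `u`. -/
def InS (g : ℕ → Γ) (B : ℕ → Set X) (b : Bool) (t : ℕ → Bool) (n : ℕ) (u : ℕ → Bool) (y : X) :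
    Prop := (word g (seq g B b t n) u)⁻¹ • y ∈ uset B (seq g B b t n)

theorem Setup.of_closure (h : Setup g B b t x) (n : ℕ) (u : ℕ → Bool) (y : X)
    (hy : (word g (seq g B b t (n + 1)) u)⁻¹ • y ∈ closure (uset B (seq g B b t (n + 1)))) :
    InS g B b t n u y := by
  have h1 := (h.ok n).2.1 _ hy
  unfold InS
  by_cases hu : u (seq g B b t n).length = true
  · have e : word g (seq g B b t (n + 1)) u = word g (seq g B b t n) u *
        g (next g B b t (seq g B b t n)).unpair.1 := by simp [seq, word, hu]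
    have h2 := h1.2
    rwa [e, mul_inv_rev, mul_smul, smul_inv_smul] at h2
  · have e : word g (seq g B b t (n + 1)) u = word g (seq g B b t n) u := by
      simp [seq, word, hu]
    have h2 := h1.1
    rwa [e] at h2

theorem Setup.nested (h : Setup g B b t x) (u : ℕ → Bool) (y : X) {n m : ℕ} (hnm : n ≤ m)
    (hy : InS g B b t m u y) : InS g B b t n u y := by
  induction m, hnm using Nat.le_induction with
  | base => exact hy
  | succ m _ ih => exact ih (h.of_closure m u y (subset_closure hy))

theorem Setup.dist_le (h : Setup g B b t x) (u : ℕ → Bool) {y y' : X} (n : ℕ)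
    (hy : InS g B b t (n + 1) u y) (hy' : InS g B b t (n + 1) u y') :
    dist y y' ≤ 1 / ((n : ℝ) + 1) := by
  have h1 := (h.ok n).2.2.1 u _ hy _ hy'
  rw [seq_length] at h1
  have e : next g B b t (seq g B b t n) :: seq g B b t n = seq g B b t (n + 1) := rfl
  rwa [e, smul_inv_smul, smul_inv_smul] at h1

theorem Setup.unique (h : Setup g B b t x) (u : ℕ → Bool) {y y' : X}
    (hy : ∀ n, InS g B b t n u y) (hy' : ∀ n, InS g B b t n u y') : y = y' := by
  apply eq_of_forall_dist_le
  intro ε hε
  obtain ⟨n, hn⟩ := exists_nat_one_div_lt hε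
  exact (h.dist_le u n (hy _) (hy' _)).trans hn.le

theorem Setup.inS_ge [CompleteSpace X] (h : Setup g B b t x) (u : ℕ → Bool) (n : ℕ) :
    InS g B b t n u (ge g B b t u) := by
  let a : ℕ → X := fun n => word g (seq g B b t n) u • pt B (seq g B b t n)
  have ha : ∀ n, InS g B b t n u (a n) := by
    intro n
    obtain ⟨γ, hγ⟩ := h.meets n
    have hne : (uset B (seq g B b t n)).Nonempty := ⟨_, hγ⟩
    unfold InS
    simp only [a, inv_smul_smul, pt, dif_pos hne]
    exact hne.some_mem
  have hc : CauchySeq a := by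
    rw [Metric.cauchySeq_iff]
    intro ε hε
    obtain ⟨N, hN⟩ := exists_nat_one_div_lt hε
    exact ⟨N + 1, fun m hm k hk => lt_of_le_of_lt
      (h.dist_le u N (h.nested u _ hm (ha m)) (h.nested u _ hk (ha k))) hN⟩
  have hlim : Tendsto a atTop (𝓝 (ge g B b t u)) :=
    tendsto_nhds_limUnder (cauchySeq_tendsto_of_complete hc)
  apply h.of_closure
  refine mem_closure_of_tendsto (((continuous_const_smul _).tendsto _).comp hlim) ?_
  filter_upwards [eventually_ge_atTop (n + 1)] with m hm using h.nested u _ hm (ha m)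

theorem Setup.rel_ge [CompleteSpace X] (h : Setup g B b t x) (u : ℕ → Bool) :
    Rel Γ inferInstance (ge g B b t u) x := by
  intro U hU
  constructor
  · rintro ⟨γ, hγ⟩
    have hO : IsOpen ((fun z : X => γ • z) ⁻¹' U) := hU.preimage (continuous_const_smul γ)
    obtain ⟨ε, hε, hball⟩ := Metric.isOpen_iff.1 hO _ hγ
    obtain ⟨n, hn⟩ := exists_nat_one_div_lt hε
    obtain ⟨γ', hγ'⟩ := h.meets (n + 1)
    have h1 : InS g B b t (n + 1) u (word g (seq g B b t (n + 1)) u • γ' • x) := by
      unfold InS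
      rwa [inv_smul_smul]
    have h2 := h.dist_le u n h1 (h.inS_ge u (n + 1))
    refine ⟨γ * (word g (seq g B b t (n + 1)) u * γ'), ?_⟩
    rw [mul_smul, mul_smul]
    exact hball (lt_of_le_of_lt h2 hn)
  · rintro ⟨γ, hγ⟩
    obtain ⟨n, h1, h2⟩ := h.hB' _ U hU hγ
    have h3 := (h.ok n).2.2.2.1
    rw [seq_length] at h3
    obtain ⟨δ, hδ⟩ := h3 ((h.ht n).2 ⟨γ, h1⟩)
    refine ⟨δ * (word g (seq g B b t (n + 1)) u)⁻¹, ?_⟩
    rw [mul_smul]
    exact h2 (hδ _ (h.inS_ge u (n + 1)))

theorem Setup.smul_of_E0 [CompleteSpace X] (h : Setup g B b t x) {u u' : ℕ → Bool}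
    (hu : E0 u u') : ∃ η : Γ, ge g B b t u' = η • ge g B b t u := by
  obtain ⟨N, hN⟩ := eventually_atTop.1 hu
  let η : Γ := word g (seq g B b t N) u' * (word g (seq g B b t N) u)⁻¹
  have hw : ∀ n, N ≤ n → word g (seq g B b t n) u' = η * word g (seq g B b t n) u := by
    intro n hn
    induction n, hn using Nat.le_induction with
    | base => simp [η]
    | succ n hn ih =>
      simp only [seq, word, seq_length]
      rw [ih, hN n hn, mul_assoc]
  refine ⟨η, h.unique u' (h.inS_ge u') fun n => ?_⟩
  apply h.nested u' _ (le_max_left n N)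
  have h1 := h.inS_ge u (max n N)
  unfold InS at h1 ⊢
  rwa [hw _ (le_max_right n N), mul_inv_rev, mul_smul, inv_smul_smul]

theorem Setup.E0_of_smul [CompleteSpace X] (h : Setup g B true t x) {u u' : ℕ → Bool} {δ : Γ}
    (hδ : ge g B true t u' = δ • ge g B true t u) : E0 u u' := by
  obtain ⟨m, rfl⟩ := h.hg δ
  refine eventually_atTop.2 ⟨m, fun n hn => ?_⟩
  by_contra hne
  have h1 := h.inS_ge u (n + 1)
  have h2 := h.inS_ge u' (n + 1)
  have h3 := (h.ok n).2.2.2.2 rfl
  rw [seq_length] at h3
  have ew : ∀ v : ℕ → Bool, word g (seq g B true t (n + 1)) v = word g (seq g B true t n) v *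
      (if v n = true then g (next g B true t (seq g B true t n)).unpair.1 else 1) := by
    intro v
    simp only [seq, word, seq_length]
  by_cases hu : u n = true
  · have hu' : ¬ u' n = true := fun h' => hne (hu.trans h'.symm)
    refine (h3 u' u m hn _ h2 _ h1).2 ?_
    rw [ew u, ew u', if_pos hu, if_neg hu', mul_one, smul_inv_smul, mul_inv_rev, mul_smul,
      smul_inv_smul, smul_inv_smul, hδ]
  · have hu' : u' n = true := by
      cases h4 : u' n with
      | true => rfl
      | false => exact absurd ((Bool.eq_false_iff.2 hu).trans h4.symm) hne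
    refine (h3 u u' m hn _ h1 _ h2).1 ?_
    rw [ew u, ew u', if_neg hu, if_pos hu', mul_one, smul_inv_smul, mul_inv_rev, mul_smul,
      smul_inv_smul, smul_inv_smul, hδ]

end Correct

/-- The data produced by the construction for a good topology. -/
structure GEData (Γ : Type) [Group Γ] {X : Type} [MulAction Γ X] [MeasurableSpace X]
    (τ : TopologicalSpace X) where
  tp : X → ℕ → Bool
  ge : Bool → (ℕ → Bool) → (ℕ → Bool) → X
  measurable_tp : Measurable tp
  tp_eq : ∀ x x', tp x = tp x' ↔ Rel Γ τ x x'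
  measurable_ge : ∀ b, Measurable (fun p : (ℕ → Bool) × (ℕ → Bool) => ge b p.1 p.2)
  rel_false : ∀ x u, Rel Γ τ (ge false (tp x) u) x
  rel_true : ∀ x, ¬ Small Γ τ x → ∀ u, Rel Γ τ (ge true (tp x) u) x
  smul_of_E0 : ∀ x, ¬ Small Γ τ x → ∀ u u', E0 u u' →
    ∃ η : Γ, ge true (tp x) u' = η • ge true (tp x) u
  E0_of_smul : ∀ x, ¬ Small Γ τ x → ∀ u u' (η : Γ),
    ge true (tp x) u' = η • ge true (tp x) u → E0 u u'

theorem Good.exists_geData {Γ : Type} [Group Γ] [Countable Γ] {X : Type} [MulAction Γ X]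
    [MeasurableSpace X] [Nonempty X] {τ : TopologicalSpace X} (h : Good Γ τ) :
    Nonempty (GEData Γ τ) := by
  classical
  have := h.polish
  have := h.borel
  let := upgradeIsCompletelyMetrizable X
  have : ContinuousConstSMul Γ X := ⟨h.cont⟩
  obtain ⟨g, hg⟩ := exists_surjective_nat Γ
  obtain ⟨B, hB, hB'⟩ := exists_basis_seq X
  let tp : X → ℕ → Bool := fun x n => decide (Meets Γ x (B n))
  have hS : ∀ b x, (b = true → ¬ Small Γ τ x) → Setup g B b (tp x) x := fun b x hb =>
    ⟨hg, hB, hB', fun n => by simp [tp], hb⟩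
  refine ⟨⟨tp, ge g B, ?_, fun x x' => ?_, measurable_ge g B, fun x u => ?_, fun x hx u => ?_,
    fun x hx u u' hu => ?_, fun x hx u u' η hη => ?_⟩⟩
  · refine measurable_pi_lambda _ fun n => ?_
    apply measurable_to_bool
    have : (fun x => tp x n) ⁻¹' {true} = {x | Meets Γ x (B n)} := by
      ext x; simp [tp]
    rw [this]
    exact measurableSet_meets h.measurable_smul (hB n).measurableSet
  · rw [rel_iff_basis hB hB', funext_iff]
    simp [tp]
  · exact (hS false x (by simp)).rel_ge u
  · exact (hS true x (fun _ => hx)).rel_ge u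
  · exact (hS true x (fun _ => hx)).smul_of_E0 hu
  · exact (hS true x (fun _ => hx)).E0_of_smul hη

end Pool.Agent.Lib.MP_00fb6a_lc
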