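import Mathlib
import Pool.Agent.Lib.MP_00fb6a_lc.GE

/-!
Tools: the zero-one law for eventual equality, separation of analytic sets in standard Borel
spaces and a Schroeder-Bernstein lemma for Borel sets.
-/

set_option autoImplicit false
set_option linter.unusedSectionVars false

namespace Pool.Agent.Lib.MP_00fb6a_lc

open Set Filter Topology TopologicalSpace MeasureTheory ProbabilityTheory

theorem E0.refl (u : ℕ → Bool) : E0 u u := Eventually.of_forall fun _ => rfl

theorem E0.symm {u v : ℕ → Bool} (h : E0 u v) : E0 v u := h.mono fun _ h => h.symm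

theorem E0.trans {u v w : ℕ → Bool} (h : E0 u v) (h' : E0 v w) : E0 u w :=
  (h.and h').mono fun _ h => h.1.trans h.2

theorem countable_E0_class (u : ℕ → Bool) : {v | E0 u v}.Countable := by
  have : {v | E0 u v} ⊆ ⋃ N : ℕ, range
      (fun s : Fin N → Bool => fun n => if h : n < N then s ⟨n, h⟩ else u n) := by
    intro v hv
    obtain ⟨N, hN⟩ := eventually_atTop.1 hv
    refine mem_iUnion.2 ⟨N, fun i => v i, ?_⟩
    ext n
    by_cases h : n < N
    · simp [h]
    · simp [h, hN n (not_lt.1 h)]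
  exact (countable_iUnion fun N => countable_range _).mono this

/-- The fair coin measure: ergodic for eventual equality and without atoms. -/
theorem exists_coin : ∃ μ : Measure (ℕ → Bool), IsProbabilityMeasure μ ∧
    (∀ S, MeasurableSet S → (∀ u v, E0 u v → u ∈ S → v ∈ S) → μ S = 0 ∨ μ S = 1) ∧
    ∀ u, μ {u} = 0 := by
  let c : Measure Bool := (PMF.uniformOfFintype Bool).toMeasure
  have hc : ∀ b, c {b} = 2⁻¹ := by
    intro b
    simp [c]
  refine ⟨Measure.infinitePi (fun _ : ℕ => c), inferInstance, fun S hS hinv => ?_, fun u => ?_⟩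
  · have hind := (iIndepFun_iff_iIndep _ _ _).1
      (iIndepFun_infinitePi (P := fun _ : ℕ => c) (X := fun _ b => b) (fun _ => measurable_id))
    refine measure_zero_or_one_of_measurableSet_limsup_atTop
      (fun n => (measurable_pi_apply n).comap_le) hind ?_
    rw [limsup_eq_iInf_iSup_of_nat, MeasurableSpace.measurableSet_iInf]
    intro N
    let z : (ℕ → Bool) → (ℕ → Bool) := fun u n => if N ≤ n then u n else false
    have hz : ∀ u, E0 u (z u) := fun u => eventually_atTop.2 ⟨N, fun n hn => by simp [z, hn]⟩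
    have e : S = z ⁻¹' S := by
      ext u
      exact ⟨fun h => hinv _ _ (hz u) h, fun h => hinv _ _ (hz u).symm h⟩
    have hm : Measurable[⨆ i ≥ N, MeasurableSpace.comap (fun ω : ℕ → Bool => ω i) inferInstance]
        z := by
      refine @measurable_pi_lambda _ _ _ (_) _ z fun n => ?_
      by_cases hn : N ≤ n
      · simp only [z, hn, if_true]
        refine Measurable.mono (comap_measurable (fun ω : ℕ → Bool => ω n)) ?_ le_rfl
        exact le_iSup₂_of_le n hn le_rfl
      · simp only [z, hn, if_false]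
        exact measurable_const
    rw [e]
    exact hm hS
  · have h1 : ∀ n : ℕ, Measure.infinitePi (fun _ : ℕ => c) {u} ≤ 2⁻¹ ^ n := by
      intro n
      have h2 := Measure.infinitePi_pi (fun _ : ℕ => c) (s := Finset.range n)
        (t := fun i => {u i}) (fun i _ => measurableSet_singleton _)
      simp only [hc, Finset.prod_const, Finset.card_range] at h2
      rw [← h2]
      apply measure_mono
      rintro v rfl i _
      rfl
    have h3 : Tendsto (fun n : ℕ => (2⁻¹ : ENNReal) ^ n) atTop (𝓝 0) :=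
      ENNReal.tendsto_pow_atTop_nhds_zero_of_lt_one (by norm_num)
    exact le_antisymm (ge_of_tendsto' h3 h1) bot_le

/-- An invariant measurable map to Cantor space is almost surely equal to its majority value. -/
theorem ae_eq_majority {μ : Measure (ℕ → Bool)} [IsProbabilityMeasure μ]
    (h01 : ∀ S, MeasurableSet S → (∀ u v, E0 u v → u ∈ S → v ∈ S) → μ S = 0 ∨ μ S = 1)
    {f : (ℕ → Bool) → ℕ → Bool} (hf : Measurable f) (hinv : ∀ u v, E0 u v → f u = f v) :
    ∀ᵐ u ∂μ, ∀ k, (f u k = true ↔ μ {v | f v k = true} = 1) := by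
  rw [ae_all_iff]
  intro k
  have hm : MeasurableSet {v | f v k = true} := hf (measurableSet_bit k)
  rcases h01 _ hm (fun u v huv hu => by
    simp only [mem_ofPred_eq] at hu ⊢; rw [← hinv u v huv]; exact hu) with h | h
  · have : ∀ᵐ u ∂μ, u ∉ {v | f v k = true} := measure_eq_zero_iff_ae_notMem.1 h
    filter_upwards [this] with u hu
    rw [h]
    simpa using hu
  · have : ∀ᵐ u ∂μ, u ∈ {v | f v k = true} := (mem_ae_iff_prob_eq_one hm).2 h
    filter_upwards [this] with u hu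
    rw [h]
    simpa using hu

/-- Interleaving a parameter, repeated infinitely often, with a sequence. -/
def mix (r u : ℕ → Bool) : ℕ → Bool := fun n =>
  if n % 2 = 0 then r (n / 2).unpair.1 else u (n / 2)

theorem measurable_mix : Measurable (fun p : (ℕ → Bool) × (ℕ → Bool) => mix p.1 p.2) := by
  refine measurable_pi_lambda _ fun n => ?_
  unfold mix
  by_cases h : n % 2 = 0
  · simp only [h, if_true]
    exact (measurable_pi_apply _).comp measurable_fst
  · simp only [h, if_false]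
    exact (measurable_pi_apply _).comp measurable_snd

theorem E0_mix (r : ℕ → Bool) {u v : ℕ → Bool} (h : E0 u v) : E0 (mix r u) (mix r v) := by
  obtain ⟨N, hN⟩ := eventually_atTop.1 h
  refine eventually_atTop.2 ⟨2 * N, fun n hn => ?_⟩
  unfold mix
  rw [hN (n / 2) (by omega)]

theorem of_E0_mix {r r' u v : ℕ → Bool} (h : E0 (mix r u) (mix r' v)) : r = r' ∧ E0 u v := by
  obtain ⟨N, hN⟩ := eventually_atTop.1 h
  constructor
  · ext k
    have h1 := hN (2 * Nat.pair k N) (by have := Nat.right_le_pair k N; omega)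
    simpa [mix] using h1
  · refine eventually_atTop.2 ⟨N, fun n hn => ?_⟩
    have h1 := hN (2 * n + 1) (by omega)
    have e1 : (2 * n + 1) % 2 = 1 := by omega
    have e2 : (2 * n + 1) / 2 = n := by omega
    simpa [mix, e1, e2] using h1

/-- Lusin separation for measurable images in standard Borel spaces. -/
theorem exists_sep {Z₁ Z₂ X : Type} [MeasurableSpace Z₁] [StandardBorelSpace Z₁]
    [MeasurableSpace Z₂] [StandardBorelSpace Z₂] [MeasurableSpace X] [StandardBorelSpace X]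
    {f₁ : Z₁ → X} {f₂ : Z₂ → X} (h₁ : Measurable f₁) (h₂ : Measurable f₂)
    {S₁ : Set Z₁} {S₂ : Set Z₂} (hS₁ : MeasurableSet S₁) (hS₂ : MeasurableSet S₂)
    (hd : ∀ a ∈ S₁, ∀ b ∈ S₂, f₁ a ≠ f₂ b) :
    ∃ B, MeasurableSet B ∧ (∀ a ∈ S₁, f₁ a ∈ B) ∧ ∀ b ∈ S₂, f₂ b ∉ B := by
  obtain ⟨τ, hb, hp⟩ := StandardBorelSpace.polish (α := X)
  have a1 : AnalyticSet (f₁ '' S₁) := hS₁.analyticSet_image h₁
  have a2 : AnalyticSet (f₂ '' S₂) := hS₂.analyticSet_image h₂
  obtain ⟨B, h1, h2, h3⟩ := a1.measurablySeparable a2 (by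
    rw [Set.disjoint_left]
    rintro _ ⟨a, ha, rfl⟩ ⟨b, hb, e⟩
    exact hd a ha b hb e.symm)
  exact ⟨B, h3, fun a ha => h1 ⟨a, ha, rfl⟩, fun b hb hB =>
    Set.disjoint_left.1 h2 ⟨b, hb, rfl⟩ hB⟩

/-- Souslin's theorem for projections of a total Borel relation. -/
theorem measurableSet_proj {X Y : Type} [MeasurableSpace X] [StandardBorelSpace X]
    [MeasurableSpace Y] [StandardBorelSpace Y] {R : Set (X × Y)} (hR : MeasurableSet R)
    (htot : ∀ x, ∃ y, (x, y) ∈ R) {D : Set Y} (hD : MeasurableSet D)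
    (hwd : ∀ x y y', (x, y) ∈ R → (x, y') ∈ R → y ∈ D → y' ∈ D) :
    MeasurableSet {x | ∃ y, (x, y) ∈ R ∧ y ∈ D} := by
  obtain ⟨B, h1, h2, h3⟩ := exists_sep (f₁ := (Prod.fst : X × Y → X)) (f₂ := (Prod.fst : X × Y → X))
    measurable_fst measurable_fst (hR.inter (measurable_snd hD)) (hR.inter (measurable_snd hD.compl))
    (by
      rintro ⟨x, y⟩ ha ⟨x', y'⟩ hb e
      simp only at e
      subst e
      exact hb.2 (hwd x y y' ha.1 hb.1 ha.2))
  convert h1 using 1
  ext x
  constructor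
  · rintro ⟨y, hy, hyD⟩
    exact h2 (x, y) ⟨hy, hyD⟩
  · intro hx
    obtain ⟨y, hy⟩ := htot x
    refine ⟨y, hy, ?_⟩
    by_contra hyD
    exact h3 (x, y) ⟨hy, hyD⟩ hx

/-- Schroeder-Bernstein for Borel subsets, keeping track of the pieces. -/
theorem exists_sb {X Y : Type} [MeasurableSpace X] [StandardBorelSpace X]
    [MeasurableSpace Y] [StandardBorelSpace Y] {P : Set X} {Q : Set Y} (hP : MeasurableSet P)
    (hQ : MeasurableSet Q) {F : X → Y} {G : Y → X} (hF : Measurable F) (hG : Measurable G)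
    (hFi : InjOn F P) (hGi : InjOn G Q) (hFm : MapsTo F P Q) (hGm : MapsTo G Q P) :
    ∃ H : Set (X × Y), MeasurableSet H ∧ (∀ p ∈ H, p.1 ∈ P ∧ p.2 ∈ Q ∧ (p.2 = F p.1 ∨ p.1 = G p.2)) ∧
      (∀ x ∈ P, ∃ y, (x, y) ∈ H) ∧ (∀ y ∈ Q, ∃ x, (x, y) ∈ H) ∧
      (∀ p ∈ H, ∀ q ∈ H, p.1 = q.1 ↔ p.2 = q.2) := by
  let A : ℕ → Set X := fun n => Nat.rec (P \ G '' Q) (fun _ S => G '' (F '' S)) n
  have hA0 : A 0 = P \ G '' Q := rfl
  have hAs : ∀ n, A (n + 1) = G '' (F '' A n) := fun n => rfl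
  have hA : ∀ n, A n ⊆ P ∧ MeasurableSet (A n) := by
    intro n
    induction n with
    | zero => exact ⟨sdiff_subset, hP.diff (hQ.image_of_measurable_injOn hG hGi)⟩
    | succ n ih =>
      have h1 : F '' A n ⊆ Q := by
        rintro _ ⟨x, hx, rfl⟩
        exact hFm (ih.1 hx)
      refine ⟨?_, (ih.2.image_of_measurable_injOn hF (hFi.mono ih.1)).image_of_measurable_injOn
        hG (hGi.mono h1)⟩
      rintro _ ⟨y, hy, rfl⟩
      exact hGm (h1 hy)
  let U : Set X := ⋃ n, A n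
  have hU : MeasurableSet U := MeasurableSet.iUnion fun n => (hA n).2
  have hUP : U ⊆ P := iUnion_subset fun n => (hA n).1
  have hstep : ∀ x ∈ U, G (F x) ∈ U := by
    intro x hx
    obtain ⟨n, hn⟩ := mem_iUnion.1 hx
    exact mem_iUnion.2 ⟨n + 1, ⟨F x, ⟨x, hn, rfl⟩, rfl⟩⟩
  refine ⟨{p | p.1 ∈ U ∧ p.2 = F p.1} ∪ {p | p.2 ∈ Q ∧ G p.2 ∉ U ∧ p.1 = G p.2}, ?_, ?_, ?_, ?_,
    ?_⟩
  · refine MeasurableSet.union ((measurable_fst hU).inter ?_)
      ((measurable_snd hQ).inter (((hG.comp measurable_snd) hU.compl).inter ?_))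
    · exact measurableSet_eq_fun measurable_snd (hF.comp measurable_fst)
    · exact measurableSet_eq_fun measurable_fst (hG.comp measurable_snd)
  · rintro ⟨x, y⟩ (⟨h1, h2⟩ | ⟨h1, h2, h3⟩)
    · exact ⟨hUP h1, h2 ▸ hFm (hUP h1), Or.inl h2⟩
    · exact ⟨h3 ▸ hGm h1, h1, Or.inr h3⟩
  · intro x hx
    by_cases h : x ∈ U
    · exact ⟨F x, Or.inl ⟨h, rfl⟩⟩
    · have : x ∈ G '' Q := by
        by_contra h'
        exact h (mem_iUnion.2 ⟨0, hx, h'⟩)
      obtain ⟨y, hy, rfl⟩ := this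
      exact ⟨y, Or.inr ⟨hy, h, rfl⟩⟩
  · intro y hy
    by_cases h : G y ∈ U
    · obtain ⟨n, hn⟩ := mem_iUnion.1 h
      cases n with
      | zero => exact absurd ⟨y, hy, rfl⟩ hn.2
      | succ n =>
        obtain ⟨_, ⟨x, hx, rfl⟩, e⟩ := hn
        have := hGi (hFm ((hA n).1 hx)) hy e
        exact ⟨x, Or.inl ⟨mem_iUnion.2 ⟨n, hx⟩, this.symm⟩⟩
    · exact ⟨G y, Or.inr ⟨hy, h, rfl⟩⟩
  · rintro ⟨x, y⟩ (⟨h1, h2⟩ | ⟨h1, h2, h3⟩) ⟨x', y'⟩ (⟨k1, k2⟩ | ⟨k1, k2, k3⟩) <;>
      simp only at *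
    · subst h2 k2
      exact ⟨fun e => by rw [e], fun e => hFi (hUP h1) (hUP k1) e⟩
    · subst h2 k3
      exact ⟨fun e => absurd (e ▸ h1) k2, fun e => absurd (e ▸ hstep x h1) k2⟩
    · subst h3 k2
      exact ⟨fun e => absurd (e ▸ k1) h2, fun e => absurd (e ▸ hstep x' k1) h2⟩
    · subst h3 k3
      exact ⟨fun e => hGi h1 k1 e, fun e => by rw [e]⟩

end Pool.Agent.Lib.MP_00fb6a_lc
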