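import Mathlib
import Pool.Agent.Lib.MP_00fb6a_lc.Tools

/-!
The one-sided extension lemma: a good topology can be refined so that a given Borel set becomes
clopen and every perfect orbit closure splits, uniformly, into continuum many perfect orbit
closures and continuum many orbits with an isolated point.
-/

set_option autoImplicit false
set_option linter.unusedSectionVars false

namespace Pool.Agent.Lib.MP_00fb6a_lc

open Set Filter Topology TopologicalSpace MeasureTheory ProbabilityTheory

variable {Γ : Type} [Group Γ] [Countable Γ] {X : Type} [MulAction Γ X] [MeasurableSpace X]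
  [StandardBorelSpace X] [Nonempty X]

theorem Good.exists_selector {τ : TopologicalSpace X} (h : Good Γ τ) :
    ∃ s : X → X, Measurable s ∧ (∀ x, Rel Γ τ (s x) x) ∧ ∀ x x', Rel Γ τ x x' → s x = s x' := by
  obtain ⟨D⟩ := h.exists_geData
  refine ⟨fun x => D.ge false (D.tp x) (fun _ => false), ?_, fun x => D.rel_false x _,
    fun x x' hx => by simp only [(D.tp_eq x x').2 hx]⟩
  exact (D.measurable_ge false).comp (D.measurable_tp.prodMk measurable_const)

theorem Good.measurableSet_rel {τ : TopologicalSpace X} (h : Good Γ τ) :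
    MeasurableSet {p : X × X | Rel Γ τ p.1 p.2} := by
  obtain ⟨D⟩ := h.exists_geData
  have : {p : X × X | Rel Γ τ p.1 p.2} = {p | D.tp p.1 = D.tp p.2} := by
    ext p; simp [D.tp_eq]
  rw [this]
  exact measurableSet_eq_fun (D.measurable_tp.comp measurable_fst)
    (D.measurable_tp.comp measurable_snd)

theorem Good.exists_split {τ : TopologicalSpace X} (h : Good Γ τ) (A : Set X)
    (hA : MeasurableSet A) :
    ∃ τ', Good Γ τ' ∧ τ' ≤ τ ∧ IsOpen[τ'] A ∧ IsOpen[τ'] Aᶜ ∧
      ∃ j : X × (ℕ → Bool) × Bool → X, Measurable j ∧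
        (∀ x r b, ¬ Small Γ τ x →
          Rel Γ τ (j (x, r, b)) x ∧ (Small Γ τ' (j (x, r, b)) ↔ b = true)) ∧
        ∀ x x' r r' b b', ¬ Small Γ τ x → ¬ Small Γ τ x' →
          Rel Γ τ' (j (x, r, b)) (j (x', r', b')) → r = r' := by
  classical
  obtain ⟨D⟩ := h.exists_geData
  obtain ⟨g, hg⟩ := exists_surjective_nat Γ
  let e : X → (ℕ → Bool) → (ℕ → Bool) → X := fun x r u => D.ge true (D.tp x) (mix r u)
  have he : Measurable (fun p : X × (ℕ → Bool) × (ℕ → Bool) => e p.1 p.2.1 p.2.2) :=
    (D.measurable_ge true).comp ((D.measurable_tp.comp measurable_fst).prodMk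
      (measurable_mix.comp measurable_snd))
  have hrel : ∀ x, ¬ Small Γ τ x → ∀ r u, Rel Γ τ (e x r u) x := fun x hx r u =>
    D.rel_true x hx _
  have key : ∀ x x' r r' u u' (η : Γ), ¬ Small Γ τ x → ¬ Small Γ τ x' →
      e x' r' u' = η • e x r u → D.tp x = D.tp x' ∧ r = r' ∧ E0 u u' := by
    intro x x' r r' u u' η hx hx' hη
    have h1 : Rel Γ τ x x' :=
      (hrel x hx r u).symm.trans ((rel_smul τ η _).symm.trans (hη ▸ hrel x' hx' r' u'))
    have h2 := (D.tp_eq x x').2 h1
    simp only [e] at hη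
    rw [← h2] at hη
    exact ⟨h2, of_E0_mix (D.E0_of_smul x hx _ _ η hη)⟩
  have hns : MeasurableSet {x | ¬ Small Γ τ x} := h.measurableSet_small.compl
  -- separation of the parameter bits
  have hf : Measurable (fun p : (X × (ℕ → Bool) × (ℕ → Bool)) × ℕ =>
      g p.2 • e p.1.1 p.1.2.1 p.1.2.2) :=
    measurable_comp_countable (s := fun p : (X × (ℕ → Bool) × (ℕ → Bool)) × ℕ => p.2)
      (F := fun m p => g m • e p.1.1 p.1.2.1 p.1.2.2)
      (fun m => measurable_snd (measurableSet_singleton m))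
      (fun m => (h.measurable_smul (g m)).comp (he.comp measurable_fst))
  have hsep : ∀ n, ∃ B, MeasurableSet B ∧
      ∀ x r u, ¬ Small Γ τ x → (Meets Γ (e x r u) B ↔ r n = true) := by
    intro n
    have m1 : MeasurableSet {p : (X × (ℕ → Bool) × (ℕ → Bool)) × ℕ | ¬ Small Γ τ p.1.1} :=
      (measurable_fst.comp measurable_fst) hns
    have m2 : MeasurableSet {p : (X × (ℕ → Bool) × (ℕ → Bool)) × ℕ | p.1.2.1 n = true} :=
      (measurable_fst.comp (measurable_snd.comp measurable_fst)) (measurableSet_bit n)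
    obtain ⟨B, h1, h2, h3⟩ := exists_sep hf hf (m1.inter m2) (m1.inter m2.compl) (by
      rintro ⟨⟨x, r, u⟩, m⟩ ⟨ha1, ha2⟩ ⟨⟨x', r', u'⟩, m'⟩ ⟨hb1, hb2⟩ heq
      simp only at heq
      have h4 : e x' r' u' = ((g m')⁻¹ * g m) • e x r u := by
        rw [mul_smul, heq, inv_smul_smul]
      have h5 := (key x x' r r' u u' _ ha1 hb1 h4).2.1
      subst h5
      exact hb2 ha2)
    refine ⟨B, h1, fun x r u hx => ⟨?_, fun hr => ?_⟩⟩
    · rintro ⟨γ, hγ⟩
      obtain ⟨m, rfl⟩ := hg γ
      by_contra hr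
      exact h3 ((x, r, u), m) ⟨hx, hr⟩ hγ
    · exact ⟨g 0, h2 ((x, r, u), 0) ⟨hx, hr⟩⟩
  choose Bn hBn1 hBn2 using hsep
  -- a Borel set isolating the points `e x r 0` in their orbits
  let o : ℕ → Bool := fun _ => false
  have he0 : Measurable (fun p : X × (ℕ → Bool) => e p.1 p.2 o) :=
    he.comp (measurable_fst.prodMk (measurable_snd.prodMk measurable_const))
  have hf0 : Measurable (fun p : (X × (ℕ → Bool)) × ℕ => g p.2 • e p.1.1 p.1.2 o) :=
    hf.comp (((measurable_fst.comp measurable_fst).prodMk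
      ((measurable_snd.comp measurable_fst).prodMk measurable_const)).prodMk measurable_snd)
  obtain ⟨Bs, hBs1, hBs2, hBs3⟩ := exists_sep he0 hf0
    (S₁ := {p | ¬ Small Γ τ p.1})
    (S₂ := {p | ¬ Small Γ τ p.1.1} ∩ {p | g p.2 • e p.1.1 p.1.2 o = e p.1.1 p.1.2 o}ᶜ)
    (measurable_fst hns)
    (((measurable_fst.comp measurable_fst) hns).inter
      (measurableSet_eq_fun hf0 (he0.comp measurable_fst)).compl) (by
      rintro ⟨x, r⟩ ha ⟨⟨x', r'⟩, m⟩ ⟨hb1, hb2⟩ heq
      simp only at heq
      obtain ⟨h4, h5, -⟩ := key x' x r' r o o _ hb1 ha heq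
      apply hb2
      change g m • e x' r' o = e x' r' o
      rw [← heq]
      simp only [e, h4, h5])
  let S : ℕ → Set X := fun k => match k with
    | 0 => A
    | 1 => Aᶜ
    | 2 => Bs
    | n + 3 => Bn n
  have hS : ∀ k, MeasurableSet (S k) := fun k => match k with
    | 0 => hA
    | 1 => hA.compl
    | 2 => hBs1
    | n + 3 => hBn1 n
  obtain ⟨τ', h', hle, hopen⟩ := h.refine S hS
  obtain ⟨D'⟩ := h'.exists_geData
  obtain ⟨μ, hμ, h01, hat⟩ := exists_coin
  let t' : X × (ℕ → Bool) → ℕ → Bool := fun p k =>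
    decide (μ {v | D'.tp (e p.1 p.2 v) k = true} = 1)
  have ht' : Measurable t' := by
    refine measurable_pi_lambda _ fun k => ?_
    apply measurable_to_bool
    have m1 : MeasurableSet {q : (X × (ℕ → Bool)) × (ℕ → Bool) |
        D'.tp (e q.1.1 q.1.2 q.2) k = true} :=
      (D'.measurable_tp.comp (he.comp ((measurable_fst.comp measurable_fst).prodMk
        ((measurable_snd.comp measurable_fst).prodMk measurable_snd)))) (measurableSet_bit k)
    have m2 := measurable_measure_prodMk_left (ν := μ) m1 (measurableSet_singleton 1)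
    convert m2 using 1
    ext p
    simp [t']
  let j : X × (ℕ → Bool) × Bool → X := fun p =>
    if p.2.2 = true then e p.1 p.2.1 o else D'.ge false (t' (p.1, p.2.1)) o
  have hj : Measurable j := by
    have m0 : Measurable (fun p : X × (ℕ → Bool) × Bool => (p.1, p.2.1)) :=
      measurable_fst.prodMk (measurable_fst.comp measurable_snd)
    refine Measurable.ite ((measurable_snd.comp measurable_snd) (measurableSet_singleton true))
      (he0.comp m0) ?_
    exact (D'.measurable_ge false).comp ((ht'.comp m0).prodMk measurable_const)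
  have main : ∀ x r b, ¬ Small Γ τ x →
      ∃ u, Rel Γ τ' (j (x, r, b)) (e x r u) ∧ (Small Γ τ' (e x r u) ↔ b = true) := by
    intro x r b hx
    cases b with
    | true =>
      refine ⟨o, Rel.refl _ _, iff_of_true ⟨Bs, hopen 2, 1, ?_, fun γ hγ => ?_⟩ rfl⟩
      · rw [one_smul]; exact hBs2 (x, r) hx
      · obtain ⟨m, rfl⟩ := hg γ
        rw [one_smul]
        by_contra hne
        exact hBs3 ((x, r), m) ⟨hx, hne⟩ hγ
    | false =>
      have hm : Measurable (fun v => D'.tp (e x r v)) :=
        D'.measurable_tp.comp (he.comp (measurable_const.prodMk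
          (measurable_const.prodMk measurable_id)))
      have hae := ae_eq_majority h01 hm (fun u v huv => by
        obtain ⟨η, hη⟩ := D.smul_of_E0 x hx _ _ (E0_mix r huv)
        rw [D'.tp_eq]
        change Rel Γ τ' (e x r u) (D.ge true (D.tp x) (mix r v))
        rw [hη]
        exact (rel_smul τ' η _).symm)
      have hae' : ∀ᵐ v ∂μ, D'.tp (e x r v) = t' (x, r) := by
        filter_upwards [hae] with v hv
        ext k
        simp only [t']
        rw [Bool.eq_iff_iff, hv k]
        simp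
      obtain ⟨v0, hv0⟩ := hae'.exists
      refine ⟨v0, ?_, iff_of_false (fun hs => ?_) (by simp)⟩
      · change Rel Γ τ' (D'.ge false (t' (x, r)) o) _
        rw [← hv0]
        exact D'.rel_false _ _
      · have h1 : ∀ᵐ v ∂μ, v ∈ {v | E0 v0 v} := by
          filter_upwards [hae'] with v hv
          obtain ⟨δ, hδ⟩ := hs.exists_smul h'.t1 ((D'.tp_eq _ _).1 (hv0.trans hv.symm))
          exact (key x x r r v0 v δ hx hx hδ).2.2
        have : NullSingletonClass μ := ⟨hat⟩
        have h2 : ∀ᵐ v ∂μ, v ∉ {v | E0 v0 v} :=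
          measure_eq_zero_iff_ae_notMem.1 ((countable_E0_class v0).measure_zero μ)
        obtain ⟨v, hv1, hv2⟩ := (h1.and h2).exists
        exact hv2 hv1
  refine ⟨τ', h', hle, hopen 0, hopen 1, j, hj, fun x r b hx => ?_,
    fun x x' r r' b b' hx hx' hr => ?_⟩
  · obtain ⟨u, h1, h2⟩ := main x r b hx
    exact ⟨(h1.mono hle).trans (hrel x hx r u),
      ⟨fun hs => h2.1 (hs.of_rel h'.t1 h1), fun hb => (h2.2 hb).of_rel h'.t1 h1.symm⟩⟩
  · obtain ⟨u, h1, -⟩ := main x r b hx
    obtain ⟨u', h1', -⟩ := main x' r' b' hx'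
    have h2 := h1.symm.trans (hr.trans h1')
    ext n
    rw [Bool.eq_iff_iff, ← hBn2 n x r u hx, ← hBn2 n x' r' u' hx']
    exact h2 _ (hopen (n + 3))

end Pool.Agent.Lib.MP_00fb6a_lc
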