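import Mathlib
import Pool.Agent.Lib.MP_00fb6a_lc.Good

/-!
Coherent sequences of orbit closures along a refining sequence of good topologies are realised
by a point.
-/

set_option autoImplicit false
set_option linter.unusedSectionVars false

namespace Pool.Agent.Lib.MP_00fb6a_lc

open Set Filter Topology TopologicalSpace MeasureTheory

theorem exists_scheme {X : Type} (τ : TopologicalSpace X) (hp : @PolishSpace X τ) :
    ∃ d : X → X → ℝ,
      (∀ z, ∀ ε > 0, ∃ V, IsOpen[τ] V ∧ z ∈ V ∧ ∀ a ∈ V, ∀ b ∈ V, d a b ≤ ε) ∧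
      (∀ z : ℕ → X, (∀ ε > 0, ∃ N, ∀ m ≥ N, ∀ n ≥ N, d (z m) (z n) ≤ ε) →
        ∃ y, Tendsto z atTop (@nhds X τ y)) := by
  let := upgradeIsCompletelyMetrizable X
  refine ⟨dist, fun z ε hε => ⟨Metric.ball z (ε / 2), Metric.isOpen_ball,
    Metric.mem_ball_self (by positivity), fun a ha b hb => ?_⟩, fun z hz => ?_⟩
  · have := dist_triangle_right a b z
    rw [Metric.mem_ball] at ha hb
    linarith
  · apply cauchySeq_tendsto_of_complete
    rw [Metric.cauchySeq_iff]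
    intro ε hε
    obtain ⟨N, hN⟩ := hz (ε / 2) (by positivity)
    exact ⟨N, fun m hm n hn => lt_of_le_of_lt (hN m hm n hn) (by linarith)⟩

theorem exists_closed_between {X : Type} (τ : TopologicalSpace X) (hp : @PolishSpace X τ)
    {V : Set X} (hV : IsOpen[τ] V) {z : X} (hz : z ∈ V) :
    ∃ W C, IsOpen[τ] W ∧ IsClosed[τ] C ∧ z ∈ W ∧ W ⊆ C ∧ C ⊆ V := by
  obtain ⟨C, h1, h2, h3⟩ := exists_mem_nhds_isClosed_subset (hV.mem_nhds hz)
  obtain ⟨W, h4, h5, h6⟩ := mem_nhds_iff.1 h1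
  exact ⟨W, C, h5, h2, h6, h4, h3⟩

variable {Γ : Type} [Group Γ] [Countable Γ] {Y : Type} [MulAction Γ Y] [MeasurableSpace Y]

theorem exists_thread {σ : ℕ → TopologicalSpace Y} (h : ∀ n, Good Γ (σ n)) (ha : Antitone σ)
    (y : ℕ → Y) (hy : ∀ n, Rel Γ (σ n) (y (n + 1)) (y n)) :
    ∃ w, ∀ n, Rel Γ (σ n) w (y n) := by
  have chain : ∀ n k, n ≤ k → Rel Γ (σ n) (y k) (y n) := by
    intro n k hk
    induction k, hk using Nat.le_induction with
    | base => exact Rel.refl _ _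
    | succ k hk ih => exact ((hy k).mono (ha hk)).trans ih
  choose d hd1 hd2 using fun n => exists_scheme (σ n) (h n).polish
  have hB : ∀ n, ∃ B : ℕ → Set Y, (∀ i, IsOpen[σ n] (B i)) ∧
      ∀ x U, IsOpen[σ n] U → x ∈ U → ∃ i, x ∈ B i ∧ B i ⊆ U := by
    intro n
    have := (h n).polish
    exact @exists_basis_seq Y (σ n) _
  choose B hB1 hB2 using hB
  let P : ℕ → Y × Set Y → Prop := fun k p =>
    IsOpen[σ k] p.2 ∧ p.1 ∈ p.2 ∧ ∃ γ : Γ, p.1 = γ • y k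
  let Q : ℕ → Y × Set Y → Y × Set Y → Prop := fun k p q =>
    (∃ C, IsClosed[σ k] C ∧ q.2 ⊆ C ∧ C ⊆ p.2) ∧
    (∀ m ≤ k, ∀ a ∈ q.2, ∀ b ∈ q.2, d m a b ≤ 1 / ((k : ℝ) + 1)) ∧
    (Meets Γ (y k.unpair.1) (B k.unpair.1 k.unpair.2) →
      ∃ δ : Γ, ∀ a ∈ q.2, δ • a ∈ B k.unpair.1 k.unpair.2)
  have step : ∀ k (a : {p // P k p}), ∃ b : {p // P (k + 1) p}, Q k a.1 b.1 := by
    rintro k ⟨⟨z, V⟩, hV, hz, γ, hγ⟩
    simp only at hV hz hγ
    obtain ⟨γ', hγ'⟩ := (hy k V hV).2 ⟨γ, hγ ▸ hz⟩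
    set z' := γ' • y (k + 1) with hz'
    obtain ⟨W, C, hW, hC, hzW, hWC, hCV⟩ := exists_closed_between (σ k) (h k).polish hV hγ'
    have hsm : ∀ m, ∃ V, IsOpen[σ m] V ∧ z' ∈ V ∧
        ∀ a ∈ V, ∀ b ∈ V, d m a b ≤ 1 / ((k : ℝ) + 1) :=
      fun m => hd1 m z' _ (by positivity)
    choose S hS1 hS2 hS3 using hsm
    have hk : k.unpair.1 ≤ k + 1 := (Nat.unpair_left_le k).trans (Nat.le_succ k)
    have hgen : ∃ G, IsOpen[σ (k + 1)] G ∧ z' ∈ G ∧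
        (Meets Γ (y k.unpair.1) (B k.unpair.1 k.unpair.2) →
          ∃ δ : Γ, ∀ a ∈ G, δ • a ∈ B k.unpair.1 k.unpair.2) := by
      by_cases hm : Meets Γ (y k.unpair.1) (B k.unpair.1 k.unpair.2)
      · have h1 := (chain _ _ hk _ (hB1 _ _)).2 hm
        rw [← meets_smul γ'] at h1
        obtain ⟨δ, hδ⟩ := h1
        refine ⟨(fun a => δ • a) ⁻¹' B k.unpair.1 k.unpair.2, ?_, hδ, fun _ => ⟨δ, fun a ha => ha⟩⟩
        exact @Continuous.isOpen_preimage Y Y (σ (k + 1)) (σ (k + 1)) _ ((h (k + 1)).cont δ) _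
          (ha hk _ (hB1 _ _))
      · exact ⟨univ, @isOpen_univ Y (σ (k + 1)), mem_univ _, fun h' => absurd h' hm⟩
    obtain ⟨G, hG1, hG2, hG3⟩ := hgen
    have hopen : IsOpen[σ (k + 1)] (W ∩ (⋂ m ∈ Finset.range (k + 1), S m) ∩ G) := by
      let := σ (k + 1)
      refine IsOpen.inter (IsOpen.inter (ha (Nat.le_succ k) _ hW) ?_) hG1
      refine isOpen_biInter_finset fun m hm => ?_
      exact ha (Finset.mem_range.1 hm).le _ (hS1 m)
    refine ⟨⟨(z', W ∩ (⋂ m ∈ Finset.range (k + 1), S m) ∩ G), hopen,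
      ⟨⟨hzW, mem_iInter₂.2 fun m _ => hS2 m⟩, hG2⟩, γ', rfl⟩, ⟨C, hC, ?_, hCV⟩, ?_, ?_⟩
    · exact fun a ha => hWC ha.1.1
    · intro m hm a ha b hb
      have hm' : m ∈ Finset.range (k + 1) := Finset.mem_range.2 (Nat.lt_succ_of_le hm)
      exact hS3 m a (mem_iInter₂.1 ha.1.2 m hm') b (mem_iInter₂.1 hb.1.2 m hm')
    · intro hm
      obtain ⟨δ, hδ⟩ := hG3 hm
      exact ⟨δ, fun a ha => hδ a ha.2⟩
  choose f hf using step
  let s : (k : ℕ) → {p // P k p} := fun k => Nat.rec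
    ⟨(y 0, univ), @isOpen_univ Y (σ 0), mem_univ _, 1, (one_smul _ _).symm⟩ (fun k a => f k a) k
  have hQ : ∀ k, Q k (s k).1 (s (k + 1)).1 := fun k => hf k (s k)
  let z : ℕ → Y := fun k => (s k).1.1
  let V : ℕ → Set Y := fun k => (s k).1.2
  have hVanti : Antitone V := antitone_nat_of_succ_le fun k => by
    obtain ⟨C, -, h1, h2⟩ := (hQ k).1
    exact h1.trans h2
  have hzV : ∀ k j, k ≤ j → z j ∈ V k := fun k j hj => hVanti hj (s j).2.2.1
  have hconv : ∀ m, ∃ w, Tendsto z atTop (@nhds Y (σ m) w) := by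
    intro m
    apply hd2 m
    intro ε hε
    obtain ⟨K, hK⟩ := exists_nat_one_div_lt hε
    refine ⟨max K m + 1, fun i hi j hj => ?_⟩
    have h1 := (hQ (max K m)).2.1 m (le_max_right _ _) _ (hzV _ _ hi) _ (hzV _ _ hj)
    refine h1.trans (le_trans ?_ hK.le)
    apply one_div_le_one_div_of_le (by positivity)
    have : (K : ℝ) ≤ ((max K m : ℕ) : ℝ) := by exact_mod_cast le_max_left K m
    linarith
  choose w hw using hconv
  have hww : ∀ m, w m = w 0 := by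
    intro m
    have h1 : Tendsto z atTop (@nhds Y (σ 0) (w m)) :=
      (hw m).mono_right (nhds_mono (ha (Nat.zero_le m)))
    exact @tendsto_nhds_unique Y ℕ (σ 0) (h 0).t2 z atTop _ _ _ h1 (hw 0)
  have hw' : ∀ m, Tendsto z atTop (@nhds Y (σ m) (w 0)) := fun m => hww m ▸ hw m
  have hwV : ∀ k, w 0 ∈ V k := by
    intro k
    obtain ⟨C, hC, h1, h2⟩ := (hQ k).1
    apply h2
    let := σ k
    refine hC.mem_of_tendsto (hw' k) ?_
    filter_upwards [eventually_ge_atTop (k + 1)] with j hj using h1 (hzV _ _ hj)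
  refine ⟨w 0, fun n U hU => ⟨?_, ?_⟩⟩
  · rintro ⟨γ, hγ⟩
    have hO : IsOpen[σ n] ((fun a => γ • a) ⁻¹' U) :=
      @Continuous.isOpen_preimage Y Y (σ n) (σ n) _ ((h n).cont γ) _ hU
    have h1 : ∀ᶠ j in atTop, z j ∈ (fun a => γ • a) ⁻¹' U :=
      hw' n (@IsOpen.mem_nhds Y (σ n) _ _ hO hγ)
    obtain ⟨j, hj1, hj2⟩ := (h1.and (eventually_ge_atTop n)).exists
    obtain ⟨γ', hγ'⟩ := (s j).2.2.2
    apply (chain n j hj2 U hU).1
    refine ⟨γ * γ', ?_⟩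
    rw [mul_smul, ← hγ']
    exact hj1
  · rintro ⟨γ, hγ⟩
    obtain ⟨i, h1, h2⟩ := hB2 n _ U hU hγ
    have h3 := (hQ (Nat.pair n i)).2.2
    simp only [Nat.unpair_pair] at h3
    obtain ⟨δ, hδ⟩ := h3 ⟨γ, h1⟩
    exact ⟨δ, h2 (hδ _ (hwV (Nat.pair n i + 1)))⟩

end Pool.Agent.Lib.MP_00fb6a_lc
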