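import Mathlib
import Pool.Agent.Lib.MP_00fb6a_lc.Split
import Pool.Agent.Lib.MP_00fb6a_lc.Thread

/-!
Conditions: Borel matchings of the orbit closure spaces of two Borel actions.  They exist for
non-smooth actions, can be extended to decide any Borel set, and countable chains have lower
bounds.
-/

set_option autoImplicit false
set_option linter.unusedSectionVars false

namespace Pool.Agent.Lib.MP_00fb6a_lc

open Set Filter Topology TopologicalSpace MeasureTheory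

/-- A Borel matching between the orbit closures of two good topologies. -/
structure Cond (Γ Λ X Y : Type) [Group Γ] [Group Λ] [MulAction Γ X] [MulAction Λ Y]
    [MeasurableSpace X] [MeasurableSpace Y] where
  τ : TopologicalSpace X
  σ : TopologicalSpace Y
  R : Set (X × Y)
  hτ : Good Γ τ
  hσ : Good Λ σ
  meas : MeasurableSet R
  left_total : ∀ x, ∃ y, (x, y) ∈ R
  right_total : ∀ y, ∃ x, (x, y) ∈ R
  iff : ∀ x y x' y', (x, y) ∈ R → (x', y') ∈ R → (Rel Γ τ x x' ↔ Rel Λ σ y y')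
  sat : ∀ x y x' y', (x, y) ∈ R → Rel Γ τ x x' → Rel Λ σ y y' → (x', y') ∈ R
  small : ∀ x y, (x, y) ∈ R → (Small Γ τ x ↔ Small Λ σ y)

variable {Γ Λ X Y : Type} [Group Γ] [Group Λ] [MulAction Γ X] [MulAction Λ Y]
  [MeasurableSpace X] [MeasurableSpace Y]

/-- Extension of conditions. -/
def Cond.Le (c' c : Cond Γ Λ X Y) : Prop := c'.τ ≤ c.τ ∧ c'.σ ≤ c.σ ∧ c'.R ⊆ c.R

theorem Cond.Le.refl (c : Cond Γ Λ X Y) : c.Le c := ⟨le_rfl, le_rfl, subset_rfl⟩

theorem Cond.Le.trans {a b c : Cond Γ Λ X Y} (h : a.Le b) (h' : b.Le c) : a.Le c :=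
  ⟨h.1.trans h'.1, h.2.1.trans h'.2.1, h.2.2.trans h'.2.2⟩

/-- Exchanging the two sides of a condition. -/
def Cond.swap (c : Cond Γ Λ X Y) : Cond Λ Γ Y X where
  τ := c.σ
  σ := c.τ
  R := Prod.swap ⁻¹' c.R
  hτ := c.hσ
  hσ := c.hτ
  meas := measurable_swap c.meas
  left_total := c.right_total
  right_total := c.left_total
  iff := fun y x y' x' h h' => (c.iff x y x' y' h h').symm
  sat := fun y x y' x' h h1 h2 => c.sat x y x' y' h h2 h1
  small := fun y x h => (c.small x y h).symm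

variable [Countable Γ] [Countable Λ] [StandardBorelSpace X] [StandardBorelSpace Y]
  [Nonempty X] [Nonempty Y]

theorem build {τ : TopologicalSpace X} {σ : TopologicalSpace Y} (hτ : Good Γ τ) (hσ : Good Λ σ)
    (R₀ : Set (X × Y))
    (hsat : ∀ x y x' y', (x, y) ∈ R₀ → Rel Γ τ x x' → Rel Λ σ y y' → (x', y') ∈ R₀)
    {F : X → Y} {G : Y → X} (hF : Measurable F) (hG : Measurable G)
    (hF1 : ∀ x, (x, F x) ∈ R₀ ∧ (Small Γ τ x ↔ Small Λ σ (F x)))
    (hG1 : ∀ y, (G y, y) ∈ R₀ ∧ (Small Λ σ y ↔ Small Γ τ (G y)))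
    (hF2 : ∀ x x', Rel Λ σ (F x) (F x') → Rel Γ τ x x')
    (hG2 : ∀ y y', Rel Γ τ (G y) (G y') → Rel Λ σ y y') :
    ∃ c : Cond Γ Λ X Y, c.τ = τ ∧ c.σ = σ ∧ c.R ⊆ R₀ := by
  obtain ⟨s, hs, hs1, hs2⟩ := hτ.exists_selector
  obtain ⟨t, ht, ht1, ht2⟩ := hσ.exists_selector
  have hs3 : ∀ x x', s x = s x' → Rel Γ τ x x' := fun x x' h =>
    (hs1 x).symm.trans (h ▸ hs1 x')
  have ht3 : ∀ y y', t y = t y' → Rel Λ σ y y' := fun y y' h =>
    (ht1 y).symm.trans (h ▸ ht1 y')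
  obtain ⟨H, hH, hH1, hH2, hH3, hH4⟩ := exists_sb (P := {x | s x = x}) (Q := {y | t y = y})
    (measurableSet_eq_fun hs measurable_id) (measurableSet_eq_fun ht measurable_id)
    (ht.comp hF) (hs.comp hG)
    (fun x hx x' hx' h => by
      have := hs2 _ _ (hF2 x x' (ht3 _ _ h))
      exact hx.symm.trans (this.trans hx'))
    (fun y hy y' hy' h => by
      have := ht2 _ _ (hG2 y y' (hs3 _ _ h))
      exact hy.symm.trans (this.trans hy'))
    (fun x _ => ht2 _ _ (ht1 _)) (fun y _ => hs2 _ _ (hs1 _))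
  have hsm : ∀ x x', Rel Γ τ x x' → (Small Γ τ x ↔ Small Γ τ x') := fun x x' h =>
    ⟨fun h' => h'.of_rel hτ.t1 h, fun h' => h'.of_rel hτ.t1 h.symm⟩
  have hsm' : ∀ y y', Rel Λ σ y y' → (Small Λ σ y ↔ Small Λ σ y') := fun y y' h =>
    ⟨fun h' => h'.of_rel hσ.t1 h, fun h' => h'.of_rel hσ.t1 h.symm⟩
  have main : ∀ x y, (s x, t y) ∈ H → (x, y) ∈ R₀ ∧ (Small Γ τ x ↔ Small Λ σ y) := by
    intro x y h
    rcases (hH1 _ h).2.2 with h1 | h1
    · have h2 : Rel Λ σ (F (s x)) y := (ht3 _ _ h1).symm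
      exact ⟨hsat _ _ _ _ (hF1 (s x)).1 (hs1 x) h2,
        (hsm _ _ (hs1 x)).symm.trans ((hF1 (s x)).2.trans (hsm' _ _ h2))⟩
    · have h2 : Rel Γ τ (G (t y)) x := (hs3 _ _ h1).symm
      exact ⟨hsat _ _ _ _ (hG1 (t y)).1 h2 (ht1 y),
        (hsm _ _ h2).symm.trans ((hG1 (t y)).2.symm.trans (hsm' _ _ (ht1 y)))⟩
  refine ⟨⟨τ, σ, {p | (s p.1, t p.2) ∈ H}, hτ, hσ,
    ((hs.comp measurable_fst).prodMk (ht.comp measurable_snd)) hH, fun x => ?_, fun y => ?_,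
    fun x y x' y' h h' => ?_, fun x y x' y' h h1 h2 => ?_, fun x y h => (main x y h).2⟩,
    rfl, rfl, fun p hp => (main p.1 p.2 hp).1⟩
  · obtain ⟨y, hy⟩ := hH2 (s x) (hs2 _ _ (hs1 x))
    refine ⟨y, ?_⟩
    have h1 : t y = y := (hH1 _ hy).2.1
    change (s x, t y) ∈ H
    rwa [h1]
  · obtain ⟨x, hx⟩ := hH3 (t y) (ht2 _ _ (ht1 y))
    refine ⟨x, ?_⟩
    have h1 : s x = x := (hH1 _ hx).1
    change (s x, t y) ∈ H
    rwa [h1]
  · have h1 := hH4 _ h _ h'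
    exact ⟨fun h2 => ht3 _ _ (h1.1 (hs2 _ _ h2)), fun h2 => hs3 _ _ (h1.2 (ht2 _ _ h2))⟩
  · change (s x', t y') ∈ H
    rw [← hs2 _ _ h1, ← ht2 _ _ h2]
    exact h

theorem Cond.exists_lift (c : Cond Γ Λ X Y) : ∃ f : X → Y, Measurable f ∧ ∀ x, (x, f x) ∈ c.R := by
  obtain ⟨t, ht, ht1, ht2⟩ := c.hσ.exists_selector
  choose f hf using c.left_total
  refine ⟨fun x => t (f x), fun D hD => ?_, fun x =>
    c.sat _ _ _ _ (hf x) (Rel.refl _ _) (ht1 _).symm⟩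
  have hwd : ∀ x y y', (x, y) ∈ c.R → (x, y') ∈ c.R → t y = t y' := fun x y y' h h' =>
    ht2 _ _ ((c.iff _ _ _ _ h h').1 (Rel.refl _ _))
  have := measurableSet_proj c.meas c.left_total (ht hD)
    (fun x y y' h h' hy => by rw [mem_preimage, ← hwd x y y' h h']; exact hy)
  convert this using 1
  ext x
  constructor
  · exact fun hx => ⟨f x, hf x, hx⟩
  · rintro ⟨y, hy, hyD⟩
    change t (f x) ∈ D
    rw [hwd x _ _ (hf x) hy]
    exact hyD

theorem measurable_decide {Z : Type} [MeasurableSpace Z] {p : Z → Prop} [DecidablePred p]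
    (hp : MeasurableSet {z | p z}) : Measurable (fun z => decide (p z)) := by
  apply measurable_to_bool
  convert hp using 1
  ext z
  simp

theorem Cond.exists_map (c : Cond Γ Λ X Y) {τ' : TopologicalSpace X} {σ' : TopologicalSpace Y}
    (hτ' : Good Γ τ') (h1 : τ' ≤ c.τ) (h2 : σ' ≤ c.σ)
    {j : Y × (ℕ → Bool) × Bool → Y} (hj : Measurable j)
    (hj1 : ∀ y r b, ¬ Small Λ c.σ y →
      Rel Λ c.σ (j (y, r, b)) y ∧ (Small Λ σ' (j (y, r, b)) ↔ b = true))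
    (hj2 : ∀ y y' r r' b b', ¬ Small Λ c.σ y → ¬ Small Λ c.σ y' →
      Rel Λ σ' (j (y, r, b)) (j (y', r', b')) → r = r') :
    ∃ F : X → Y, Measurable F ∧ (∀ x, (x, F x) ∈ c.R ∧ (Small Γ τ' x ↔ Small Λ σ' (F x))) ∧
      ∀ x x', Rel Λ σ' (F x) (F x') → Rel Γ τ' x x' := by
  classical
  obtain ⟨f, hf, hf1⟩ := c.exists_lift
  obtain ⟨code, hc, hci⟩ := MeasurableSpace.measurable_injection_nat_bool_of_countablySeparated X
  let F : X → Y := fun x =>
    if Small Γ c.τ x then f x else j (f x, code x, decide (Small Γ τ' x))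
  have hF1 : ∀ x, (x, F x) ∈ c.R ∧ (Small Γ τ' x ↔ Small Λ σ' (F x)) := by
    intro x
    by_cases hx : Small Γ c.τ x
    · simp only [F, if_pos hx]
      exact ⟨hf1 x, iff_of_true (hx.mono h1) (((c.small _ _ (hf1 x)).1 hx).mono h2)⟩
    · simp only [F, if_neg hx]
      obtain ⟨h3, h4⟩ := hj1 (f x) (code x) (decide (Small Γ τ' x))
        (fun h => hx ((c.small _ _ (hf1 x)).2 h))
      exact ⟨c.sat _ _ _ _ (hf1 x) (Rel.refl _ _) h3.symm, by rw [h4]; simp⟩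
  refine ⟨F, Measurable.ite c.hτ.measurableSet_small hf
    (hj.comp (hf.prodMk (hc.prodMk (measurable_decide hτ'.measurableSet_small)))), hF1,
    fun x x' h => ?_⟩
  have h3 : Rel Γ c.τ x x' := (c.iff _ _ _ _ (hF1 x).1 (hF1 x').1).2 (h.mono h2)
  by_cases hx : Small Γ c.τ x
  · obtain ⟨δ, rfl⟩ := hx.exists_smul c.hτ.t1 h3
    exact (rel_smul τ' δ x).symm
  · have hx' : ¬ Small Γ c.τ x' := fun h' => hx (h'.of_rel c.hτ.t1 h3.symm)
    simp only [F, if_neg hx, if_neg hx'] at h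
    have h4 := hj2 _ _ _ _ _ _ (fun h => hx ((c.small _ _ (hf1 x)).2 h))
      (fun h => hx' ((c.small _ _ (hf1 x')).2 h)) h
    rw [hci h4]
    exact Rel.refl _ _

/-- Every condition has an extension making given Borel sets clopen. -/
theorem Cond.exists_extension (c : Cond Γ Λ X Y) {A : Set X} {B : Set Y} (hA : MeasurableSet A)
    (hB : MeasurableSet B) : ∃ c' : Cond Γ Λ X Y, c'.Le c ∧ IsOpen[c'.τ] A ∧ IsOpen[c'.τ] Aᶜ ∧
      IsOpen[c'.σ] B ∧ IsOpen[c'.σ] Bᶜ := by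
  obtain ⟨τ', hτ', h1, hA1, hA2, i, hi, hi1, hi2⟩ := c.hτ.exists_split A hA
  obtain ⟨σ', hσ', h2, hB1, hB2, j, hj, hj1, hj2⟩ := c.hσ.exists_split B hB
  obtain ⟨F, hF, hF1, hF2⟩ := c.exists_map hτ' h1 h2 hj hj1 hj2
  obtain ⟨G, hG, hG1, hG2⟩ := c.swap.exists_map hσ' h2 h1 hi hi1 hi2
  obtain ⟨c', e1, e2, h3⟩ := build hτ' hσ' c.R
    (fun x y x' y' h h' h'' => c.sat _ _ _ _ h (h'.mono h1) (h''.mono h2)) hF hG hF1 hG1 hF2 hG2
  refine ⟨c', ⟨e1 ▸ h1, e2 ▸ h2, h3⟩, ?_, ?_, ?_, ?_⟩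
  · rw [e1]; exact hA1
  · rw [e1]; exact hA2
  · rw [e2]; exact hB1
  · rw [e2]; exact hB2

theorem exists_initial_map {τ' : TopologicalSpace X} {σ σ' : TopologicalSpace Y}
    (hτ' : Good Γ τ') {y₀ : Y} (hy₀ : ¬ Small Λ σ y₀)
    {j : Y × (ℕ → Bool) × Bool → Y} (hj : Measurable j)
    (hj1 : ∀ y r b, ¬ Small Λ σ y →
      Rel Λ σ (j (y, r, b)) y ∧ (Small Λ σ' (j (y, r, b)) ↔ b = true))
    (hj2 : ∀ y y' r r' b b', ¬ Small Λ σ y → ¬ Small Λ σ y' →
      Rel Λ σ' (j (y, r, b)) (j (y', r', b')) → r = r') :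
    ∃ F : X → Y, Measurable F ∧ (∀ x, (Small Γ τ' x ↔ Small Λ σ' (F x))) ∧
      ∀ x x', Rel Λ σ' (F x) (F x') → Rel Γ τ' x x' := by
  classical
  obtain ⟨code, hc, hci⟩ := MeasurableSpace.measurable_injection_nat_bool_of_countablySeparated X
  refine ⟨fun x => j (y₀, code x, decide (Small Γ τ' x)),
    hj.comp (measurable_const.prodMk (hc.prodMk (measurable_decide hτ'.measurableSet_small))),
    fun x => ?_, fun x x' h => ?_⟩
  · rw [(hj1 _ _ _ hy₀).2]; simp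
  · rw [hci (hj2 _ _ _ _ _ _ hy₀ hy₀ h)]
    exact Rel.refl _ _

/-- A condition exists as soon as both sides have a perfect orbit closure. -/
theorem exists_cond {τ : TopologicalSpace X} {σ : TopologicalSpace Y} (hτ : Good Γ τ)
    (hσ : Good Λ σ) {x₀ : X} {y₀ : Y} (hx₀ : ¬ Small Γ τ x₀) (hy₀ : ¬ Small Λ σ y₀) :
    Nonempty (Cond Γ Λ X Y) := by
  obtain ⟨τ', hτ', -, -, -, i, hi, hi1, hi2⟩ := hτ.exists_split univ MeasurableSet.univ
  obtain ⟨σ', hσ', -, -, -, j, hj, hj1, hj2⟩ := hσ.exists_split univ MeasurableSet.univ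
  obtain ⟨F, hF, hF1, hF2⟩ := exists_initial_map hτ' hy₀ hj hj1 hj2
  obtain ⟨G, hG, hG1, hG2⟩ := exists_initial_map hσ' hx₀ hi hi1 hi2
  obtain ⟨c, -⟩ := build hτ' hσ' univ (fun _ _ _ _ _ _ _ => mem_univ _) hF hG
    (fun x => ⟨mem_univ _, hF1 x⟩) (fun y => ⟨mem_univ _, hG1 y⟩) hF2 hG2
  exact ⟨c⟩

/-- Decreasing sequences of conditions have lower bounds. -/
theorem exists_lower_seq (c : ℕ → Cond Γ Λ X Y) (hc : ∀ n, (c (n + 1)).Le (c n)) :
    ∃ c' : Cond Γ Λ X Y, ∀ n, c'.Le (c n) := by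
  have a1 : Antitone (fun n => (c n).τ) := antitone_nat_of_succ_le fun n => (hc n).1
  have a2 : Antitone (fun n => (c n).σ) := antitone_nat_of_succ_le fun n => (hc n).2.1
  refine ⟨⟨⨅ n, (c n).τ, ⨅ n, (c n).σ, ⋂ n, (c n).R, Good.iInf (fun n => (c n).hτ) a1,
    Good.iInf (fun n => (c n).hσ) a2, MeasurableSet.iInter fun n => (c n).meas, fun x => ?_,
    fun y => ?_, fun x y x' y' h h' => ?_, fun x y x' y' h h1 h2 => ?_, fun x y h => ?_⟩,
    fun n => ⟨iInf_le (fun n => (c n).τ) n, iInf_le (fun n => (c n).σ) n,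
      iInter_subset (fun n => (c n).R) n⟩⟩
  · choose y hy using fun n => (c n).left_total x
    obtain ⟨w, hw⟩ := exists_thread (fun n => (c n).hσ) a2 y fun n =>
      ((c n).iff _ _ _ _ ((hc n).2.2 (hy (n + 1))) (hy n)).1 (Rel.refl _ _)
    exact ⟨w, mem_iInter.2 fun n => (c n).sat _ _ _ _ (hy n) (Rel.refl _ _) (hw n).symm⟩
  · choose x hx using fun n => (c n).right_total y
    obtain ⟨w, hw⟩ := exists_thread (fun n => (c n).hτ) a1 x fun n =>
      ((c n).iff _ _ _ _ ((hc n).2.2 (hx (n + 1))) (hx n)).2 (Rel.refl _ _)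
    exact ⟨w, mem_iInter.2 fun n => (c n).sat _ _ _ _ (hx n) (hw n).symm (Rel.refl _ _)⟩
  · rw [rel_iInf a1, rel_iInf a2]
    exact forall_congr' fun n => (c n).iff _ _ _ _ (mem_iInter.1 h n) (mem_iInter.1 h' n)
  · rw [rel_iInf a1] at h1
    rw [rel_iInf a2] at h2
    exact mem_iInter.2 fun n => (c n).sat _ _ _ _ (mem_iInter.1 h n) (h1 n) (h2 n)
  · rw [small_iInf a1, small_iInf a2]
    exact exists_congr fun n => (c n).small _ _ (mem_iInter.1 h n)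

/-- Countable chains of conditions have lower bounds. -/
theorem exists_lower [Nonempty (Cond Γ Λ X Y)] {J : Type} [Countable J] (c : J → Cond Γ Λ X Y)
    (hc : ∀ i j, (c i).Le (c j) ∨ (c j).Le (c i)) : ∃ c' : Cond Γ Λ X Y, ∀ j, c'.Le (c j) := by
  classical
  rcases isEmpty_or_nonempty J with hJ | hJ
  · exact ⟨Classical.arbitrary _, fun j => isEmptyElim j⟩
  obtain ⟨e, he⟩ := exists_surjective_nat J
  let q : ℕ → J := fun n => Nat.rec (e 0)
    (fun n i => if (c i).Le (c (e (n + 1))) then i else e (n + 1)) n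
  have hq : ∀ n, q (n + 1) = if (c (q n)).Le (c (e (n + 1))) then q n else e (n + 1) :=
    fun n => rfl
  have h1 : ∀ n, (c (q (n + 1))).Le (c (q n)) := by
    intro n
    rw [hq]
    split_ifs with h
    · exact Cond.Le.refl _
    · exact (hc _ _).resolve_left h
  have h2 : ∀ n, (c (q n)).Le (c (e n)) := by
    intro n
    cases n with
    | zero => exact Cond.Le.refl _
    | succ n =>
      rw [hq]
      split_ifs with h
      · exact h
      · exact Cond.Le.refl _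
  obtain ⟨c', hc'⟩ := exists_lower_seq (fun n => c (q n)) h1
  refine ⟨c', fun j => ?_⟩
  obtain ⟨n, rfl⟩ := he j
  exact (hc' n).trans (h2 n)

/-- A clopen invariant set has a Borel invariant counterpart. -/
theorem Cond.exists_partner (c : Cond Γ Λ X Y) {A : Set X} (hA : IsOpen[c.τ] A)
    (hinv : ∀ (γ : Γ) z, γ • z ∈ A ↔ z ∈ A) :
    ∃ B : Set Y, MeasurableSet B ∧ (∀ (γ : Λ) z, γ • z ∈ B ↔ z ∈ B) ∧
      ∀ x y, (x, y) ∈ c.R → (x ∈ A ↔ y ∈ B) := by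
  obtain ⟨G, hG, hG1⟩ := c.swap.exists_lift
  have key : ∀ x y, (x, y) ∈ c.R → (x ∈ A ↔ y ∈ G ⁻¹' A) := fun x y h =>
    ((c.iff _ _ _ _ h (hG1 y)).2 (Rel.refl _ _)).mem_iff hA hinv
  refine ⟨G ⁻¹' A, hG (c.hτ.measurableSet_open hA), fun γ z => ?_, key⟩
  obtain ⟨x, hx⟩ := c.right_total z
  rw [← key x z hx, ← key x (γ • z) (c.sat _ _ _ _ hx (Rel.refl _ _) (rel_smul _ γ z).symm)]

end Pool.Agent.Lib.MP_00fb6a_lc
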