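import Mathlib
import Pool.Agent.Lib.MP_00fb6a_lc.Tools

/-!
The Lusin-Novikov theorem and the Feldman-Moore theorem.
-/

set_option autoImplicit false
set_option linter.unusedSectionVars false

namespace Pool.Agent.Lib.MP_00fb6a_lc

open Set Filter Topology TopologicalSpace MeasureTheory

/-- An analytic set on which `f` is injective lies in a Borel set on which `f` is injective. -/
theorem exists_injOn_superset {W Z X : Type} [MeasurableSpace W] [StandardBorelSpace W]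
    [MeasurableSpace Z] [StandardBorelSpace Z] [MeasurableSpace X] [StandardBorelSpace X]
    {f : Z → X} (hf : Measurable f) {g : W → Z} (hg : Measurable g) {S : Set W}
    (hS : MeasurableSet S) (hinj : ∀ a ∈ S, ∀ b ∈ S, f (g a) = f (g b) → g a = g b) :
    ∃ C, MeasurableSet C ∧ (∀ a ∈ S, g a ∈ C) ∧ InjOn f C := by
  obtain ⟨C0, h1, h2, h3⟩ := exists_sep hg (measurable_fst : Measurable (Prod.fst : Z × W → Z)) hS
    (S₂ := {p | p.2 ∈ S} ∩ ({p | g p.2 = p.1}ᶜ ∩ {p | f p.1 = f (g p.2)}))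
    ((measurable_snd hS).inter
      ((measurableSet_eq_fun (hg.comp measurable_snd) measurable_fst).compl.inter
        (measurableSet_eq_fun (hf.comp measurable_fst) (hf.comp (hg.comp measurable_snd)))))
    (by
      rintro a ha ⟨z, b⟩ ⟨hb1, hb2, hb3⟩ e
      simp only at e
      subst e
      exact hb2 (hinj a ha b hb1 hb3).symm)
  obtain ⟨C1, k1, k2, k3⟩ := exists_sep hg (measurable_fst : Measurable (Prod.fst : Z × Z → Z)) hS
    (S₂ := ({p | p.1 ∈ C0} ∩ {p | p.2 ∈ C0}) ∩ ({p | p.1 = p.2}ᶜ ∩ {p | f p.1 = f p.2}))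
    (((measurable_fst h1).inter (measurable_snd h1)).inter
      ((measurableSet_eq_fun measurable_fst measurable_snd).compl.inter
        (measurableSet_eq_fun (hf.comp measurable_fst) (hf.comp measurable_snd))))
    (by
      rintro a ha ⟨z, z'⟩ ⟨⟨-, hb1⟩, hb2, hb3⟩ e
      simp only at e
      subst e
      exact h3 (z', a) ⟨ha, hb2, Eq.symm hb3⟩ hb1)
  refine ⟨C0 ∩ C1, h1.inter k1, fun a ha => ⟨h2 a ha, k2 a ha⟩, fun z hz z' hz' e => ?_⟩
  by_contra hne
  exact k3 (z, z') ⟨⟨hz.1, hz'.1⟩, hne, e⟩ hz.2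

theorem lusin_novikov_aux {Z X : Type} [MetricSpace Z] [CompleteSpace Z]
    [SecondCountableTopology Z] [MeasurableSpace Z] [BorelSpace Z]
    [TopologicalSpace X] [PolishSpace X] [MeasurableSpace X] [BorelSpace X]
    {f : Z → X} (hf : Continuous f) (hc : ∀ x, (f ⁻¹' {x}).Countable) :
    ∃ S : ℕ → Set Z, (∀ n, MeasurableSet (S n) ∧ InjOn f (S n)) ∧ ∀ z, ∃ n, z ∈ S n := by
  classical
  by_contra hcon
  obtain ⟨B, hB, hB'⟩ := exists_basis_seq Z
  let Null : Set Z → Prop := fun N => MeasurableSet N ∧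
    ∃ S : ℕ → Set Z, (∀ n, MeasurableSet (S n) ∧ InjOn f (S n)) ∧ ∀ z ∈ N, ∃ n, z ∈ S n
  have hU : ∀ {ι : Type} [Countable ι] (N : ι → Set Z), (∀ i, Null (N i)) → Null (⋃ i, N i) := by
    intro ι _ N hN
    refine ⟨MeasurableSet.iUnion fun i => (hN i).1, ?_⟩
    choose S hS1 hS2 using fun i => (hN i).2
    rcases isEmpty_or_nonempty ι with hι | hι
    · exact ⟨fun _ => ∅, fun _ => ⟨MeasurableSet.empty, injOn_empty f⟩, by simp⟩
    obtain ⟨e, he⟩ := exists_surjective_nat (ι × ℕ)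
    refine ⟨fun n => S (e n).1 (e n).2, fun n => hS1 _ _, fun z hz => ?_⟩
    obtain ⟨i, hi⟩ := mem_iUnion.1 hz
    obtain ⟨k, hk⟩ := hS2 i z hi
    obtain ⟨n, hn⟩ := he (i, k)
    exact ⟨n, by simpa [hn] using hk⟩
  let Real : Finset ℕ → Set Z → Prop := fun s N => ∃ x, ∀ k ∈ s, ∃ z ∈ B k, z ∉ N ∧ f z = x
  have hch : ∀ s : Finset ℕ, ∃ N, Null N ∧ (Real s N → ∀ N', Null N' → Real s N') := by
    intro s
    by_cases h : ∀ N', Null N' → Real s N'
    · exact ⟨∅, ⟨MeasurableSet.empty, fun _ => ∅,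
        fun _ => ⟨MeasurableSet.empty, injOn_empty f⟩, by simp⟩, fun _ => h⟩
    · push Not at h
      obtain ⟨N, h1, h2⟩ := h
      exact ⟨N, h1, fun h3 => absurd h3 h2⟩
  choose N hN1 hN2 using hch
  set N₀ : Set Z := ⋃ s, N s with hN₀
  have hN₀null : Null N₀ := hU N hN1
  have hgood : ∀ s, Real s N₀ → ∀ N', Null N' → Real s N' := by
    intro s ⟨x, hx⟩
    refine hN2 s ⟨x, fun k hk => ?_⟩
    obtain ⟨z, h1, h2, h3⟩ := hx k hk
    exact ⟨z, h1, fun h => h2 (mem_iUnion.2 ⟨s, h⟩), h3⟩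
  have hsplit : ∀ s, Real s N₀ → ∀ k ∈ s, ∃ z ∈ B k, ∃ z' ∈ B k, z ∉ N₀ ∧ z' ∉ N₀ ∧ z ≠ z' ∧
      f z' = f z ∧ ∀ k' ∈ s, ∃ w ∈ B k', w ∉ N₀ ∧ f w = f z := by
    intro s hs k hk
    by_contra hno
    let T : Set (Z × (ℕ → Z)) := ({p | p.1 ∈ B k} ∩ {p | p.1 ∈ N₀}ᶜ) ∩
      ⋂ k' ∈ s, (({p | p.2 k' ∈ B k'} ∩ {p | p.2 k' ∈ N₀}ᶜ) ∩ {p | f (p.2 k') = f p.1})
    have hT : MeasurableSet T := by
      refine ((measurable_fst (hB k).measurableSet).inter
        (measurable_fst hN₀null.1).compl).inter (Finset.measurableSet_biInter _ fun k' _ => ?_)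
      have m1 : Measurable (fun p : Z × (ℕ → Z) => p.2 k') :=
        (measurable_pi_apply k').comp measurable_snd
      exact ((m1 (hB k').measurableSet).inter (m1 hN₀null.1).compl).inter
        (measurableSet_eq_fun (hf.measurable.comp m1) (hf.measurable.comp measurable_fst))
    obtain ⟨C, hC1, hC2, hC3⟩ := exists_injOn_superset hf.measurable measurable_fst hT (by
      intro a ha b hb e
      by_contra hne
      apply hno
      refine ⟨a.1, ha.1.1, b.1, hb.1.1, ha.1.2, hb.1.2, hne, e.symm, fun k' hk' => ?_⟩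
      have := mem_iInter₂.1 ha.2 k' hk'
      exact ⟨a.2 k', this.1.1, this.1.2, this.2⟩)
    have hCn : Null C := ⟨hC1, fun _ => C, fun _ => ⟨hC1, hC3⟩, fun z hz => ⟨0, hz⟩⟩
    have hn : Null (⋃ b : Bool, if b = true then N₀ else C) :=
      hU _ fun b => by cases b <;> simpa
    obtain ⟨x, hx⟩ := hgood s hs _ hn
    obtain ⟨z, hz1, hz2, hz3⟩ := hx k hk
    have hw : ∀ k', ∃ w, k' ∈ s → w ∈ B k' ∧ w ∉ N₀ ∧ f w = x := by
      intro k'
      by_cases h : k' ∈ s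
      · obtain ⟨w, h1, h2, h3⟩ := hx k' h
        exact ⟨w, fun _ => ⟨h1, fun h4 => h2 (mem_iUnion.2 ⟨true, h4⟩), h3⟩⟩
      · exact ⟨z, fun h' => absurd h' h⟩
    choose w hw using hw
    refine hz2 (mem_iUnion.2 ⟨false, hC2 (z, w) ⟨⟨hz1, fun h4 => hz2 (mem_iUnion.2 ⟨true, h4⟩)⟩,
      mem_iInter₂.2 fun k' hk' => ⟨⟨(hw k' hk').1, (hw k' hk').2.1⟩, ?_⟩⟩⟩)
    exact (hw k' hk').2.2.trans hz3.symm
  have hshrink : ∀ (v : Z) (O : Set Z), IsOpen O → v ∈ O → ∀ ε : ℝ, 0 < ε →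
      ∃ k, v ∈ B k ∧ closure (B k) ⊆ O ∧ ∀ a ∈ B k, ∀ b ∈ B k, dist a b ≤ ε := by
    intro v O hO hv ε hε
    obtain ⟨C, hC1, hC2, hC3⟩ := exists_mem_nhds_isClosed_subset (hO.mem_nhds hv)
    obtain ⟨W, hW1, hW2, hW3⟩ := mem_nhds_iff.1
      (inter_mem hC1 (Metric.ball_mem_nhds v (half_pos hε)))
    obtain ⟨k, hk1, hk2⟩ := hB' v W hW2 hW3
    refine ⟨k, hk1, (closure_minimal (fun a ha => (hW1 (hk2 ha)).1) hC2).trans hC3,
      fun a ha b hb => ?_⟩
    have h1 := (hW1 (hk2 ha)).2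
    have h2 := (hW1 (hk2 hb)).2
    rw [Metric.mem_ball] at h1 h2
    have := dist_triangle_right a b v
    linarith
  let P : ℕ → (ℕ → ℕ) × (ℕ → Z) → Prop := fun n p =>
    ∀ i ≤ n, p.2 i ∈ B (p.1 i) ∧ p.2 i ∉ N₀ ∧ f (p.2 i) = f (p.2 0)
  let Q : ℕ → (ℕ → ℕ) → (ℕ → ℕ) → Prop := fun n U U' =>
    (∀ i ≤ n, closure (B (U' i)) ⊆ B (U i)) ∧ B (U' (n + 1)) ⊆ B (U n.unpair.1) ∧
    Disjoint (B (U' n.unpair.1)) (B (U' (n + 1))) ∧
    ∀ i, ∀ a ∈ B (U' i), ∀ b ∈ B (U' i), dist a b ≤ 1 / ((n : ℝ) + 1)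
  have step : ∀ n (a : {p // P n p}), ∃ b : {p // P (n + 1) p}, Q n a.1.1 b.1.1 := by
    rintro n ⟨⟨U, v⟩, hP⟩
    have hi : n.unpair.1 ≤ n := Nat.unpair_left_le n
    have hreal : Real ((Finset.range (n + 1)).image U) N₀ := by
      refine ⟨f (v 0), fun k hk => ?_⟩
      obtain ⟨i, hi, rfl⟩ := Finset.mem_image.1 hk
      have := hP i (Nat.lt_succ_iff.1 (Finset.mem_range.1 hi))
      exact ⟨v i, this.1, this.2.1, this.2.2⟩
    obtain ⟨z, hz, z', hz', hz1, hz2, hne, hff, hw⟩ := hsplit _ hreal (U n.unpair.1)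
      (Finset.mem_image_of_mem U (Finset.mem_range.2 (Nat.lt_succ_of_le hi)))
    obtain ⟨O, O', hO, hO', hzO, hzO', hOO⟩ := t2_separation hne
    have hex : ∀ i, ∃ (w : Z) (G : Set Z), IsOpen G ∧ w ∈ G ∧ w ∉ N₀ ∧ f w = f z ∧
        (i ≤ n → G ⊆ B (U i)) ∧ (i = n.unpair.1 → G ⊆ O) ∧
        (i = n + 1 → G ⊆ O' ∩ B (U n.unpair.1)) := by
      intro i
      by_cases h1 : i = n.unpair.1
      · subst h1
        exact ⟨z, O ∩ B (U n.unpair.1), hO.inter (hB _), ⟨hzO, hz⟩, hz1, rfl,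
          fun _ => inter_subset_right, fun _ => inter_subset_left, fun h => by omega⟩
      · by_cases h2 : i ≤ n
        · obtain ⟨w, h3, h4, h5⟩ := hw (U i)
            (Finset.mem_image_of_mem U (Finset.mem_range.2 (Nat.lt_succ_of_le h2)))
          exact ⟨w, B (U i), hB _, h3, h4, h5, fun _ => subset_rfl, fun h => absurd h h1,
            fun h => by omega⟩
        · exact ⟨z', O' ∩ B (U n.unpair.1), hO'.inter (hB _), ⟨hzO', hz'⟩, hz2, hff,
            fun h => absurd h h2, fun h => absurd h h1, fun _ => subset_rfl⟩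
    choose w G hG1 hG2 hG3 hG4 hG5 hG6 hG7 using hex
    choose U' hU1 hU2 hU3 using fun i =>
      hshrink (w i) (G i) (hG1 i) (hG2 i) (1 / ((n : ℝ) + 1)) (by positivity)
    refine ⟨⟨(U', w), fun i _ => ⟨hU1 i, hG3 i, (hG4 i).trans (hG4 0).symm⟩⟩,
      fun i hi => (hU2 i).trans (hG5 i hi), ?_, ?_, hU3⟩
    · exact fun a ha => (hG7 _ rfl (hU2 _ (subset_closure ha))).2
    · exact hOO.mono (fun a ha => hG6 _ rfl (hU2 _ (subset_closure ha)))
        (fun a ha => (hG7 _ rfl (hU2 _ (subset_closure ha))).1)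
  choose nx hnx using step
  have hz₀ : ∃ z, z ∉ N₀ := by
    by_contra h
    push Not at h
    obtain ⟨S, hS1, hS2⟩ := hN₀null.2
    exact hcon ⟨S, hS1, fun z => hS2 z (h z)⟩
  obtain ⟨z₀, hz₀⟩ := hz₀
  obtain ⟨k₀, hk₀, -⟩ := hB' z₀ univ isOpen_univ (mem_univ _)
  let s : (n : ℕ) → {p // P n p} := fun n => Nat.rec
    ⟨(fun _ => k₀, fun _ => z₀), fun _ _ => ⟨hk₀, hz₀, rfl⟩⟩ (fun n a => nx n a) n
  let U : ℕ → ℕ → ℕ := fun n => (s n).1.1
  let v : ℕ → ℕ → Z := fun n => (s n).1.2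
  have hQ : ∀ n, Q n (U n) (U (n + 1)) := fun n => hnx n (s n)
  have hP : ∀ n, ∀ i ≤ n, v n i ∈ B (U n i) ∧ v n i ∉ N₀ ∧ f (v n i) = f (v n 0) :=
    fun n => (s n).2
  have hnest : ∀ i n m, i ≤ n → n ≤ m → B (U m i) ⊆ B (U n i) := by
    intro i n m hin hnm
    induction m, hnm using Nat.le_induction with
    | base => exact subset_rfl
    | succ m hm ih => exact (subset_closure.trans ((hQ m).1 i (hin.trans hm))).trans ih
  have hcauchy : ∀ i, CauchySeq (fun n => v n i) := by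
    intro i
    rw [Metric.cauchySeq_iff]
    intro ε hε
    obtain ⟨K, hK⟩ := exists_nat_one_div_lt hε
    refine ⟨max K i + 1, fun m hm n hn => ?_⟩
    have hi : i ≤ max K i + 1 := (le_max_right K i).trans (Nat.le_succ _)
    have h1 := (hQ (max K i)).2.2.2 i _ (hnest i _ m hi hm (hP m i (hi.trans hm)).1) _
      (hnest i _ n hi hn (hP n i (hi.trans hn)).1)
    refine lt_of_le_of_lt (h1.trans ?_) hK
    apply one_div_le_one_div_of_le (by positivity)
    have : (K : ℝ) ≤ ((max K i : ℕ) : ℝ) := by exact_mod_cast le_max_left K i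
    linarith
  choose y hy using fun i => cauchySeq_tendsto_of_complete (hcauchy i)
  have hyB : ∀ i n, i ≤ n → y i ∈ B (U n i) := by
    intro i n hin
    apply (hQ n).1 i hin
    refine mem_closure_of_tendsto (hy i) ?_
    filter_upwards [eventually_ge_atTop (n + 1)] with m hm
    exact hnest i _ m (hin.trans (Nat.le_succ n)) hm (hP m i ((hin.trans (Nat.le_succ n)).trans hm)).1
  have hyf : ∀ i, f (y i) = f (y 0) := by
    intro i
    have h1 := (hf.tendsto _).comp (hy i)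
    have h2 := (hf.tendsto _).comp (hy 0)
    refine tendsto_nhds_unique (h1.congr' ?_) h2
    filter_upwards [eventually_ge_atTop i] with m hm using (hP m i hm).2.2
  have hpre : Preperfect (range y) := by
    rintro _ ⟨i, rfl⟩
    rw [accPt_iff_nhds]
    intro O hO
    obtain ⟨ε, hε, hball⟩ := Metric.mem_nhds_iff.1 hO
    obtain ⟨K, hK⟩ := exists_nat_one_div_lt hε
    set n := Nat.pair i (K + 1) with hn
    have hn1 : n.unpair.1 = i := by simp [hn]
    have hn2 : K + 1 ≤ n := Nat.right_le_pair _ _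
    have hn3 : i ≤ n := Nat.left_le_pair _ _
    obtain ⟨n', hn'⟩ : ∃ n', n = n' + 1 := ⟨n - 1, by omega⟩
    have h1 := (hQ n).2.1 (hyB (n + 1) (n + 1) le_rfl)
    have h2 := (hQ n).2.2.1
    rw [hn1] at h1 h2
    refine ⟨y (n + 1), ⟨hball ?_, mem_range_self _⟩, fun e => ?_⟩
    · have h4 : B (U n i) = B (U (n' + 1) i) := by rw [hn']
      have h3 := (hQ n').2.2.2 i (y (n + 1)) (h4 ▸ h1) (y i) (h4 ▸ hyB i n hn3)
      refine lt_of_le_of_lt (h3.trans ?_) hK
      apply one_div_le_one_div_of_le (by positivity)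
      have : (K : ℝ) ≤ (n' : ℝ) := by exact_mod_cast (by omega : K ≤ n')
      linarith
    · exact Set.disjoint_left.1 h2 (hyB i (n + 1) (hn3.trans (Nat.le_succ n)))
        (e ▸ hyB (n + 1) (n + 1) le_rfl)
  obtain ⟨φ, hφ1, -, hφ2⟩ := hpre.perfect_closure.exists_nat_bool_injection
    ⟨y 0, subset_closure (mem_range_self 0)⟩
  have hsub : closure (range y) ⊆ f ⁻¹' {f (y 0)} :=
    closure_minimal (by rintro _ ⟨i, rfl⟩; exact hyf i) (isClosed_singleton.preimage hf)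
  have hcount : (range φ).Countable := (hc _).mono (hφ1.trans hsub)
  have : Countable (ℕ → Bool) := by
    rw [← image_univ] at hcount
    exact countable_univ_iff.1 (countable_of_injective_of_countable_image hφ2.injOn hcount)
  obtain ⟨e, he⟩ := exists_surjective_nat (ℕ → Bool)
  obtain ⟨n, hn⟩ := he (fun n => !(e n n))
  have h5 := congrFun hn n
  simp at h5

/-- Lusin-Novikov: a countable-to-one Borel map is piecewise injective. -/
theorem lusin_novikov {Z X : Type} [MeasurableSpace Z] [StandardBorelSpace Z]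
    [MeasurableSpace X] [StandardBorelSpace X] {f : Z → X} (hf : Measurable f)
    (hc : ∀ x, (f ⁻¹' {x}).Countable) :
    ∃ S : ℕ → Set Z, (∀ n, MeasurableSet (S n) ∧ InjOn f (S n)) ∧ ∀ z, ∃ n, z ∈ S n := by
  obtain ⟨τX, hbX, hpX⟩ := StandardBorelSpace.polish (α := X)
  obtain ⟨τ₀, hb₀, hp₀⟩ := StandardBorelSpace.polish (α := Z)
  obtain ⟨τ, hle, hcont, hp⟩ := hf.exists_continuous
  have hb := borel_of_le hp₀ hb₀ hp hle
  clear hb₀ hp₀ hle τ₀
  let := upgradeIsCompletelyMetrizable Z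
  exact lusin_novikov_aux hcont hc

/-- Feldman-Moore: a countable Borel equivalence relation is generated by Borel involutions. -/
theorem feldman_moore {X : Type} [MeasurableSpace X] [StandardBorelSpace X] (E : Setoid X)
    (hE : MeasurableSet {p : X × X | E.r p.1 p.2}) (hc : ∀ x, {y | E.r x y}.Countable) :
    ∃ φ : ℕ × ℕ × ℕ → X → X, (∀ i, Measurable (φ i)) ∧ (∀ i x, φ i (φ i x) = x) ∧
      (∀ i x, E.r x (φ i x)) ∧ ∀ x y, E.r x y → x = y ∨ ∃ i, φ i x = y := by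
  classical
  have := hE.standardBorel
  obtain ⟨S', hS', hcov⟩ := lusin_novikov (Z := {p : X × X | E.r p.1 p.2}) (f := fun p => p.1.1)
    (measurable_fst.comp measurable_subtype_coe) (fun x => by
      refine countable_of_injective_of_countable_image (f := fun p => p.1.2) ?_ ((hc x).mono ?_)
      · intro p hp q hq e
        exact Subtype.ext (Prod.ext (hp.trans hq.symm) e)
      · rintro _ ⟨p, hp, rfl⟩
        have h1 : p.1.1 = x := hp
        exact h1 ▸ p.2)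
  let S : ℕ → Set (X × X) := fun n => Subtype.val '' S' n
  have hS1 : ∀ n, MeasurableSet (S n) := fun n => hE.subtype_image (hS' n).1
  have hS2 : ∀ n, InjOn Prod.fst (S n) := by
    rintro n _ ⟨p, hp, rfl⟩ _ ⟨q, hq, rfl⟩ e
    rw [(hS' n).2 hp hq e]
  have hS3 : ∀ n, ∀ p ∈ S n, E.r p.1 p.2 := by
    rintro n _ ⟨p, -, rfl⟩
    exact p.2
  have hS4 : ∀ x y, E.r x y → ∃ n, (x, y) ∈ S n := fun x y h => by
    obtain ⟨n, hn⟩ := hcov ⟨(x, y), h⟩
    exact ⟨n, _, hn, rfl⟩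
  obtain ⟨code, hcm, hci⟩ := MeasurableSpace.measurable_injection_nat_bool_of_countablySeparated X
  let T : ℕ × ℕ × ℕ → Set (X × X) := fun i => (S i.1 ∩ Prod.swap ⁻¹' S i.2.1) ∩
    ({p | code p.1 i.2.2 = true} ∩ {p | code p.2 i.2.2 = true}ᶜ)
  have hT1 : ∀ i, MeasurableSet (T i) := fun i =>
    ((hS1 _).inter (measurable_swap (hS1 _))).inter
      (((hcm.comp measurable_fst) (measurableSet_bit _)).inter
        ((hcm.comp measurable_snd) (measurableSet_bit _)).compl)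
  have hT2 : ∀ i, InjOn Prod.fst (T i) := fun i => (hS2 _).mono fun p hp => hp.1.1
  have hT3 : ∀ i, InjOn Prod.snd (T i) := fun i p hp q hq e =>
    Prod.swap_injective (hS2 _ hp.1.2 hq.1.2 e)
  have hT4 : ∀ i x y z, (x, y) ∈ T i → (z, x) ∈ T i → False := fun i x y z h h' =>
    h'.2.2 h.2.1
  let φ : ℕ × ℕ × ℕ → X → X := fun i x =>
    if h : ∃ y, (x, y) ∈ T i then h.choose else if h : ∃ y, (y, x) ∈ T i then h.choose else x
  have e1 : ∀ i x y, (x, y) ∈ T i → φ i x = y := by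
    intro i x y h
    have hex : ∃ y, (x, y) ∈ T i := ⟨y, h⟩
    simp only [φ, dif_pos hex]
    exact congrArg Prod.snd (hT2 i hex.choose_spec h rfl)
  have e2 : ∀ i x y, (y, x) ∈ T i → φ i x = y := by
    intro i x y h
    have hex : ∃ y, (y, x) ∈ T i := ⟨y, h⟩
    have hn : ¬ ∃ y, (x, y) ∈ T i := fun ⟨z, hz⟩ => hT4 i x z y hz h
    simp only [φ, dif_neg hn, dif_pos hex]
    exact congrArg Prod.fst (hT3 i hex.choose_spec h rfl)
  have e3 : ∀ i x, (x, φ i x) ∈ T i ∨ (φ i x, x) ∈ T i ∨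
      (φ i x = x ∧ (¬ ∃ y, (x, y) ∈ T i) ∧ ¬ ∃ y, (y, x) ∈ T i) := by
    intro i x
    by_cases h1 : ∃ y, (x, y) ∈ T i
    · obtain ⟨y, hy⟩ := h1
      left; rwa [e1 i x y hy]
    · by_cases h2 : ∃ y, (y, x) ∈ T i
      · obtain ⟨y, hy⟩ := h2
        right; left; rwa [e2 i x y hy]
      · right; right
        exact ⟨by simp only [φ, dif_neg h1, dif_neg h2], h1, h2⟩
  refine ⟨φ, fun i D hD => ?_, fun i x => ?_, fun i x => ?_, fun x y h => ?_⟩
  · have e : φ i ⁻¹' D = Prod.fst '' (T i ∩ Prod.snd ⁻¹' D) ∪ (Prod.snd '' (T i ∩ Prod.fst ⁻¹' D) ∪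
        (D ∩ ((Prod.fst '' T i)ᶜ ∩ (Prod.snd '' T i)ᶜ))) := by
      ext x
      constructor
      · intro hx
        rcases e3 i x with h | h | ⟨h1, h2, h3⟩
        · exact Or.inl ⟨_, ⟨h, hx⟩, rfl⟩
        · exact Or.inr (Or.inl ⟨_, ⟨h, hx⟩, rfl⟩)
        · refine Or.inr (Or.inr ⟨h1 ▸ hx, ?_, ?_⟩)
          · rintro ⟨p, hp, rfl⟩; exact h2 ⟨p.2, hp⟩
          · rintro ⟨p, hp, rfl⟩; exact h3 ⟨p.1, hp⟩
      · rintro (⟨p, hp, rfl⟩ | ⟨p, hp, rfl⟩ | ⟨h1, h2, h3⟩)
        · rw [mem_preimage, e1 i p.1 p.2 hp.1]; exact hp.2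
        · rw [mem_preimage, e2 i p.2 p.1 hp.1]; exact hp.2
        · rcases e3 i x with h | h | ⟨h4, -, -⟩
          · exact absurd ⟨_, h, rfl⟩ h2
          · exact absurd ⟨_, h, rfl⟩ h3
          · rw [mem_preimage, h4]; exact h1
    rw [e]
    refine MeasurableSet.union ?_ (MeasurableSet.union ?_ (hD.inter (MeasurableSet.inter ?_ ?_)))
    · exact ((hT1 i).inter (measurable_snd hD)).image_of_measurable_injOn measurable_fst
        ((hT2 i).mono inter_subset_left)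
    · exact ((hT1 i).inter (measurable_fst hD)).image_of_measurable_injOn measurable_snd
        ((hT3 i).mono inter_subset_left)
    · exact ((hT1 i).image_of_measurable_injOn measurable_fst (hT2 i)).compl
    · exact ((hT1 i).image_of_measurable_injOn measurable_snd (hT3 i)).compl
  · rcases e3 i x with h | h | ⟨h, -, -⟩
    · exact e2 i _ _ h
    · exact e1 i _ _ h
    · rw [h, h]
  · rcases e3 i x with h | h | ⟨h, -, -⟩
    · exact hS3 _ _ h.1.1
    · exact E.symm (hS3 _ _ h.1.1)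
    · rw [h]
  · by_cases hxy : x = y
    · exact Or.inl hxy
    right
    obtain ⟨n, hn⟩ := hS4 x y h
    obtain ⟨m, hm⟩ := hS4 y x (E.symm h)
    obtain ⟨k, hk⟩ := Function.ne_iff.1 (hci.ne hxy)
    by_cases hx : code x k = true
    · exact ⟨(n, m, k), e1 _ _ _ ⟨⟨hn, hm⟩, hx, fun hy => hk (hx.trans hy.symm)⟩⟩
    · have hy : code y k = true := by
        cases h4 : code y k with
        | true => rfl
        | false => exact absurd ((Bool.eq_false_iff.2 hx).trans h4.symm) hk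
      exact ⟨(m, n, k), e2 _ _ _ ⟨⟨hm, hn⟩, hy, hx⟩⟩

/-- Feldman-Moore: a countable Borel equivalence relation is the orbit equivalence relation of a
Borel action of a countable group. -/
theorem exists_action {X : Type} [MeasurableSpace X] [StandardBorelSpace X] (E : Setoid X)
    (hE : MeasurableSet {p : X × X | E.r p.1 p.2}) (hc : ∀ x, {y | E.r x y}.Countable) :
    ∃ _ : MulAction (FreeGroup (ℕ × ℕ × ℕ)) X,
      (∀ γ : FreeGroup (ℕ × ℕ × ℕ), Measurable (fun x : X => γ • x)) ∧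
      ∀ x y, E.r x y ↔ ∃ γ : FreeGroup (ℕ × ℕ × ℕ), y = γ • x := by
  obtain ⟨φ, h1, h2, h3, h4⟩ := feldman_moore E hE hc
  let π : ℕ × ℕ × ℕ → Equiv.Perm X := fun i => Function.Involutive.toPerm (φ i) (h2 i)
  let ρ : FreeGroup (ℕ × ℕ × ℕ) →* Equiv.Perm X := FreeGroup.lift π
  have key : ∀ γ, Measurable (fun x => ρ γ x) ∧ ∀ x, E.r x (ρ γ x) := by
    intro γ
    induction γ using FreeGroup.induction_on with
    | C1 => exact ⟨by simpa using measurable_id', fun x => by simp⟩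
    | of i => exact ⟨by simpa [ρ, π] using h1 i, fun x => by simpa [ρ, π] using h3 i x⟩
    | inv_of i _ =>
      have : ρ (FreeGroup.of i)⁻¹ = π i := by
        rw [map_inv]
        simp only [ρ, FreeGroup.lift_apply_of]
        rfl
      rw [this]
      exact ⟨h1 i, h3 i⟩
    | mul a b ha hb =>
      simp only [map_mul, Equiv.Perm.mul_apply]
      exact ⟨ha.1.comp hb.1, fun x => E.trans (hb.2 x) (ha.2 _)⟩
  refine ⟨MulAction.compHom X ρ, fun γ => (key γ).1, fun x y => ⟨fun h => ?_, ?_⟩⟩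
  · rcases h4 x y h with rfl | ⟨i, rfl⟩
    · exact ⟨1, by change x = ρ 1 x; simp⟩
    · exact ⟨FreeGroup.of i, by change φ i x = ρ (FreeGroup.of i) x; simp [ρ, π]⟩
  · rintro ⟨γ, rfl⟩
    exact (key γ).2 x

end Pool.Agent.Lib.MP_00fb6a_lc
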