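import Mathlib
import Pool.Agent.Lib.MP_00fb6a_lc.Cond
import Pool.Agent.Lib.MP_00fb6a_lc.LusinNovikov

/-!
The winning strategy of the second player in the long back-and-forth game between the quotient
Borel structures of two non-smooth countable Borel equivalence relations.
-/

set_option autoImplicit false
set_option linter.unusedSectionVars false

namespace Pool.Agent.Lib.MP_00fb6a_lc

open Set Filter Topology TopologicalSpace MeasureTheory

section Group

variable {Γ Λ X Y : Type} [Group Γ] [Group Λ] [MulAction Γ X] [MulAction Λ Y]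
  [MeasurableSpace X] [MeasurableSpace Y]
  [Countable Γ] [Countable Λ] [StandardBorelSpace X] [StandardBorelSpace Y]
  [Nonempty X] [Nonempty Y]

theorem exists_cond_strategy [Nonempty (Cond Γ Λ X Y)] {I : Type} [LinearOrder I]
    [WellFoundedLT I] (hI : ∀ i : I, (Iio i).Countable) {M : Type} (a : M → Set X) (b : M → Set Y)
    (ha : ∀ m, MeasurableSet (a m)) (hb : ∀ m, MeasurableSet (b m)) :
    ∃ p : (I → M) → I → Cond Γ Λ X Y,
      (∀ m m' i, (∀ k ≤ i, m k = m' k) → p m i = p m' i) ∧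
      (∀ m i j, i ≤ j → (p m j).Le (p m i)) ∧
      ∀ m i, IsOpen[(p m i).τ] (a (m i)) ∧ IsOpen[(p m i).σ] (b (m i)) := by
  classical
  let step : (i : I) → M → ((k : I) → k < i → Cond Γ Λ X Y) → Cond Γ Λ X Y := fun i mv prev =>
    if h : ∃ c : Cond Γ Λ X Y, (∀ k hk, c.Le (prev k hk)) ∧ IsOpen[c.τ] (a mv) ∧
      IsOpen[c.σ] (b mv) then h.choose else Classical.arbitrary _
  let p : (I → M) → I → Cond Γ Λ X Y := fun m =>
    (wellFounded_lt (α := I)).fix (fun i prev => step i (m i) prev)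
  have hp : ∀ m i, p m i = step i (m i) (fun k _ => p m k) := fun m i =>
    (wellFounded_lt (α := I)).fix_eq _ i
  have key : ∀ m i, (∀ k, k < i → (p m i).Le (p m k)) ∧
      IsOpen[(p m i).τ] (a (m i)) ∧ IsOpen[(p m i).σ] (b (m i)) := by
    intro m i
    induction i using WellFoundedLT.induction with
    | ind i ih =>
      have : Countable (Iio i) := (hI i).to_subtype
      obtain ⟨c, hc⟩ := exists_lower (fun k : Iio i => p m k) (fun k k' => by
        rcases lt_trichotomy k.1 k'.1 with h | h | h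
        · exact Or.inr ((ih k' k'.2).1 _ h)
        · left; rw [h]; exact Cond.Le.refl _
        · exact Or.inl ((ih k k.2).1 _ h))
      obtain ⟨c', h1, h2, -, h3, -⟩ := c.exists_extension (ha (m i)) (hb (m i))
      have h : ∃ c : Cond Γ Λ X Y, (∀ k (_ : k < i), c.Le (p m k)) ∧ IsOpen[c.τ] (a (m i)) ∧
          IsOpen[c.σ] (b (m i)) := ⟨c', fun k hk => h1.trans (hc ⟨k, hk⟩), h2, h3⟩
      have e : p m i = h.choose := by
        rw [hp]
        exact dif_pos h
      rw [e]
      exact h.choose_spec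
  refine ⟨p, fun m m' i => ?_, fun m i j hij => ?_, fun m i => (key m i).2⟩
  · induction i using WellFoundedLT.induction with
    | ind i ih =>
      intro h
      rw [hp, hp, h i le_rfl]
      congr 1
      funext k hk
      exact ih k hk fun l hl => h l (hl.trans hk.le)
  · rcases hij.lt_or_eq with h | h
    · exact (key m j).1 i h
    · rw [h]; exact Cond.Le.refl _

end Group

/-- A non-smooth action has a point with a perfect orbit closure for every good topology. -/
theorem exists_not_small {Γ X : Type} [Group Γ] [MulAction Γ X] [MeasurableSpace X] [Countable Γ]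
    [Nonempty X] {τ : TopologicalSpace X} (hτ : Good Γ τ)
    (hns : ¬ ∃ f : X → ℝ, Measurable f ∧ ∀ x y, (∃ γ : Γ, y = γ • x) ↔ f x = f y) :
    ∃ x, ¬ Small Γ τ x := by
  by_contra hcon
  push Not at hcon
  obtain ⟨D⟩ := hτ.exists_geData
  obtain ⟨e, he⟩ := exists_measurableEmbedding_real (ℕ → Bool)
  refine hns ⟨fun x => e (D.tp x), he.measurable.comp D.measurable_tp, fun x y => ?_⟩
  rw [he.injective.eq_iff, D.tp_eq]
  exact ⟨fun ⟨γ, h⟩ => h ▸ (rel_smul τ γ x).symm, fun h => (hcon x).exists_smul hτ.t1 h⟩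

theorem exists_quotient_partner {Γ Λ X Y : Type} [Group Γ] [Group Λ] [MulAction Γ X]
    [MulAction Λ Y] [MeasurableSpace X] [MeasurableSpace Y]
    [Countable Γ] [Countable Λ] [StandardBorelSpace X] [StandardBorelSpace Y]
    [Nonempty X] [Nonempty Y] {E : Setoid X} {F : Setoid Y}
    (hE : ∀ x y, E.r x y ↔ ∃ γ : Γ, y = γ • x) (hF : ∀ x y, F.r x y ↔ ∃ γ : Λ, y = γ • x)
    (c : Cond Γ Λ X Y) {A : Set (Quotient E)} (hA : IsOpen[c.τ] (Quotient.mk E ⁻¹' A)) :
    ∃ B : Set (Quotient F), MeasurableSet B ∧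
      ∀ x y, (x, y) ∈ c.R → (Quotient.mk E x ∈ A ↔ Quotient.mk F y ∈ B) := by
  obtain ⟨B, h1, h2, h3⟩ := c.exists_partner hA (fun γ z => by
    have : Quotient.mk E (γ • z) = Quotient.mk E z := (Quotient.sound ((hE _ _).2 ⟨γ, rfl⟩)).symm
    simp only [mem_preimage, this])
  have e : Quotient.mk F ⁻¹' (Quotient.mk F '' B) = B := by
    ext y
    constructor
    · rintro ⟨y', hy', e⟩
      obtain ⟨γ, rfl⟩ := (hF _ _).1 (Quotient.exact e)
      exact (h2 γ y').2 hy'
    · exact fun hy => mem_image_of_mem _ hy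
  refine ⟨Quotient.mk F '' B, ?_, fun x y h => (h3 x y h).trans ?_⟩
  · have : MeasurableSet (Quotient.mk F ⁻¹' (Quotient.mk F '' B)) := by rw [e]; exact h1
    exact measurableSet_quotient.2 this
  · rw [← mem_preimage (f := Quotient.mk F), e]

theorem exists_strategy {X Y : Type} [MeasurableSpace X] [StandardBorelSpace X]
    [MeasurableSpace Y] [StandardBorelSpace Y] (E : Setoid X) (F : Setoid Y)
    (hE : MeasurableSet {p : X × X | E.r p.1 p.2}) (hF : MeasurableSet {p : Y × Y | F.r p.1 p.2})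
    (hcE : ∀ x : X, {y : X | E.r x y}.Countable) (hcF : ∀ y : Y, {z : Y | F.r y z}.Countable)
    (hnE : ¬ ∃ f : X → ℝ, Measurable f ∧ ∀ x y, E.r x y ↔ f x = f y)
    (hnF : ¬ ∃ f : Y → ℝ, Measurable f ∧ ∀ x y, F.r x y ↔ f x = f y)
    {I : Type} [LinearOrder I] [WellFoundedLT I] (hI : ∀ i : I, (Iio i).Countable) :
    ∃ S : (I → {A : Set (Quotient E) // MeasurableSet A} ⊕
          {B : Set (Quotient F) // MeasurableSet B}) →
        I → {A : Set (Quotient E) // MeasurableSet A} × {B : Set (Quotient F) // MeasurableSet B},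
      (∀ m m' i, (∀ k ≤ i, m k = m' k) → S m i = S m' i) ∧
      (∀ m i A, m i = Sum.inl A → (S m i).1 = A) ∧
      (∀ m i B, m i = Sum.inr B → (S m i).2 = B) ∧
      ∀ m (J : Set I), J.Countable →
        (∀ a, ∃ b, ∀ i ∈ J, (a ∈ (S m i).1.1 ↔ b ∈ (S m i).2.1)) ∧
        (∀ b, ∃ a, ∀ i ∈ J, (a ∈ (S m i).1.1 ↔ b ∈ (S m i).2.1)) := by
  classical
  have : Nonempty X := by
    by_contra h
    exact hnE ⟨fun _ => 0, measurable_const, fun x => (h ⟨x⟩).elim⟩
  have : Nonempty Y := by
    by_contra h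
    exact hnF ⟨fun _ => 0, measurable_const, fun x => (h ⟨x⟩).elim⟩
  obtain ⟨iX, hX1, hX2⟩ := exists_action E hE hcE
  obtain ⟨iY, hY1, hY2⟩ := exists_action F hF hcF
  obtain ⟨τ, hτ⟩ := exists_good hX1
  obtain ⟨σ, hσ⟩ := exists_good hY1
  obtain ⟨x₀, hx₀⟩ := exists_not_small hτ (by simpa only [← hX2] using hnE)
  obtain ⟨y₀, hy₀⟩ := exists_not_small hσ (by simpa only [← hY2] using hnF)
  have := exists_cond hτ hσ hx₀ hy₀
  let M := {A : Set (Quotient E) // MeasurableSet A} ⊕ {B : Set (Quotient F) // MeasurableSet B}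
  let a : M → Set X := Sum.elim (fun A => Quotient.mk E ⁻¹' A.1) (fun _ => univ)
  let b : M → Set Y := Sum.elim (fun _ => univ) (fun B => Quotient.mk F ⁻¹' B.1)
  obtain ⟨p, hp1, hp2, hp3⟩ := exists_cond_strategy (Γ := FreeGroup (ℕ × ℕ × ℕ))
    (Λ := FreeGroup (ℕ × ℕ × ℕ)) hI a b
    (fun m => by
      rcases m with A | B
      · exact measurableSet_quotient.1 A.2
      · exact MeasurableSet.univ)
    (fun m => by
      rcases m with A | B
      · exact MeasurableSet.univ
      · exact measurableSet_quotient.1 B.2)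
  have resp : ∀ (c : Cond (FreeGroup (ℕ × ℕ × ℕ)) (FreeGroup (ℕ × ℕ × ℕ)) X Y) (mv : M),
      ∃ q : {A : Set (Quotient E) // MeasurableSet A} × {B : Set (Quotient F) // MeasurableSet B},
        (∀ A, mv = Sum.inl A → q.1 = A) ∧ (∀ B, mv = Sum.inr B → q.2 = B) ∧
        (IsOpen[c.τ] (a mv) → IsOpen[c.σ] (b mv) → ∀ x y, (x, y) ∈ c.R →
          (Quotient.mk E x ∈ q.1.1 ↔ Quotient.mk F y ∈ q.2.1)) := by
    intro c mv
    rcases mv with A | B
    · by_cases h : IsOpen[c.τ] (Quotient.mk E ⁻¹' A.1)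
      · obtain ⟨B, h1, h2⟩ := exists_quotient_partner hX2 hY2 c h
        exact ⟨(A, ⟨B, h1⟩), fun A' e => Sum.inl_injective e, fun B' e => (Sum.inl_ne_inr e).elim,
          fun _ _ => h2⟩
      · exact ⟨(A, ⟨univ, MeasurableSet.univ⟩), fun A' e => Sum.inl_injective e,
          fun B' e => (Sum.inl_ne_inr e).elim, fun h' => (h h').elim⟩
    · by_cases h : IsOpen[c.σ] (Quotient.mk F ⁻¹' B.1)
      · obtain ⟨A, h1, h2⟩ := exists_quotient_partner hY2 hX2 c.swap h
        exact ⟨(⟨A, h1⟩, B), fun A' e => (Sum.inr_ne_inl e).elim, fun B' e => Sum.inr_injective e,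
          fun _ _ x y hxy => (h2 y x hxy).symm⟩
      · exact ⟨(⟨univ, MeasurableSet.univ⟩, B), fun A' e => (Sum.inr_ne_inl e).elim,
          fun B' e => Sum.inr_injective e, fun _ h' => (h h').elim⟩
  choose r hr1 hr2 hr3 using resp
  refine ⟨fun m i => r (p m i) (m i), fun m m' i h => ?_, fun m i => hr1 _ _, fun m i => hr2 _ _,
    fun m J hJ => ?_⟩
  · simp only [hp1 m m' i h, h i le_rfl]
  · have : Countable J := hJ.to_subtype
    obtain ⟨c, hc⟩ := exists_lower (fun k : J => p m k) (fun k k' =>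
      (le_total k'.1 k.1).imp (hp2 m _ _) (hp2 m _ _))
    have key : ∀ x y, (x, y) ∈ c.R → ∀ i ∈ J,
        (Quotient.mk E x ∈ (r (p m i) (m i)).1.1 ↔ Quotient.mk F y ∈ (r (p m i) (m i)).2.1) :=
      fun x y h i hi => hr3 _ _ (hp3 m i).1 (hp3 m i).2 x y ((hc ⟨i, hi⟩).2.2 h)
    constructor
    · intro a
      obtain ⟨x, rfl⟩ := Quotient.exists_rep a
      obtain ⟨y, hy⟩ := c.left_total x
      exact ⟨_, key x y hy⟩
    · intro b
      obtain ⟨y, rfl⟩ := Quotient.exists_rep b
      obtain ⟨x, hx⟩ := c.right_total y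
      exact ⟨_, key x y hx⟩

end Pool.Agent.Lib.MP_00fb6a_lc
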