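import Mathlib
import Pool.Agent.Lib.MP_00fb6a_lc.Tools
import Pool.Agent.Lib.MP_00fb6a_lc.LusinNovikov

/-!
The orbit equivalence relation of the shift of the free group is not hypersmooth, and eventual
equality of binary sequences is not smooth.
-/

set_option autoImplicit false
set_option linter.unusedSectionVars false

namespace Pool.Agent.Lib.MP_00fb6a_lc

open Set Filter Topology TopologicalSpace MeasureTheory

theorem exists_fiber_selector {Γ Y Z : Type} [Countable Γ] [Nonempty Γ] [MeasurableSpace Y]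
    [StandardBorelSpace Y] [MeasurableSpace Z] [StandardBorelSpace Z] {a : Γ → Y → Y}
    (ha : ∀ γ, Measurable (a γ)) {f : Y → Z} (hf : Measurable f)
    (hfib : ∀ y y', f y = f y' → ∃ γ, y' = a γ y) :
    ∃ t : Y → Y, Measurable t ∧ (∀ y, f (t y) = f y) ∧ ∀ y y', f y = f y' → t y = t y' := by
  classical
  obtain ⟨S, hS, hcov⟩ := lusin_novikov hf (fun z => by
    rcases (f ⁻¹' {z}).eq_empty_or_nonempty with h | ⟨y, hy⟩
    · rw [h]; exact countable_empty
    · refine (countable_range (fun γ => a γ y)).mono fun y' hy' => ?_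
      obtain ⟨γ, h⟩ := hfib y y' (hy.trans hy'.symm)
      exact ⟨γ, h.symm⟩)
  obtain ⟨e, he⟩ := exists_surjective_nat Γ
  have him : ∀ k, MeasurableSet (f '' S k) := fun k =>
    (hS k).1.image_of_measurable_injOn hf (hS k).2
  let p : ℕ → Y → Prop := fun j y =>
    f (a (e j) y) = f y ∧ ∃ k, a (e j) y ∈ S k ∧ ∀ i, i < k → f y ∉ f '' S i
  have hp : ∀ j, MeasurableSet {y | p j y} := fun j => by
    refine (measurableSet_eq_fun (hf.comp (ha _)) hf).inter ?_
    have : {y | ∃ k, a (e j) y ∈ S k ∧ ∀ i, i < k → f y ∉ f '' S i} =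
        ⋃ k, (a (e j) ⁻¹' S k ∩ ⋂ i, ⋂ (_ : i < k), (f ⁻¹' (f '' S i))ᶜ) := by
      ext y
      simp only [mem_ofPred_eq, mem_iUnion, mem_inter_iff, mem_preimage, mem_iInter, mem_compl_iff]
    change MeasurableSet {y | ∃ k, a (e j) y ∈ S k ∧ ∀ i, i < k → f y ∉ f '' S i}
    rw [this]
    exact MeasurableSet.iUnion fun k => (ha _ (hS k).1).inter
      (MeasurableSet.iInter fun i => MeasurableSet.iInter fun _ => (hf (him i)).compl)
  have hex : ∀ y, ∃ j, p j y := fun y => by
    have h0 : ∃ k, f y ∈ f '' S k := (hcov y).imp fun k hk => mem_image_of_mem f hk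
    obtain ⟨z, hz, hz'⟩ := Nat.find_spec h0
    obtain ⟨γ, rfl⟩ := hfib y z hz'.symm
    obtain ⟨j, rfl⟩ := he γ
    exact ⟨j, hz', _, hz, fun i hi => Nat.find_min h0 hi⟩
  refine ⟨fun y => a (e (Nat.find (hex y))) y, Measurable.find (fun j => ha (e j)) hp hex,
    fun y => (Nat.find_spec (hex y)).1, fun y y' h => ?_⟩
  obtain ⟨h1, k, h2, h3⟩ := Nat.find_spec (hex y)
  obtain ⟨h1', k', h2', h3'⟩ := Nat.find_spec (hex y')
  have hk : k = k' := by
    rcases lt_trichotomy k k' with hk | hk | hk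
    · exact (h3' k hk ⟨_, h2, h1.trans h⟩).elim
    · exact hk
    · exact (h3 k' hk ⟨_, h2', h1'.trans h.symm⟩).elim
  subst hk
  exact (hS k).2 h2 h2' (h1.trans (h.trans h1'.symm))

theorem not_hypersmooth {Y Z : Type} [MeasurableSpace Y]
    [StandardBorelSpace Y] [MeasurableSpace Z] [StandardBorelSpace Z]
    {a : FreeGroup Bool → Y → Y} (ha : ∀ γ, Measurable (a γ))
    (hmul : ∀ γ δ y, a (γ * δ) y = a γ (a δ y)) {μ : Measure Y} [IsProbabilityMeasure μ]
    (hμ : ∀ γ, μ.map (a γ) = μ) (hfree : ∀ γ, γ ≠ 1 → μ {y | a γ y = y} = 0)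
    {g : ℕ → Y → Z} (hg : ∀ n, Measurable (g n))
    (hg1 : ∀ n y y', g n y = g n y' → ∃ γ, y' = a γ y)
    (hg2 : ∀ γ y, ∀ᶠ n in atTop, g n y = g n (a γ y)) : False := by
  classical
  choose t ht ht1 ht2 using fun n => exists_fiber_selector ha (hg n) (hg1 n)
  have hsmall : ∀ γ, ∀ᶠ n in atTop, μ {y | g n y ≠ g n (a γ y)} < 4⁻¹ := by
    intro γ
    let D : ℕ → Set Y := fun N => ⋃ n, ⋃ (_ : N ≤ n), {y | g n y ≠ g n (a γ y)}
    have hD : ∀ N, MeasurableSet (D N) := fun N =>
      MeasurableSet.iUnion fun n => MeasurableSet.iUnion fun _ =>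
        (measurableSet_eq_fun (hg n) ((hg n).comp (ha γ))).compl
    have hanti : Antitone D := fun N N' h y hy => by
      simp only [D, mem_iUnion] at hy ⊢
      obtain ⟨n, hn, hy⟩ := hy
      exact ⟨n, h.trans hn, hy⟩
    have hlim := tendsto_measure_iInter_atTop (μ := μ) (fun N => (hD N).nullMeasurableSet) hanti
      ⟨0, measure_ne_top _ _⟩
    have hemp : ⋂ N, D N = ∅ := by
      ext y
      simp only [mem_iInter, mem_empty_iff_false, iff_false]
      intro h
      obtain ⟨N, hN⟩ := eventually_atTop.1 (hg2 γ y)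
      have := h N
      simp only [D, mem_iUnion] at this
      obtain ⟨n, hn, hy⟩ := this
      exact hy (hN n hn)
    rw [hemp, measure_empty] at hlim
    have h4 : (0 : ENNReal) < 4⁻¹ := by simp
    filter_upwards [hlim.eventually (gt_mem_nhds h4)] with n hn
    refine lt_of_le_of_lt (measure_mono fun y hy => ?_) hn
    simp only [D, mem_iUnion]
    exact ⟨n, le_rfl, hy⟩
  obtain ⟨n, hn1, hn2⟩ := ((hsmall (FreeGroup.mk [(false, true)])).and
    (hsmall (FreeGroup.mk [(true, true)]))).exists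
  let P : Bool × Bool → Set Y := fun w =>
    ⋃ γ, ⋃ (_ : γ ∈ FreeGroup.startsWith w), {y | a γ (t n y) = y}
  have hP : ∀ w, MeasurableSet (P w) := fun w =>
    MeasurableSet.iUnion fun γ => MeasurableSet.iUnion fun _ =>
      measurableSet_eq_fun ((ha γ).comp (ht n)) measurable_id
  have hcover : ∀ b : Bool, 1 ≤ μ (P (b, false)) + μ (P (b, true)) +
      μ {y | g n y ≠ g n (a (FreeGroup.mk [(b, true)]) y)} := by
    intro b
    have e : μ (P (b, true)) = μ (a (FreeGroup.mk [(b, true)]) ⁻¹' P (b, true)) := by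
      rw [← Measure.map_apply (ha _) (hP _), hμ]
    rw [e, ← measure_univ (μ := μ)]
    refine le_trans (measure_mono fun y _ => ?_)
      ((measure_union_le _ _).trans (add_le_add_left (measure_union_le _ _) _))
    by_cases h1 : g n y = g n (a (FreeGroup.mk [(b, true)]) y)
    · left
      obtain ⟨γ, hγ⟩ := hg1 n _ _ (ht1 n y)
      by_cases h2 : γ ∈ FreeGroup.startsWith (b, false)
      · left
        simp only [P, mem_iUnion]
        exact ⟨γ, h2, hγ.symm⟩
      · right
        simp only [P, mem_preimage, mem_iUnion]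
        refine ⟨_, FreeGroup.startsWith_mk_mul (w := (b, true)) γ h2, ?_⟩
        change a _ (t n _) = _
        rw [← ht2 n _ _ h1, hmul, ← hγ]
    · right
      exact h1
  have hdisj : Pairwise (fun w w' => AEDisjoint μ (P w) (P w')) := by
    intro w w' hne
    have hnull : μ (⋃ γ, ⋃ (_ : γ ≠ 1), {y | a γ y = y}) = 0 :=
      measure_iUnion_null fun γ => measure_iUnion_null fun h => hfree γ h
    refine measure_mono_null (fun y hy => ?_) hnull
    simp only [P, mem_inter_iff, mem_iUnion, mem_ofPred_eq] at hy ⊢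
    obtain ⟨⟨γ, h1, h2⟩, γ', h3, h4⟩ := hy
    refine ⟨γ' * γ⁻¹, fun h => ?_, ?_⟩
    · rw [mul_inv_eq_one] at h
      subst h
      exact (FreeGroup.startsWith.disjoint_iff_ne.2 hne).notMem_of_mem_left h1 h3
    · conv_lhs => rw [← h2]
      rw [← hmul, inv_mul_cancel_right, h4]
  have hsum : ∑ w, μ (P w) ≤ 1 := by
    rw [← tsum_fintype (L := SummationFilter.unconditional _),
      ← measure_iUnion₀ hdisj (fun w => (hP w).nullMeasurableSet)]
    exact prob_le_one
  simp only [Fintype.sum_prod_type, Fintype.sum_bool] at hsum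
  have c1 := hcover false
  have c2 := hcover true
  have f1 := measure_ne_top μ (P (false, false))
  have f2 := measure_ne_top μ (P (false, true))
  have f3 := measure_ne_top μ (P (true, false))
  have f4 := measure_ne_top μ (P (true, true))
  generalize μ (P (false, false)) = x1 at *
  generalize μ (P (false, true)) = x2 at *
  generalize μ (P (true, false)) = x3 at *
  generalize μ (P (true, true)) = x4 at *
  generalize μ {y | g n y ≠ g n (a (FreeGroup.mk [(false, true)]) y)} = e1 at *
  generalize μ {y | g n y ≠ g n (a (FreeGroup.mk [(true, true)]) y)} = e2 at *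
  lift x1 to NNReal using f1
  lift x2 to NNReal using f2
  lift x3 to NNReal using f3
  lift x4 to NNReal using f4
  lift e1 to NNReal using (hn1.trans_le le_top).ne
  lift e2 to NNReal using (hn2.trans_le le_top).ne
  have h4 : (4⁻¹ : ENNReal) = ((4⁻¹ : NNReal) : ENNReal) := by simp
  rw [h4] at hn1 hn2
  norm_cast at hn1 hn2 c1 c2 hsum
  have hn1' : (e1 : ℝ) < 4⁻¹ := by exact_mod_cast hn1
  have hn2' : (e2 : ℝ) < 4⁻¹ := by exact_mod_cast hn2
  have c1' : (1 : ℝ) ≤ x1 + x2 + e1 := by exact_mod_cast c1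
  have c2' : (1 : ℝ) ≤ x3 + x4 + e2 := by exact_mod_cast c2
  have hsum' : (x4 : ℝ) + x3 + (x2 + x1) ≤ 1 := by exact_mod_cast hsum
  linarith

/-- The orbit equivalence relation of the shift of the free group on two generators. -/
def shiftSetoid : Setoid (FreeGroup Bool → ℕ → Bool) where
  r y y' := ∃ γ : FreeGroup Bool, y' = fun g => y (g * γ)
  iseqv := {
    refl := fun y => ⟨1, by simp⟩
    symm := by
      rintro y y' ⟨γ, rfl⟩
      exact ⟨γ⁻¹, by simp⟩
    trans := by
      rintro y y' y'' ⟨γ, rfl⟩ ⟨δ, rfl⟩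
      exact ⟨δ * γ, by simp [mul_assoc]⟩ }

theorem measurable_shift (γ : FreeGroup Bool) :
    Measurable (fun (y : FreeGroup Bool → ℕ → Bool) g => y (g * γ)) :=
  measurable_pi_lambda _ fun _ => measurable_pi_apply _

theorem measurableSet_shiftSetoid : MeasurableSet
    {p : (FreeGroup Bool → ℕ → Bool) × (FreeGroup Bool → ℕ → Bool) | shiftSetoid.r p.1 p.2} := by
  have : {p : (FreeGroup Bool → ℕ → Bool) × (FreeGroup Bool → ℕ → Bool) | shiftSetoid.r p.1 p.2} =
      ⋃ γ : FreeGroup Bool, {p | p.2 = fun g => p.1 (g * γ)} := by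
    ext p
    simp only [mem_ofPred_eq, mem_iUnion]
    rfl
  rw [this]
  exact MeasurableSet.iUnion fun γ =>
    measurableSet_eq_fun measurable_snd ((measurable_shift γ).comp measurable_fst)

theorem countable_shiftSetoid (y : FreeGroup Bool → ℕ → Bool) :
    {z | shiftSetoid.r y z}.Countable :=
  (countable_range (fun γ : FreeGroup Bool => fun g => y (g * γ))).mono
    fun z hz => by
      obtain ⟨γ, h⟩ : ∃ γ : FreeGroup Bool, z = fun g => y (g * γ) := hz
      exact ⟨γ, h.symm⟩

theorem shiftSetoid_not_hypersmooth {Z : Type} [MeasurableSpace Z] [StandardBorelSpace Z]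
    {g : ℕ → (FreeGroup Bool → ℕ → Bool) → Z} (hg : ∀ n, Measurable (g n))
    (hg1 : ∀ n y y', g n y = g n y' → shiftSetoid.r y y')
    (hg2 : ∀ y y', shiftSetoid.r y y' → ∀ᶠ n in atTop, g n y = g n y') : False := by
  obtain ⟨ν, hν, -, hν0⟩ := exists_coin
  refine not_hypersmooth (a := fun γ (y : FreeGroup Bool → ℕ → Bool) g => y (g * γ))
    measurable_shift
    (fun γ δ y => by simp [mul_assoc]) (μ := Measure.infinitePi (fun _ => ν)) (fun γ => ?_)
    (fun γ hγ => ?_) hg (fun n y y' h => hg1 n y y' h) (fun γ y => hg2 _ _ ⟨γ, rfl⟩)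
  · exact Measure.map_infinitePi_infinitePi_of_inj (P := fun _ : FreeGroup Bool => ν)
      (f := fun g => g * γ) (mul_left_injective γ)
  · have h1 := Measure.infinitePi_map_eval_prod (P := fun _ : FreeGroup Bool => ν) hγ
    have hd : MeasurableSet {p : (ℕ → Bool) × (ℕ → Bool) | p.1 = p.2} :=
      measurableSet_eq_fun measurable_fst measurable_snd
    have h2 : (ν.prod ν) {p | p.1 = p.2} = 0 := by
      rw [Measure.prod_apply hd]
      simp [hν0]
    rw [← h1, Measure.map_apply (by fun_prop) hd] at h2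
    refine measure_mono_null (fun y hy => ?_) h2
    have := congrFun hy 1
    simpa using this

/-- Eventual equality as a setoid. -/
def e0Setoid : Setoid (ℕ → Bool) where
  r := E0
  iseqv := ⟨E0.refl, E0.symm, E0.trans⟩

theorem measurableSet_e0Setoid :
    MeasurableSet {p : (ℕ → Bool) × (ℕ → Bool) | e0Setoid.r p.1 p.2} := by
  have : {p : (ℕ → Bool) × (ℕ → Bool) | e0Setoid.r p.1 p.2} =
      ⋃ N : ℕ, ⋂ n, ⋂ (_ : N ≤ n), {p | p.1 n = p.2 n} := by
    ext p
    simp only [mem_ofPred_eq, mem_iUnion, mem_iInter]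
    exact eventually_atTop
  rw [this]
  exact MeasurableSet.iUnion fun N => MeasurableSet.iInter fun n => MeasurableSet.iInter fun _ =>
    measurableSet_eq_fun ((measurable_pi_apply n).comp measurable_fst)
      ((measurable_pi_apply n).comp measurable_snd)

theorem e0Setoid_not_smooth :
    ¬ ∃ f : (ℕ → Bool) → ℝ, Measurable f ∧ ∀ x y, e0Setoid.r x y ↔ f x = f y := by
  rintro ⟨f, hf, h⟩
  obtain ⟨μ, hμ, h01, h0⟩ := exists_coin
  obtain ⟨c, hc, hci⟩ := MeasurableSpace.measurable_injection_nat_bool_of_countablySeparated ℝ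
  have h1 := ae_eq_majority h01 (hc.comp hf) (fun u v huv => by
    simp only [Function.comp_apply, (h u v).1 huv])
  obtain ⟨u, hu⟩ := h1.exists
  have h2 : ∀ᵐ v ∂μ, v ∈ {v | E0 u v} := by
    filter_upwards [h1] with v hv
    refine (h u v).2 (hci (funext fun k => ?_))
    have := (hu k).trans (hv k).symm
    simp only [Function.comp_apply] at this
    exact Bool.eq_iff_iff.2 this
  have h3 : μ {v | E0 u v} = 0 := by
    rw [← biUnion_of_singleton {v | E0 u v}]
    exact (measure_biUnion_null_iff (countable_E0_class u)).2 fun v _ => h0 v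
  have h4 : μ univ = 0 := by
    rw [← union_compl_self {v | E0 u v}]
    exact measure_union_null h3 h2
  simp at h4

theorem shiftSetoid_not_smooth : ¬ ∃ f : (FreeGroup Bool → ℕ → Bool) → ℝ, Measurable f ∧
    ∀ x y, shiftSetoid.r x y ↔ f x = f y := by
  rintro ⟨f, hf, h⟩
  exact shiftSetoid_not_hypersmooth (g := fun _ => f) (fun _ => hf) (fun _ y y' => (h y y').2)
    (fun y y' h' => Eventually.of_forall fun _ => (h y y').1 h')

theorem shiftSetoid_not_reducible : ¬ ∃ f : (FreeGroup Bool → ℕ → Bool) → ℕ → Bool, Measurable f ∧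
    ∀ x y, shiftSetoid.r x y ↔ e0Setoid.r (f x) (f y) := by
  rintro ⟨f, hf, h⟩
  refine shiftSetoid_not_hypersmooth (g := fun n y k => f y (k + n))
    (fun n => measurable_pi_lambda _ fun k => (measurable_pi_apply _).comp hf)
    (fun n y y' e => (h y y').2 ?_) (fun y y' h' => ?_)
  · refine eventually_atTop.2 ⟨n, fun k hk => ?_⟩
    have := congrFun e (k - n)
    simpa [Nat.sub_add_cancel hk] using this
  · obtain ⟨N, hN⟩ := eventually_atTop.1 ((h y y').1 h')
    exact eventually_atTop.2 ⟨N, fun n hn => funext fun k => hN _ (by omega)⟩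

end Pool.Agent.Lib.MP_00fb6a_lc
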