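import Mathlib
import Pool.Agent.Lib.MP_00fb6a_lc.Game
import Pool.Agent.Lib.MP_00fb6a_lc.NonHyp

/-!
Under the continuum hypothesis any two non-smooth countable Borel equivalence relations are
quotient Borel isomorphic.
-/

set_option autoImplicit false
set_option linter.unusedSectionVars false

namespace Pool.Agent.Lib.MP_00fb6a_lc

open Set Filter Topology TopologicalSpace MeasureTheory Cardinal

theorem countable_Iio_omega_one (i : (Ordinal.omega.{0} 1).ToType) : (Iio i).Countable := by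
  have h : #(Iio i) < ℵ_ 1 := by
    have := mk_Iio_toType_ord_lt (c := ℵ_ 1)
    rw [ord_aleph] at this
    exact this i
  rw [← le_aleph0_iff_set_countable, ← Order.lt_succ_iff, succ_aleph0]
  exact h

theorem card_measurable_quotient_le {X : Type} [MeasurableSpace X] [StandardBorelSpace X]
    (E : Setoid X) : #{A : Set (Quotient E) // MeasurableSet A} ≤ 𝔠 := by
  obtain ⟨b, hb, e⟩ := MeasurableSpace.CountablyGenerated.isCountablyGenerated (α := X)
  have h := MeasurableSpace.cardinal_measurableSet_le_continuum (s := b)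
    ((le_aleph0_iff_set_countable.2 hb).trans aleph0_le_continuum)
  rw [← e] at h
  refine le_trans (mk_le_of_injective (f := fun A =>
    (⟨Quotient.mk E ⁻¹' A.1, measurableSet_quotient.1 A.2⟩ : {t : Set X | MeasurableSet t}))
    fun A B h => ?_) h
  exact Subtype.ext (Quotient.mk_surjective.preimage_injective (congrArg Subtype.val h))

theorem measurableSet_singleton_quotient {X : Type} [MeasurableSpace X] [StandardBorelSpace X]
    (E : Setoid X) (hc : ∀ x : X, {y : X | E.r x y}.Countable) (a : Quotient E) :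
    MeasurableSet ({a} : Set (Quotient E)) := by
  obtain ⟨x, rfl⟩ := Quotient.exists_rep a
  refine measurableSet_quotient.2 (((hc x).mono fun y hy => ?_).measurableSet)
  exact E.symm (Quotient.exact hy)

theorem exists_equiv_of_family {P Q I : Type} [MeasurableSpace P] [MeasurableSpace Q]
    (hP : ∀ a : P, MeasurableSet ({a} : Set P)) (hQ : ∀ b : Q, MeasurableSet ({b} : Set Q))
    {A : I → Set P} {B : I → Set Q} (hA : ∀ i, MeasurableSet (A i)) (hB : ∀ i, MeasurableSet (B i))
    (hA' : ∀ S, MeasurableSet S → ∃ i, A i = S) (hB' : ∀ S, MeasurableSet S → ∃ i, B i = S)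
    (h1 : ∀ i j a, ∃ b, (a ∈ A i ↔ b ∈ B i) ∧ (a ∈ A j ↔ b ∈ B j))
    (h2 : ∀ i j b, ∃ a, (a ∈ A i ↔ b ∈ B i) ∧ (a ∈ A j ↔ b ∈ B j)) : Nonempty (P ≃ᵐ Q) := by
  have k1 : ∀ a, ∃ b, ∀ k, (a ∈ A k ↔ b ∈ B k) := by
    intro a
    obtain ⟨i, hi⟩ := hA' _ (hP a)
    obtain ⟨b, hb, -⟩ := h1 i i a
    obtain ⟨j, hj⟩ := hB' _ (hQ b)
    have hai : a ∈ A i := by rw [hi]; rfl
    have haj : a ∈ A j := by
      obtain ⟨a', h3, h4⟩ := h2 i j b
      have : a' = a := by
        have := h3.2 (hb.1 hai)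
        rwa [hi] at this
      rw [← this, h4, hj]
      rfl
    have huniq : ∀ b', b' ∈ B i → b' = b := by
      intro b' hb'
      obtain ⟨a', h3, h4⟩ := h2 i j b'
      have : a' = a := by
        have := h3.2 hb'
        rwa [hi] at this
      have h5 := h4.1 (this ▸ haj)
      rwa [hj] at h5
    refine ⟨b, fun k => ?_⟩
    obtain ⟨b', h3, h4⟩ := h1 i k a
    rw [← huniq b' (h3.1 hai)]
    exact h4
  have k2 : ∀ b, ∃ a, ∀ k, (a ∈ A k ↔ b ∈ B k) := by
    intro b
    obtain ⟨i, hi⟩ := hB' _ (hQ b)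
    obtain ⟨a, ha, -⟩ := h2 i i b
    obtain ⟨b', hb'⟩ := k1 a
    have hbi : b ∈ B i := by rw [hi]; rfl
    have : b' = b := by
      have := (hb' i).1 (ha.2 hbi)
      rwa [hi] at this
    exact ⟨a, this ▸ hb'⟩
  choose f hf using k1
  choose g hg using k2
  refine ⟨⟨⟨f, g, fun a => ?_, fun b => ?_⟩, fun S hS => ?_, fun S hS => ?_⟩⟩
  · obtain ⟨i, hi⟩ := hA' _ (hP a)
    have := (hg (f a) i).2 ((hf a i).1 (by rw [hi]; rfl))
    rwa [hi] at this
  · obtain ⟨i, hi⟩ := hB' _ (hQ b)
    have := (hf (g b) i).1 ((hg b i).2 (by rw [hi]; rfl))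
    rwa [hi] at this
  · obtain ⟨i, rfl⟩ := hB' S hS
    convert hA i using 1
    ext a
    exact (hf a i).symm
  · obtain ⟨i, rfl⟩ := hA' S hS
    convert hB i using 1
    ext b
    exact hg b i

theorem nonempty_equiv_of_ch (hch : continuum.{0} = aleph 1)
    {X Y : Type} [MeasurableSpace X] [StandardBorelSpace X]
    [MeasurableSpace Y] [StandardBorelSpace Y] (E : Setoid X) (F : Setoid Y)
    (hE : MeasurableSet {p : X × X | E.r p.1 p.2}) (hF : MeasurableSet {p : Y × Y | F.r p.1 p.2})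
    (hcE : ∀ x : X, {y : X | E.r x y}.Countable) (hcF : ∀ y : Y, {z : Y | F.r y z}.Countable)
    (hnE : ¬ ∃ f : X → ℝ, Measurable f ∧ ∀ x y, E.r x y ↔ f x = f y)
    (hnF : ¬ ∃ f : Y → ℝ, Measurable f ∧ ∀ x y, F.r x y ↔ f x = f y) :
    Nonempty (MeasurableEquiv (Quotient E) (Quotient F)) := by
  obtain ⟨S, -, h2, h3, h4⟩ := exists_strategy E F hE hF hcE hcF hnE hnF countable_Iio_omega_one
  have hle : #({A : Set (Quotient E) // MeasurableSet A} ⊕
      {B : Set (Quotient F) // MeasurableSet B}) ≤ #(Ordinal.omega.{0} 1).ToType := by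
    rw [mk_toType, ← ord_aleph, card_ord, ← hch, mk_sum, lift_id, lift_id]
    exact (add_le_add (card_measurable_quotient_le E) (card_measurable_quotient_le F)).trans
      continuum_add_self.le
  obtain ⟨e⟩ := hle
  have : Nonempty ({A : Set (Quotient E) // MeasurableSet A} ⊕
      {B : Set (Quotient F) // MeasurableSet B}) := ⟨Sum.inl ⟨univ, MeasurableSet.univ⟩⟩
  let m := Function.invFun e
  have hm : ∀ z, m (e z) = z := Function.leftInverse_invFun e.injective
  refine exists_equiv_of_family (measurableSet_singleton_quotient E hcE)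
    (measurableSet_singleton_quotient F hcF) (A := fun i => (S m i).1.1)
    (B := fun i => (S m i).2.1) (fun i => (S m i).1.2) (fun i => (S m i).2.2)
    (fun T hT => ⟨e (Sum.inl ⟨T, hT⟩), by rw [h2 m _ _ (hm _)]⟩)
    (fun T hT => ⟨e (Sum.inr ⟨T, hT⟩), by rw [h3 m _ _ (hm _)]⟩) (fun i j a => ?_)
    (fun i j b => ?_)
  · obtain ⟨b, hb⟩ := (h4 m {i, j} (toFinite _).countable).1 a
    exact ⟨b, hb i (by simp), hb j (by simp)⟩
  · obtain ⟨a, ha⟩ := (h4 m {i, j} (toFinite _).countable).2 b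
    exact ⟨a, ha i (by simp), ha j (by simp)⟩

end Pool.Agent.Lib.MP_00fb6a_lc
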