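import Mathlib

/-!
Countable Borel equivalence relations on Cantor space, Borel reductions and quotient Borel
isomorphisms in the sense of a transitive model `M`.
-/

set_option autoImplicit false

namespace Pool.Agent.Lib.MP_00fb6a_lc

open ZFSet

/-- The axiom of choice in `M`: every set in `M` has a choice function in `M`. -/
def ChoiceIn (M : ZFSet.{0}) : Prop :=
  ∀ a ∈ M, ∃ f ∈ M, ∀ x ∈ a, x ≠ ∅ → ∃ y ∈ x, ∀ z, pair x z ∈ f ↔ z = y

/-- `S` is countable in `M`: empty, or the range of a function in `M` defined on `ω`. -/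
def CtblIn (M S : ZFSet.{0}) : Prop :=
  S = ∅ ∨ ∃ f ∈ M, IsFunc omega S f ∧ ∀ s ∈ S, ∃ n, pair n s ∈ f

/-- `T` is a sigma-algebra on `Z` in the sense of `M`. -/
def SigmaIn (M Z T : ZFSet.{0}) : Prop :=
  (∀ A ∈ T, A ⊆ Z) ∧ (∀ A ∈ T, Z \ A ∈ T) ∧ ∀ S ∈ M, S ⊆ T → CtblIn M S → sUnion S ∈ T

/-- Cantor space in the sense of `M`: the subsets of `ω` lying in `M`. -/
noncomputable def cantor (M : ZFSet.{0}) : ZFSet.{0} := ZFSet.sep (fun x => x ⊆ omega) M

/-- The subbasic clopen set of all points containing `n`. -/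
noncomputable def cyl (M n : ZFSet.{0}) : ZFSet.{0} := ZFSet.sep (fun x => n ∈ x) (cantor M)

/-- `A` is a Borel subset of Cantor space in the sense of `M`. -/
def BorelIn (M A : ZFSet.{0}) : Prop :=
  ∀ T ∈ M, SigmaIn M (cantor M) T → (∀ n ∈ omega, cyl M n ∈ T) → A ∈ T

/-- `A` is a Borel subset of the square of Cantor space in the sense of `M`. -/
def BorelIn2 (M A : ZFSet.{0}) : Prop :=
  ∀ T ∈ M, SigmaIn M (prod (cantor M) (cantor M)) T →
    (∀ n ∈ omega, prod (cyl M n) (cantor M) ∈ T ∧ prod (cantor M) (cyl M n) ∈ T) → A ∈ T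

/-- The `E`-class of `x`. -/
noncomputable def cls (M E x : ZFSet.{0}) : ZFSet.{0} :=
  ZFSet.sep (fun y => pair x y ∈ E) (cantor M)

/-- The set of `E`-classes. -/
noncomputable def quot (M E : ZFSet.{0}) : ZFSet.{0} :=
  ZFSet.sep (fun c => ∃ x ∈ cantor M, c = cls M E x) (powerset (cantor M))

/-- `E` is a countable Borel equivalence relation on Cantor space in the sense of `M`. -/
def CBERIn (M E : ZFSet.{0}) : Prop :=
  BorelIn2 M E ∧ (∀ x ∈ cantor M, pair x x ∈ E) ∧ (∀ x y, pair x y ∈ E → pair y x ∈ E) ∧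
    (∀ x y z, pair x y ∈ E → pair y z ∈ E → pair x z ∈ E) ∧
    ∀ x ∈ cantor M, CtblIn M (cls M E x)

/-- `E ≤_B F` in the sense of `M`. -/
def ReducesIn (M E F : ZFSet.{0}) : Prop :=
  ∃ g ∈ M, IsFunc (cantor M) (cantor M) g ∧
    (∀ B, BorelIn M B → BorelIn M (ZFSet.sep (fun x => ∃ y ∈ B, pair x y ∈ g) (cantor M))) ∧
    ∀ x y x' y', pair x y ∈ g → pair x' y' ∈ g → (pair x x' ∈ E ↔ pair y y' ∈ F)

/-- `E` and `F` are quotient Borel isomorphic in the sense of `M`. -/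
def QIsoIn (M E F : ZFSet.{0}) : Prop :=
  ∃ φ ∈ M, IsFunc (quot M E) (quot M F) φ ∧ (∀ d ∈ quot M F, ∃! c, pair c d ∈ φ) ∧
    ∀ A ∈ M, A ⊆ quot M E → (BorelIn M (sUnion A) ↔
      BorelIn M (sUnion (ZFSet.sep (fun d => ∃ c ∈ A, pair c d ∈ φ) (quot M F))))

end Pool.Agent.Lib.MP_00fb6a_lc
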