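import Mathlib
import Pool.Agent.Shared.Forcing
import Pool.Agent.Lib.MP_00fb6a_lc.ModelDefs

/-!
Names for points, sets of points and Borel codes, and their values in a generic extension.
-/

set_option autoImplicit false
set_option linter.unusedSectionVars false

namespace Pool.Agent.Lib.MP_00fb6a_lc

open Set Classical Pool.Agent.Lib.MP_053343_lc Pool.Agent.Lib.MP_053343_lc.Name
  Pool.Agent.Shared.Forcing

/-- A binary sequence as a subset of `ω`. -/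
noncomputable def enc (x : ℕ → Bool) : ZFSet.{0} :=
  ZFSet.range fun n : {n // x n = true} => nat n

theorem mem_enc {x : ℕ → Bool} {a : ZFSet} : a ∈ enc x ↔ ∃ n, x n = true ∧ a = nat n := by
  unfold enc
  rw [ZFSet.mem_range]
  exact ⟨fun ⟨a, h⟩ => ⟨a.1, a.2, h.symm⟩, fun ⟨a, h1, h⟩ => ⟨⟨a, h1⟩, h.symm⟩⟩

theorem nat_mem_enc {x : ℕ → Bool} {n : ℕ} : nat n ∈ enc x ↔ x n = true := by
  rw [mem_enc]
  exact ⟨fun ⟨m, h1, h⟩ => by rwa [nat_inj h], fun h => ⟨n, h, rfl⟩⟩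

theorem enc_inj {x y : ℕ → Bool} (h : enc x = enc y) : x = y := by
  ext n
  rw [Bool.eq_iff_iff, ← nat_mem_enc, h, nat_mem_enc]

/-- Borel codes. -/
inductive BCode (ι : Type) : Type
  | basic (i : ι) : BCode ι
  | compl (c : BCode ι) : BCode ι
  | union (f : ℕ → BCode ι) : BCode ι

/-- The set coded by a Borel code. -/
def BCode.ev {ι Z : Type} (g : ι → Set Z) : BCode ι → Set Z
  | .basic i => g i
  | .compl c => (c.ev g)ᶜ
  | .union f => ⋃ n, (f n).ev g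

/-- The sets having a Borel code. -/
@[reducible] def codedSpace {ι Z : Type} [Inhabited ι] (g : ι → Set Z) : MeasurableSpace Z where
  MeasurableSet' B := ∃ c : BCode ι, c.ev g = B
  measurableSet_empty := ⟨.compl (.union fun n => if n = 0 then .basic default
    else .compl (.basic default)), by
      simp only [BCode.ev, compl_empty_iff]
      refine eq_univ_of_forall fun z => ?_
      by_cases h : z ∈ g default
      · exact mem_iUnion.2 ⟨0, by simpa [BCode.ev] using h⟩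
      · exact mem_iUnion.2 ⟨1, by simpa [BCode.ev] using h⟩⟩
  measurableSet_compl := fun _ ⟨c, h⟩ => ⟨.compl c, by rw [← h]; rfl⟩
  measurableSet_iUnion := fun f hf => by
    choose c hc using hf
    exact ⟨.union c, by simp only [BCode.ev, hc]⟩

/-- The generators of the Borel sets of Cantor space. -/
def gen1 (n : ℕ) : Set (ℕ → Bool) := {x | x n = true}

/-- The generators of the Borel sets of the square of Cantor space. -/
def gen2 : ℕ × Bool → Set ((ℕ → Bool) × (ℕ → Bool))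
  | (n, false) => gen1 n ×ˢ univ
  | (n, true) => univ ×ˢ gen1 n

theorem exists_code1 {B : Set (ℕ → Bool)} (hB : MeasurableSet B) :
    ∃ c : BCode ℕ, c.ev gen1 = B := by
  have h : @Measurable _ _ (codedSpace gen1) MeasurableSpace.pi (fun x : ℕ → Bool => x) := by
    refine @measurable_pi_lambda _ _ _ (codedSpace gen1) _ _ fun n => ?_
    exact @measurable_to_bool _ (codedSpace gen1) _ ⟨.basic n, rfl⟩
  exact h hB

theorem exists_code2 {B : Set ((ℕ → Bool) × (ℕ → Bool))} (hB : MeasurableSet B) :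
    ∃ c : BCode (ℕ × Bool), c.ev gen2 = B := by
  have h1 : @Measurable _ _ (codedSpace gen2) MeasurableSpace.pi
      (fun x : (ℕ → Bool) × (ℕ → Bool) => x.1) := by
    refine @measurable_pi_lambda _ _ _ (codedSpace gen2) _ _ fun n => ?_
    refine @measurable_to_bool _ (codedSpace gen2) _ ⟨.basic (n, false), ?_⟩
    ext p
    simp [BCode.ev, gen2, gen1]
  have h2 : @Measurable _ _ (codedSpace gen2) MeasurableSpace.pi
      (fun x : (ℕ → Bool) × (ℕ → Bool) => x.2) := by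
    refine @measurable_pi_lambda _ _ _ (codedSpace gen2) _ _ fun n => ?_
    refine @measurable_to_bool _ (codedSpace gen2) _ ⟨.basic (n, true), ?_⟩
    ext p
    simp [BCode.ev, gen2, gen1]
  exact (h1.prodMk h2) hB

variable {P : Type} [Preorder P] [OrderTop P]

/-- The name of a point. -/
def ptN (x : ℕ → Bool) : Name P := setN fun n : {n // x n = true} => natN n

/-- The name of a pair of points. -/
def prN (z : (ℕ → Bool) × (ℕ → Bool)) : Name P := pairN (ptN z.1) (ptN z.2)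

/-- The name of a set. -/
def stN {Z : Type} (nm : Z → Name P) (B : Set Z) : Name P := setN fun z : B => nm z

/-- The name of a sequence. -/
def sqN (A : ℕ → Name P) : Name P := setN fun n => pairN (natN n) (A n)

/-- Decoding the name of a point. -/
noncomputable def dP (σ : Name P) : ℕ → Bool := fun n => decide (natN n ∈ range σ.ch)

/-- Decoding the name of a set of points. -/
def dS (σ : Name P) : Set (ℕ → Bool) := {z | ptN z ∈ range σ.ch}

theorem natN_inj {n m : ℕ} (h : (natN n : Name P) = natN m) : n = m := by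
  rw [natN, natN] at h
  exact fin_injective (congrArg Name.Ty h)

@[simp] theorem dP_ptN (x : ℕ → Bool) : dP (ptN x : Name P) = x := by
  ext n
  rw [Bool.eq_iff_iff, dP, decide_eq_true_eq]
  constructor
  · rintro ⟨i, hi⟩
    rw [← natN_inj (P := P) hi]
    exact i.2
  · exact fun h => ⟨⟨n, h⟩, rfl⟩

theorem ptN_inj {x y : ℕ → Bool} (h : (ptN x : Name P) = ptN y) : x = y := by
  rw [← dP_ptN (P := P) x, h, dP_ptN]

@[simp] theorem dS_stN (B : Set (ℕ → Bool)) : dS (stN ptN B : Name P) = B := by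
  ext z
  constructor
  · rintro ⟨i, hi⟩
    rw [← ptN_inj (P := P) hi]
    exact i.2
  · exact fun h => ⟨⟨z, h⟩, rfl⟩

/-- The name attached to a Borel code. -/
def BCode.nm {ι Z : Type} (nm : Z → Name P) (g : ι → Set Z) : BCode ι → Name P
  | .basic _ => Name.empty
  | .compl c => c.nm nm g
  | .union f => pairN (setN fun n => stN nm ((f n).ev g))
      (pairN (sqN fun n => stN nm ((f n).ev g)) (setN fun n => (f n).nm nm g))

theorem decide_all (hP : ∀ p : ℕ → P, Antitone p → ∃ q, ∀ n, q ≤ p n) (S : ℕ → Set P)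
    (hS : ∀ i, ∀ p ∈ S i, ∀ q ≤ p, q ∈ S i) (p : P) :
    ∃ q ≤ p, ∀ i, q ∈ S i ∨ ∀ r ≤ q, r ∉ S i := by
  have hd : ∀ (i : ℕ) (p : P), ∃ r ≤ p, r ∈ S i ∨ ∀ q ≤ r, q ∉ S i := by
    intro i p
    by_cases hp : ∃ q ≤ p, q ∈ S i
    · obtain ⟨q, h1, h2⟩ := hp
      exact ⟨q, h1, Or.inl h2⟩
    · push Not at hp
      exact ⟨p, le_rfl, Or.inr hp⟩
  choose nx h1 h2 using hd
  let s : ℕ → P := fun n => Nat.rec p (fun k r => nx k r) n
  obtain ⟨q, hq⟩ := hP s (antitone_nat_of_succ_le fun k => h1 k (s k))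
  refine ⟨q, hq 0, fun i => ?_⟩
  rcases h2 i (s i) with h | h
  · exact Or.inl (hS i _ h q (hq (i + 1)))
  · exact Or.inr fun r hr => h r (hr.trans (hq (i + 1)))

section

variable {ι κ : Type} {R : ι → List (Name P) → Name P → Prop} {D : κ → List (Name P) → Set P}
  (C : Pool.Agent.Shared.Forcing.Ctx R D)

theorem val_ptN {x : ℕ → Bool} (h : ptN x ∈ C.N) : C.val (ptN x) = enc x := by
  ext a
  rw [ptN, C.mem_val_setN h, mem_enc]
  exact ⟨fun ⟨n, h⟩ => ⟨n.1, n.2, by rw [h, C.val_natN]⟩,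
    fun ⟨n, h1, h⟩ => ⟨⟨n, h1⟩, by rw [h, C.val_natN]⟩⟩

theorem prN_mem {z : (ℕ → Bool) × (ℕ → Bool)} : prN z ∈ C.N ↔ ptN z.1 ∈ C.N ∧ ptN z.2 ∈ C.N :=
  ⟨fun h => ⟨C.pairN_left h, C.pairN_right h⟩, fun h => C.pair_memN h.1 h.2⟩

theorem val_prN {z : (ℕ → Bool) × (ℕ → Bool)} (h : prN z ∈ C.N) :
    C.val (prN z) = ZFSet.pair (enc z.1) (enc z.2) := by
  rw [prN, C.val_pairN h, val_ptN C (C.pairN_left h), val_ptN C (C.pairN_right h)]

theorem mem_val_stN {Z : Type} {nm : Z → Name P} {B : Set Z} {a : ZFSet} :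
    a ∈ C.val (stN nm B) ↔ ∃ z ∈ B, nm z ∈ C.N ∧ a = C.val (nm z) := by
  rw [C.mem_val]
  exact ⟨fun ⟨z, h1, _, h⟩ => ⟨z.1, z.2, h1, h⟩, fun ⟨z, h1, h2, h⟩ => ⟨⟨z, h1⟩, h2, C.top, h⟩⟩

theorem mem_tr {B : Set (ℕ → Bool)} {a : ZFSet} :
    a ∈ C.val (stN ptN B) ↔ ∃ z ∈ B, ptN z ∈ C.N ∧ a = enc z := by
  rw [mem_val_stN]
  exact exists_congr fun z => and_congr_right fun _ => and_congr_right fun h => by
    rw [val_ptN C h]

theorem enc_mem_tr {B : Set (ℕ → Bool)} {x : ℕ → Bool} :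
    enc x ∈ C.val (stN ptN B) ↔ x ∈ B ∧ ptN x ∈ C.N := by
  rw [mem_tr]
  exact ⟨fun ⟨z, h1, h2, h⟩ => by rw [enc_inj h]; exact ⟨h1, h2⟩, fun h => ⟨x, h.1, h.2, rfl⟩⟩

theorem mem_tr2 {B : Set ((ℕ → Bool) × (ℕ → Bool))} {a : ZFSet} :
    a ∈ C.val (stN prN B) ↔
      ∃ x y, (x, y) ∈ B ∧ ptN x ∈ C.N ∧ ptN y ∈ C.N ∧ a = ZFSet.pair (enc x) (enc y) := by
  rw [mem_val_stN]
  constructor
  · rintro ⟨z, h1, h2, rfl⟩
    exact ⟨z.1, z.2, h1, ((prN_mem C).1 h2).1, ((prN_mem C).1 h2).2, val_prN C h2⟩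
  · rintro ⟨x, y, h1, h2, h3, rfl⟩
    have h4 : prN (x, y) ∈ C.N := (prN_mem C).2 ⟨h2, h3⟩
    exact ⟨(x, y), h1, h4, (val_prN C h4).symm⟩

theorem pair_mem_tr2 {B : Set ((ℕ → Bool) × (ℕ → Bool))} {a b : ZFSet} :
    ZFSet.pair a b ∈ C.val (stN prN B) ↔
      ∃ x y, (x, y) ∈ B ∧ ptN x ∈ C.N ∧ ptN y ∈ C.N ∧ a = enc x ∧ b = enc y := by
  rw [mem_tr2]
  simp only [ZFSet.pair_inj]

theorem enc_mem_tr2 {B : Set ((ℕ → Bool) × (ℕ → Bool))} {x y : ℕ → Bool} :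
    ZFSet.pair (enc x) (enc y) ∈ C.val (stN prN B) ↔
      (x, y) ∈ B ∧ ptN x ∈ C.N ∧ ptN y ∈ C.N := by
  rw [pair_mem_tr2]
  exact ⟨fun ⟨x', y', h1, h2, h3, h4, h5⟩ => by
    rw [enc_inj h4, enc_inj h5]; exact ⟨h1, h2, h3⟩,
    fun h => ⟨x, y, h.1, h.2.1, h.2.2, rfl, rfl⟩⟩

theorem prod_tr (A B : Set (ℕ → Bool)) :
    ZFSet.prod (C.val (stN ptN A)) (C.val (stN ptN B)) = C.val (stN prN (A ×ˢ B)) := by
  ext a
  rw [ZFSet.mem_prod, mem_tr2]
  constructor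
  · rintro ⟨b, hb, c, hc, rfl⟩
    obtain ⟨x, h1, h2, rfl⟩ := (mem_tr C).1 hb
    obtain ⟨y, h3, h4, rfl⟩ := (mem_tr C).1 hc
    exact ⟨x, y, ⟨h1, h3⟩, h2, h4, rfl⟩
  · rintro ⟨x, y, h1, h2, h3, rfl⟩
    exact ⟨_, (enc_mem_tr C).2 ⟨h1.1, h2⟩, _, (enc_mem_tr C).2 ⟨h1.2, h3⟩, rfl⟩

theorem sqN_child {A : ℕ → Name P} (h : sqN A ∈ C.N) (n : ℕ) : A n ∈ C.N :=
  C.pairN_right (C.setN_child h n)

theorem pair_mem_sqN {A : ℕ → Name P} (h : sqN A ∈ C.N) {a : ZFSet} :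
    a ∈ C.val (sqN A) ↔ ∃ n, a = ZFSet.pair (nat n) (C.val (A n)) := by
  rw [sqN, C.mem_val_setN h]
  exact exists_congr fun n => by rw [C.val_pairN (C.setN_child h n), C.val_natN]

theorem ctbl_of_sqN {A : ℕ → Name P} (h : sqN A ∈ C.N) {S : ZFSet}
    (hS : ∀ a, a ∈ S ↔ ∃ n, a = C.val (A n)) : CtblIn C.M S := by
  refine Or.inr ⟨_, C.val_mem_M h, ⟨fun a ha => ?_, fun a ha => ?_⟩, fun s hs => ?_⟩
  · obtain ⟨n, rfl⟩ := (pair_mem_sqN C h).1 ha
    exact ZFSet.pair_mem_prod.2 ⟨mem_omega.2 ⟨n, rfl⟩, (hS _).2 ⟨n, rfl⟩⟩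
  · obtain ⟨n, rfl⟩ := mem_omega.1 ha
    refine ⟨_, (pair_mem_sqN C h).2 ⟨n, rfl⟩, fun w hw => ?_⟩
    obtain ⟨m, e⟩ := (pair_mem_sqN C h).1 hw
    rw [ZFSet.pair_inj] at e
    rw [e.2, nat_inj e.1]
  · obtain ⟨n, rfl⟩ := (hS _).1 hs
    exact ⟨_, (pair_mem_sqN C h).2 ⟨n, rfl⟩⟩

theorem val_stN_compl {Z : Type} {nm : Z → Name P}
    (hinj : ∀ z z', nm z ∈ C.N → nm z' ∈ C.N → C.val (nm z) = C.val (nm z') → z = z')
    (B : Set Z) : C.val (stN nm Bᶜ) = C.val (stN nm univ) \ C.val (stN nm B) := by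
  ext a
  simp only [ZFSet.mem_sdiff, mem_val_stN]
  constructor
  · rintro ⟨z, h1, h2, rfl⟩
    refine ⟨⟨z, trivial, h2, rfl⟩, ?_⟩
    rintro ⟨z', h3, h4, e⟩
    exact h1 (hinj _ _ h2 h4 e ▸ h3)
  · rintro ⟨⟨z, -, h2, rfl⟩, h⟩
    exact ⟨z, fun h1 => h ⟨z, h1, h2, rfl⟩, h2, rfl⟩

theorem val_stN_iUnion {Z : Type} {nm : Z → Name P} (B : ℕ → Set Z) {S : ZFSet}
    (hS : ∀ a, a ∈ S ↔ ∃ n, a = C.val (stN nm (B n))) :
    ZFSet.sUnion S = C.val (stN nm (⋃ n, B n)) := by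
  ext a
  rw [ZFSet.mem_sUnion, mem_val_stN]
  constructor
  · rintro ⟨s, hs, ha⟩
    obtain ⟨n, rfl⟩ := (hS s).1 hs
    obtain ⟨z, h1, h2⟩ := (mem_val_stN C).1 ha
    exact ⟨z, mem_iUnion.2 ⟨n, h1⟩, h2⟩
  · rintro ⟨z, h1, h2⟩
    obtain ⟨n, h1⟩ := mem_iUnion.1 h1
    exact ⟨_, (hS _).2 ⟨n, rfl⟩, (mem_val_stN C).2 ⟨z, h1, h2⟩⟩

theorem code_mem {Z J : Type} {nm : Z → Name P} {g : J → Set Z}
    (hinj : ∀ z z', nm z ∈ C.N → nm z' ∈ C.N → C.val (nm z) = C.val (nm z') → z = z')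
    {T : ZFSet} (hT : SigmaIn C.M (C.val (stN nm univ)) T) (hg : ∀ i, C.val (stN nm (g i)) ∈ T)
    (c : BCode J) : c.nm nm g ∈ C.N → C.val (stN nm (c.ev g)) ∈ T := by
  induction c with
  | basic i => exact fun _ => hg i
  | compl c ih =>
    intro h
    change C.val (stN nm (c.ev g)ᶜ) ∈ T
    rw [val_stN_compl C hinj]
    exact hT.2.1 _ (ih h)
  | union f ih =>
    intro h
    have h1 := C.pairN_left h
    have h2 := C.pairN_left (C.pairN_right h)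
    have h3 := C.pairN_right (C.pairN_right h)
    change C.val (stN nm (⋃ n, (f n).ev g)) ∈ T
    rw [← val_stN_iUnion C _ fun a => C.mem_val_setN h1]
    refine hT.2.2 _ (C.val_mem_M h1) (fun a ha => ?_) (ctbl_of_sqN C h2 fun a => C.mem_val_setN h1)
    obtain ⟨n, rfl⟩ := (C.mem_val_setN h1).1 ha
    exact ih n (C.setN_child h3 n)

theorem ptN_val_inj (z z' : ℕ → Bool) (h : ptN z ∈ C.N) (h' : ptN z' ∈ C.N)
    (e : C.val (ptN z) = C.val (ptN z')) : z = z' := by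
  rw [val_ptN C h, val_ptN C h'] at e
  exact enc_inj e

theorem prN_val_inj (z z' : (ℕ → Bool) × (ℕ → Bool)) (h : prN z ∈ C.N) (h' : prN z' ∈ C.N)
    (e : C.val (prN z) = C.val (prN z')) : z = z' := by
  rw [val_prN C h, val_prN C h', ZFSet.pair_inj] at e
  exact Prod.ext (enc_inj e.1) (enc_inj e.2)

end

end Pool.Agent.Lib.MP_00fb6a_lc
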