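import Mathlib
import Pool.Agent.Lib.MP_00fb6a_lc.Game
import Pool.Agent.Lib.MP_00fb6a_lc.NonHyp

/-!
The countably closed poset of conditions, in the form used for forcing.
-/

set_option autoImplicit false
set_option linter.unusedSectionVars false

namespace Pool.Agent.Lib.MP_00fb6a_lc

open Set Filter Topology TopologicalSpace MeasureTheory

section Half

variable {Γ Λ X Y : Type} [Group Γ] [Group Λ] [MulAction Γ X] [MulAction Λ Y]
  [MeasurableSpace X] [MeasurableSpace Y]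
  [Countable Γ] [Countable Λ] [StandardBorelSpace X] [StandardBorelSpace Y]
  [Nonempty X] [Nonempty Y]

/-- The condition matches the orbit of `x` with the orbit of `y`. -/
def Cond.Mt (c : Cond Γ Λ X Y) (x : X) (y : Y) : Prop := (x, y) ∈ c.R ∧ Small Γ c.τ x

theorem Cond.Mt.swap {c : Cond Γ Λ X Y} {x : X} {y : Y} (h : c.Mt x y) : c.swap.Mt y x :=
  ⟨h.1, (c.small _ _ h.1).1 h.2⟩

theorem Cond.Mt.mono {c c' : Cond Γ Λ X Y} {x : X} {y : Y} (h : c.Mt x y) (hc : c'.Le c) :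
    c'.Mt x y := by
  refine ⟨?_, h.2.mono hc.1⟩
  obtain ⟨y', hy'⟩ := c'.left_total x
  have h1 : Rel Λ c.σ y y' := (c.iff _ _ _ _ h.1 (hc.2.2 hy')).1 (Rel.refl _ _)
  obtain ⟨δ, rfl⟩ := ((c.small _ _ h.1).1 h.2).exists_smul c.hσ.t1 h1
  exact c'.sat _ _ _ _ hy' (Rel.refl _ _) (rel_smul _ δ y)

theorem Cond.exists_mt (c : Cond Γ Λ X Y) (x : X) :
    ∃ c' : Cond Γ Λ X Y, c'.Le c ∧ ∃ y, c'.Mt x y := by
  obtain ⟨c', h1, h2, -⟩ := c.exists_extension (measurableSet_singleton x)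
    (MeasurableSet.univ (α := Y))
  obtain ⟨y, hy⟩ := c'.left_total x
  exact ⟨c', h1, y, hy, {x}, h2, 1, by simp, fun γ hγ => by simpa using hγ⟩

theorem Cond.Mt.smul {c : Cond Γ Λ X Y} {x x' : X} {y y' : Y} (h : c.Mt x y) (h' : c.Mt x' y')
    (e : ∃ γ : Γ, x' = γ • x) : ∃ δ : Λ, y' = δ • y := by
  obtain ⟨γ, rfl⟩ := e
  exact ((c.small _ _ h.1).1 h.2).exists_smul c.hσ.t1
    ((c.iff _ _ _ _ h.1 h'.1).1 (rel_smul _ γ x).symm)

theorem Cond.Mt.sat {c : Cond Γ Λ X Y} {x : X} {y : Y} (h : c.Mt x y) (γ : Γ) (δ : Λ) :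
    c.Mt (γ • x) (δ • y) :=
  ⟨c.sat _ _ _ _ h.1 (rel_smul _ γ x).symm (rel_smul _ δ y).symm, h.2.smul γ⟩

theorem Cond.exists_partner_mt (c : Cond Γ Λ X Y) {A : Set X} (hA : MeasurableSet A) :
    ∃ c' : Cond Γ Λ X Y, c'.Le c ∧ ∃ B, MeasurableSet B ∧ ∀ c'' : Cond Γ Λ X Y, c''.Le c' →
      ∀ x y, c''.Mt x y → ((∃ x' ∈ A, ∃ γ : Γ, x' = γ • x) ↔ y ∈ B) := by
  have hm : MeasurableSet (⋃ γ : Γ, (fun x => γ • x) ⁻¹' A) :=
    MeasurableSet.iUnion fun γ => c.hτ.measurable_smul γ hA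
  obtain ⟨c', h1, h2, -⟩ := c.exists_extension hm (MeasurableSet.univ (α := Y))
  obtain ⟨B, h3, -, h4⟩ := c'.exists_partner h2 (fun γ z => by
    simp only [mem_iUnion, mem_preimage]
    exact meets_smul γ z A)
  refine ⟨c', h1, B, h3, fun c'' hc x y h => ?_⟩
  rw [← h4 x y (hc.2.2 h.1)]
  simp only [mem_iUnion, mem_preimage]
  exact ⟨fun ⟨x', h5, γ, e⟩ => ⟨γ, e ▸ h5⟩, fun ⟨γ, h5⟩ => ⟨_, h5, γ, rfl⟩⟩

theorem Cond.Le.swap {c c' : Cond Γ Λ X Y} (h : c'.Le c) : c'.swap.Le c.swap :=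
  ⟨h.2.1, h.1, fun _ hp => h.2.2 hp⟩

end Half

theorem exists_system_aux {X Y : Type} [MeasurableSpace X] [StandardBorelSpace X]
    [MeasurableSpace Y] [StandardBorelSpace Y] (E : Setoid X) (F : Setoid Y)
    (hE : MeasurableSet {p : X × X | E.r p.1 p.2}) (hF : MeasurableSet {p : Y × Y | F.r p.1 p.2})
    (hcE : ∀ x : X, {y : X | E.r x y}.Countable) (hcF : ∀ y : Y, {z : Y | F.r y z}.Countable)
    (hnE : ¬ ∃ f : X → ℝ, Measurable f ∧ ∀ x y, E.r x y ↔ f x = f y)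
    (hnF : ¬ ∃ f : Y → ℝ, Measurable f ∧ ∀ x y, F.r x y ↔ f x = f y) :
    ∃ (P : Type) (_ : Preorder P) (_ : OrderTop P) (mt : P → X → Y → Prop),
      (∀ p : ℕ → P, Antitone p → ∃ q, ∀ n, q ≤ p n) ∧
      (∀ p q x y, q ≤ p → mt p x y → mt q x y) ∧
      (∀ p x, ∃ q ≤ p, ∃ y, mt q x y) ∧ (∀ p y, ∃ q ≤ p, ∃ x, mt q x y) ∧
      (∀ p x y x' y', mt p x y → mt p x' y' → (E.r x x' ↔ F.r y y')) ∧
      (∀ p x y x' y', mt p x y → E.r x x' → F.r y y' → mt p x' y') ∧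
      (∀ p A, MeasurableSet A → ∃ q ≤ p, ∃ B, MeasurableSet B ∧
        ∀ r ≤ q, ∀ x y, mt r x y → ((∃ x' ∈ A, E.r x x') ↔ y ∈ B)) ∧
      (∀ p B, MeasurableSet B → ∃ q ≤ p, ∃ A, MeasurableSet A ∧
        ∀ r ≤ q, ∀ x y, mt r x y → ((∃ y' ∈ B, F.r y y') ↔ x ∈ A)) := by
  classical
  have : Nonempty X := by
    by_contra h
    exact hnE ⟨fun _ => 0, measurable_const, fun x => (h ⟨x⟩).elim⟩
  have : Nonempty Y := by
    by_contra h
    exact hnF ⟨fun _ => 0, measurable_const, fun x => (h ⟨x⟩).elim⟩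
  obtain ⟨iX, hX1, hX2⟩ := exists_action E hE hcE
  obtain ⟨iY, hY1, hY2⟩ := exists_action F hF hcF
  obtain ⟨τ, hτ⟩ := exists_good hX1
  obtain ⟨σ, hσ⟩ := exists_good hY1
  obtain ⟨x₀, hx₀⟩ := exists_not_small hτ (by simpa only [← hX2] using hnE)
  obtain ⟨y₀, hy₀⟩ := exists_not_small hσ (by simpa only [← hY2] using hnF)
  obtain ⟨c₀⟩ := exists_cond hτ hσ hx₀ hy₀
  let P := {c : Cond (FreeGroup (ℕ × ℕ × ℕ)) (FreeGroup (ℕ × ℕ × ℕ)) X Y // c.Le c₀}
  let iP : Preorder P :=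
    { le := fun p q => p.1.Le q.1
      le_refl := fun p => Cond.Le.refl _
      le_trans := fun _ _ _ h h' => h.trans h' }
  let iT : OrderTop P :=
    { top := ⟨c₀, Cond.Le.refl _⟩
      le_top := fun p => p.2 }
  refine ⟨P, iP, iT, fun p x y => p.1.Mt x y, fun p hp => ?_, fun p q x y h h' => h'.mono h,
    fun p x => ?_, fun p y => ?_, fun p x y x' y' h h' => ?_, fun p x y x' y' h h1 h2 => ?_,
    fun p A hA => ?_, fun p B hB => ?_⟩
  · obtain ⟨c, hc⟩ := exists_lower_seq (fun n => (p n).1) fun n => hp (Nat.le_succ n)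
    exact ⟨⟨c, (hc 0).trans (p 0).2⟩, hc⟩
  · obtain ⟨c, h1, h2⟩ := p.1.exists_mt x
    exact ⟨⟨c, h1.trans p.2⟩, h1, h2⟩
  · obtain ⟨c, h1, x, h2⟩ := p.1.swap.exists_mt y
    exact ⟨⟨c.swap, h1.swap.trans p.2⟩, h1.swap, x, h2.swap⟩
  · rw [hX2, hY2]
    exact ⟨h.smul h', h.swap.smul h'.swap⟩
  · obtain ⟨γ, rfl⟩ := (hX2 _ _).1 h1
    obtain ⟨δ, rfl⟩ := (hY2 _ _).1 h2
    exact h.sat γ δ
  · obtain ⟨c, h1, B, h2, h3⟩ := p.1.exists_partner_mt hA
    refine ⟨⟨c, h1.trans p.2⟩, h1, B, h2, fun r hr x y h => ?_⟩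
    simp only [hX2]
    exact h3 r.1 hr x y h
  · obtain ⟨c, h1, A, h2, h3⟩ := p.1.swap.exists_partner_mt hB
    refine ⟨⟨c.swap, h1.swap.trans p.2⟩, h1.swap, A, h2, fun r hr x y h => ?_⟩
    simp only [hY2]
    exact h3 r.1.swap (Cond.Le.swap hr) y x h.swap

/-- Two countable Borel equivalence relations on Cantor space, the second not reducible to the
first, and a countably closed poset adding an isomorphism of their quotient Borel structures. -/
structure Sys (P : Type) [Preorder P] where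
  E : Bool → Setoid (ℕ → Bool)
  mt : Bool → P → (ℕ → Bool) → (ℕ → Bool) → Prop
  meas : ∀ s, MeasurableSet {p : (ℕ → Bool) × (ℕ → Bool) | (E s).r p.1 p.2}
  cnt : ∀ s x, {y | (E s).r x y}.Countable
  nonred : ¬ ∃ f : (ℕ → Bool) → ℕ → Bool, Measurable f ∧
    ∀ x y, (E true).r x y ↔ (E false).r (f x) (f y)
  closed : ∀ p : ℕ → P, Antitone p → ∃ q, ∀ n, q ≤ p n
  swap : ∀ p x y, mt true p x y ↔ mt false p y x
  mono : ∀ s p q x y, q ≤ p → mt s p x y → mt s q x y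
  total : ∀ s p x, ∃ q ≤ p, ∃ y, mt s q x y
  iff : ∀ s p x y x' y', mt s p x y → mt s p x' y' → ((E s).r x x' ↔ (E (!s)).r y y')
  sat : ∀ s p x y x' y', mt s p x y → (E s).r x x' → (E (!s)).r y y' → mt s p x' y'
  partner : ∀ s p A, MeasurableSet A → ∃ q ≤ p, ∃ B, MeasurableSet B ∧
    ∀ r ≤ q, ∀ x y, mt s r x y → ((∃ x' ∈ A, (E s).r x x') ↔ y ∈ B)

theorem exists_sys : ∃ (P : Type) (_ : Preorder P) (_ : OrderTop P), Nonempty (Sys P) := by
  obtain ⟨_⟩ := nonempty_denumerable (FreeGroup Bool × ℕ)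
  let e : (ℕ → Bool) ≃ᵐ (FreeGroup Bool → ℕ → Bool) :=
    (MeasurableEquiv.piCongrLeft (fun _ => Bool) (Denumerable.eqv (FreeGroup Bool × ℕ)).symm).trans
      (MeasurableEquiv.curry _ _ _)
  let F : Setoid (ℕ → Bool) := shiftSetoid.comap e
  have hF : ∀ x y, F.r x y ↔ shiftSetoid.r (e x) (e y) := fun _ _ => Iff.rfl
  have h1 : MeasurableSet {p : (ℕ → Bool) × (ℕ → Bool) | F.r p.1 p.2} :=
    (e.measurable.prodMap e.measurable) measurableSet_shiftSetoid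
  have h2 : ∀ x, {y | F.r x y}.Countable := fun x =>
    (countable_shiftSetoid (e x)).preimage e.injective
  have h3 : ¬ ∃ f : (ℕ → Bool) → ℝ, Measurable f ∧ ∀ x y, F.r x y ↔ f x = f y := by
    rintro ⟨f, hf, h⟩
    refine shiftSetoid_not_smooth ⟨fun y => f (e.symm y), hf.comp e.symm.measurable, fun x y => ?_⟩
    rw [← h, hF]
    simp
  have h4 : ¬ ∃ f : (ℕ → Bool) → ℕ → Bool, Measurable f ∧
      ∀ x y, F.r x y ↔ e0Setoid.r (f x) (f y) := by
    rintro ⟨f, hf, h⟩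
    refine shiftSetoid_not_reducible
      ⟨fun y => f (e.symm y), hf.comp e.symm.measurable, fun x y => ?_⟩
    rw [← h, hF]
    simp
  obtain ⟨P, iP, iT, mt, a1, a2, a3, a4, a5, a6, a7, a8⟩ := exists_system_aux e0Setoid F
    measurableSet_e0Setoid h1 countable_E0_class h2 e0Setoid_not_smooth h3
  refine ⟨P, iP, iT, ⟨{
    E := fun s => cond s F e0Setoid
    mt := fun s p x y => cond s (mt p y x) (mt p x y)
    meas := fun s => by cases s; exacts [measurableSet_e0Setoid, h1]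
    cnt := fun s => by cases s; exacts [countable_E0_class, h2]
    nonred := h4
    closed := a1
    swap := fun _ _ _ => Iff.rfl
    mono := fun s p q x y => by cases s; exacts [a2 p q x y, a2 p q y x]
    total := fun s => by cases s; exacts [a3, a4]
    iff := fun s p x y x' y' => by
      cases s
      exacts [a5 p x y x' y', fun h h' => (a5 p y x y' x' h h').symm]
    sat := fun s p x y x' y' => by
      cases s
      exacts [a6 p x y x' y', fun h h' h'' => a6 p y x y' x' h h'' h']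
    partner := fun s => by
      cases s
      · exact a7
      · intro p A hA
        obtain ⟨q, b1, B, b2, b3⟩ := a8 p A hA
        exact ⟨q, b1, B, b2, fun r hr x y h => b3 r hr y x h⟩ }⟩⟩

end Pool.Agent.Lib.MP_00fb6a_lc
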