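import Mathlib
import Pool.Agent.Lib.MP_00fb6a_lc.Codes
import Pool.Agent.Lib.MP_00fb6a_lc.Sys

/-!
The generic extension in which the two relations become quotient Borel isomorphic.
-/

set_option autoImplicit false
set_option linter.unusedSectionVars false

namespace Pool.Agent.Lib.MP_00fb6a_lc

open Set Classical Pool.Agent.Lib.MP_053343_lc Pool.Agent.Lib.MP_053343_lc.Name
  Pool.Agent.Shared.Forcing

variable {P : Type} [Preorder P] [OrderTop P] (S : Sys P)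

/-- The class of a point. -/
def Sys.cl (s : Bool) (x : ℕ → Bool) : Set (ℕ → Bool) := {y | (S.E s).r x y}

/-- The graph of the relation. -/
def Sys.gr (s : Bool) : Set ((ℕ → Bool) × (ℕ → Bool)) := {p | (S.E s).r p.1 p.2}

/-- The name of the family of all Borel sets. -/
def borelN : Name P := setN fun B : {B : Set (ℕ → Bool) // MeasurableSet B} => stN ptN B.1

/-- The name of the generic bijection. -/
def Sys.phiN : Name P :=
  ⟨{t : (ℕ → Bool) × (ℕ → Bool) × P // S.mt false t.2.2 t.1 t.2.1},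
    fun t => pairN (stN ptN (S.cl false t.1.1)) (stN ptN (S.cl true t.1.2.1)), fun t => t.1.2.2⟩

def T1 (σ : Name P) (n : ℕ) : Set P :=
  {p | ∃ B, MeasurableSet B ∧ FMem (pairN (natN n) (stN ptN B)) σ p}

def Agr (σ : Name P) (n : ℕ) (B : Set (ℕ → Bool)) (p : P) : Prop :=
  ∀ r ≤ p, ∀ y z, FMem (prN (y, z)) σ r → (y ∈ B ↔ z n = true)

def T2 (σ : Name P) (n : ℕ) : Set P := {p | ∃ B, MeasurableSet B ∧ Agr σ n B p}

def Sys.Part (s : Bool) (A B : Set (ℕ → Bool)) (q : P) : Prop :=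
  ∀ r ≤ q, ∀ x y, S.mt s r x y → ((∃ x' ∈ A, (S.E s).r x x') ↔ y ∈ B)

inductive UR : Type
  | real | borel | emp | cyl (n : ℕ) | compl | seq | code | rel (s : Bool) | relc (s : Bool)
  | cls (s : Bool) | phi | tot (s : Bool) | part (s : Bool) | agree (n : ℕ) | nonred
  deriving Countable

def Sys.R : UR → List (Name P) → Name P → Prop
  | .real, l, x => x = ptN fun n => decide (FMem (natN n) (l.getD 1 empty) (dC (l.getD 0 empty)))
  | .borel, _, x => x = borelN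
  | .emp, _, x => x = stN ptN ∅
  | .cyl n, _, x => x = stN ptN (gen1 n)
  | .compl, l, x => x = stN ptN (dS (l.getD 0 empty))ᶜ
  | .seq, l, x => ∃ B : ℕ → Set (ℕ → Bool), (∀ n, MeasurableSet (B n) ∧
      FMem (pairN (natN n) (stN ptN (B n))) (l.getD 1 empty) (dC (l.getD 0 empty))) ∧
      x = pairN (setN fun n => stN ptN (B n)) (stN ptN (⋃ n, B n))
  | .code, l, x => ∃ c : BCode ℕ, c.ev gen1 = dS (l.getD 0 empty) ∧ x = c.nm ptN gen1
  | .rel s, _, x => x = stN prN (S.gr s)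
  | .relc s, _, x => ∃ c : BCode (ℕ × Bool), c.ev gen2 = S.gr s ∧ x = c.nm prN gen2
  | .cls s, l, x => ∃ e : ℕ → ℕ → Bool, S.cl s (dP (l.getD 0 empty)) = range e ∧
      x = pairN (stN ptN (S.cl s (dP (l.getD 0 empty)))) (sqN fun n => ptN (e n))
  | .phi, _, x => x = S.phiN
  | .tot s, l, x => ∃ y, S.mt s (dC (l.getD 0 empty)) (dP (l.getD 1 empty)) y ∧ x = ptN y
  | .part s, l, x => ∃ B, MeasurableSet B ∧
      S.Part s (dS (l.getD 1 empty)) B (dC (l.getD 0 empty)) ∧ x = stN ptN B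
  | .agree n, l, x => ∃ y z, FMem (prN (y, z)) (l.getD 1 empty) (dC (l.getD 0 empty)) ∧
      ¬ (y ∈ dS (l.getD 2 empty) ↔ z n = true) ∧ x = prN (y, z)
  | .nonred, l, x => ∃ B : ℕ → Set (ℕ → Bool),
      (∀ n, Agr (l.getD 1 empty) n (B n) (dC (l.getD 0 empty))) ∧ ∃ y y',
        ¬ ((S.E true).r y y' ↔
          (S.E false).r (fun n => decide (y ∈ B n)) (fun n => decide (y' ∈ B n))) ∧
        x = prN (y, y')

inductive UD : Type
  | real | seq | tot (s : Bool) | part (s : Bool) | agree (n : ℕ) | red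
  deriving Countable

def Sys.D : UD → List (Name P) → Set P
  | .real, l => {p | ∀ n, FMem (natN n) (l.getD 0 empty) p ∨
      ∀ q ≤ p, ¬ FMem (natN n) (l.getD 0 empty) q}
  | .seq, l => {p | ∀ n, p ∈ T1 (l.getD 0 empty) n ∨ ∀ q ≤ p, q ∉ T1 (l.getD 0 empty) n}
  | .tot s, l => {p | ∃ y, S.mt s p (dP (l.getD 0 empty)) y}
  | .part s, l => {p | ∃ B, MeasurableSet B ∧ S.Part s (dS (l.getD 0 empty)) B p}
  | .agree n, l => {p | ∃ y z, FMem (prN (y, z)) (l.getD 0 empty) p ∧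
      ¬ (y ∈ dS (l.getD 1 empty) ↔ z n = true)}
  | .red, l => {p | ∀ n, p ∈ T2 (l.getD 0 empty) n ∨ ∀ q ≤ p, q ∉ T2 (l.getD 0 empty) n}

variable {S} (C : Pool.Agent.Shared.Forcing.Ctx S.R S.D)

theorem ufun (b : UR) {l : List (Name P)} (hl : ∀ x ∈ l, x ∈ C.N) {y : Name P}
    (h : ∀ x, S.R b l x ↔ x = y) : y ∈ C.N := by
  obtain ⟨x, hx, e⟩ := C.uwit b hl ⟨y, (h y).2 rfl⟩
  rwa [(h x).1 e] at hx

/-- No new reals. -/
theorem mem_cantor {a : ZFSet} : a ∈ cantor C.M ↔ ∃ x, ptN x ∈ C.N ∧ a = enc x := by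
  rw [cantor, ZFSet.mem_sep]
  constructor
  · rintro ⟨h, hs⟩
    obtain ⟨σ, hσ, rfl⟩ := C.mem_M.1 h
    obtain ⟨p, hp, hd⟩ := C.udense .real (C.one hσ) C.top fun q _ =>
      decide_all S.closed (fun n : ℕ => {p | FMem (natN n) σ p})
        (fun _ _ hp _ hq => FMem.mono hp hq) q
    obtain ⟨q, hq, q1, q2⟩ := C.cof p hp
    refine ⟨fun n => decide (FMem (natN n) σ q),
      ufun C .real (C.two q2 hσ) fun _ => by simp [Sys.R], ?_⟩
    have key : ∀ n, nat n ∈ C.val σ ↔ FMem (natN n) σ q := by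
      intro n
      rw [← C.val_natN, C.val_mem_iff (C.natN_mem n) hσ]
      constructor
      · rintro ⟨r, hr, h'⟩
        rcases hd n with h1 | h1
        · exact FMem.mono h1 q1
        · obtain ⟨s, _, s1, s2⟩ := C.dir p hp r hr
          exact (h1 s s1 (h'.mono s2)).elim
      · exact fun h' => ⟨q, hq, h'⟩
    ext b
    rw [mem_enc]
    constructor
    · intro hb
      obtain ⟨n, rfl⟩ := mem_omega.1 (hs hb)
      exact ⟨n, by simpa using (key n).1 hb, rfl⟩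
    · rintro ⟨n, hn, rfl⟩
      exact (key n).2 (by simpa using hn)
  · rintro ⟨x, hx, rfl⟩
    refine ⟨val_ptN C hx ▸ C.val_mem_M hx, fun b hb => ?_⟩
    obtain ⟨n, -, rfl⟩ := mem_enc.1 hb
    exact mem_omega.2 ⟨n, rfl⟩

theorem enc_mem_cantor {x : ℕ → Bool} : enc x ∈ cantor C.M ↔ ptN x ∈ C.N := by
  rw [mem_cantor]
  exact ⟨fun ⟨z, h1, h⟩ => by rwa [enc_inj h], fun h => ⟨x, h, rfl⟩⟩

theorem cantor_eq : cantor C.M = C.val (stN ptN univ) := by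
  ext a
  rw [mem_cantor, mem_tr]
  simp

theorem cyl_eq (n : ℕ) : cyl C.M (nat n) = C.val (stN ptN (gen1 n)) := by
  ext a
  rw [cyl, ZFSet.mem_sep, mem_cantor, mem_tr]
  constructor
  · rintro ⟨⟨x, h1, rfl⟩, h2⟩
    exact ⟨x, nat_mem_enc.1 h2, h1, rfl⟩
  · rintro ⟨x, h1, h2, rfl⟩
    exact ⟨⟨x, h2, rfl⟩, nat_mem_enc.2 h1⟩

theorem mem_borelN {a : ZFSet} : a ∈ C.val borelN ↔
    ∃ B, MeasurableSet B ∧ stN ptN B ∈ C.N ∧ a = C.val (stN ptN B) := by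
  rw [C.mem_val]
  exact ⟨fun ⟨B, h1, _, h⟩ => ⟨B.1, B.2, h1, h⟩, fun ⟨B, h1, h2, h⟩ => ⟨⟨B, h1⟩, h2, C.top, h⟩⟩

theorem sigma_borelN : SigmaIn C.M (cantor C.M) (C.val borelN) := by
  refine ⟨fun A hA => ?_, fun A hA => ?_, fun T hT hsub hc => ?_⟩
  · obtain ⟨B, -, -, rfl⟩ := (mem_borelN C).1 hA
    intro a ha
    obtain ⟨z, -, h2, rfl⟩ := (mem_tr C).1 ha
    exact (enc_mem_cantor C).2 h2
  · obtain ⟨B, h1, h2, rfl⟩ := (mem_borelN C).1 hA
    rw [cantor_eq, ← val_stN_compl C (ptN_val_inj C)]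
    exact (mem_borelN C).2 ⟨Bᶜ, h1.compl, ufun C .compl (C.one h2) fun _ => by simp [Sys.R], rfl⟩
  · rcases hc with rfl | ⟨f, hf, hfun, hsurj⟩
    · refine (mem_borelN C).2 ⟨∅, MeasurableSet.empty, ufun C .emp C.nil fun _ => Iff.rfl, ?_⟩
      ext a
      rw [mem_tr]
      simp
    · obtain ⟨σ, hσ, rfl⟩ := C.mem_M.1 hf
      have hmono : ∀ n, ∀ p ∈ T1 σ n, ∀ q ≤ p, q ∈ T1 σ n :=
        fun n p ⟨B, h1, h2⟩ q hq => ⟨B, h1, h2.mono hq⟩
      obtain ⟨p, hp, hd⟩ := C.udense .seq (C.one hσ) C.top fun q _ =>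
        decide_all S.closed (T1 σ) hmono q
      have hall : ∀ n, p ∈ T1 σ n := by
        intro n
        refine (hd n).resolve_right fun h => ?_
        obtain ⟨w, hw, -⟩ := hfun.2 _ (mem_omega.2 ⟨n, rfl⟩)
        obtain ⟨B, h1, h2, rfl⟩ := (mem_borelN C).1 (hsub (ZFSet.pair_mem_prod.1 (hfun.1 hw)).2)
        have h3 := C.pair_memN (C.natN_mem n) h2
        rw [← C.val_natN, ← C.val_pairN h3, C.val_mem_iff h3 hσ] at hw
        obtain ⟨r, hr, h4⟩ := hw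
        obtain ⟨s, _, s1, s2⟩ := C.dir p hp r hr
        exact h s s1 ⟨B, h1, h4.mono s2⟩
      obtain ⟨q, hq, q1, q2⟩ := C.cof p hp
      choose B hB1 hB2 using fun n => hmono n p (hall n) q q1
      obtain ⟨x, hx, B, hB, rfl⟩ := C.uwit .seq (C.two q2 hσ) ⟨_, B, fun n => by
        simp only [List.getD_cons_zero, List.getD_cons_succ, dC_cN]
        exact ⟨hB1 n, hB2 n⟩, rfl⟩
      simp only [List.getD_cons_zero, List.getD_cons_succ, dC_cN] at hB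
      have h1 : ∀ n, stN ptN (B n) ∈ C.N := C.setN_child (C.pairN_left hx)
      have h2 : ∀ n, ZFSet.pair (nat n) (C.val (stN ptN (B n))) ∈ C.val σ := by
        intro n
        have h3 := C.pair_memN (C.natN_mem n) (h1 n)
        rw [← C.val_natN, ← C.val_pairN h3, C.val_mem_iff h3 hσ]
        exact ⟨q, hq, (hB n).2⟩
      rw [val_stN_iUnion C B (S := T) fun a => ⟨fun ha => ?_, ?_⟩]
      · exact (mem_borelN C).2 ⟨_, MeasurableSet.iUnion fun n => (hB n).1, C.pairN_right hx, rfl⟩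
      · obtain ⟨m, hm⟩ := hsurj a ha
        have h3 := (ZFSet.pair_mem_prod.1 (hfun.1 hm)).1
        obtain ⟨n, rfl⟩ := mem_omega.1 h3
        exact ⟨n, (hfun.2 _ h3).unique hm (h2 n)⟩
      · rintro ⟨n, rfl⟩
        exact (ZFSet.pair_mem_prod.1 (hfun.1 (h2 n))).2

theorem borelIn_iff {A : ZFSet} : BorelIn C.M A ↔
    ∃ B, MeasurableSet B ∧ stN ptN B ∈ C.N ∧ A = C.val (stN ptN B) := by
  constructor
  · intro h
    refine (mem_borelN C).1 (h _ (C.val_mem_M (ufun C .borel C.nil fun _ => Iff.rfl))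
      (sigma_borelN C) fun a ha => ?_)
    obtain ⟨n, rfl⟩ := mem_omega.1 ha
    rw [cyl_eq]
    exact (mem_borelN C).2 ⟨_, measurableSet_bit n, ufun C (.cyl n) C.nil fun _ => Iff.rfl, rfl⟩
  · rintro ⟨B, h1, h2, rfl⟩ T _ hT hg
    obtain ⟨c, hc⟩ := exists_code1 h1
    obtain ⟨x, hx, c, hc, rfl⟩ := C.uwit .code (C.one h2) ⟨_, c, by simpa using hc, rfl⟩
    simp only [List.getD_cons_zero, dS_stN] at hc
    rw [← hc]
    rw [cantor_eq] at hT
    refine code_mem C (ptN_val_inj C) hT (fun n => ?_) c hx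
    rw [← cyl_eq]
    exact hg _ (mem_omega.2 ⟨n, rfl⟩)

theorem gr_mem (s : Bool) : stN prN (S.gr s) ∈ C.N := ufun C (.rel s) C.nil fun _ => Iff.rfl

theorem borel_gr (s : Bool) : BorelIn2 C.M (C.val (stN prN (S.gr s))) := by
  intro T _ hT hg
  obtain ⟨c, hc⟩ := exists_code2 (S.meas s)
  obtain ⟨x, hx, c, hc, rfl⟩ := C.uwit (.relc s) C.nil ⟨_, c, hc, rfl⟩
  rw [← hc]
  rw [cantor_eq, prod_tr, univ_prod_univ] at hT
  refine code_mem C (prN_val_inj C) hT (fun i => ?_) c hx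
  obtain ⟨n, b⟩ := i
  have h := hg _ (mem_omega.2 ⟨n, rfl⟩)
  rw [cyl_eq, cantor_eq, prod_tr, prod_tr] at h
  cases b
  exacts [h.1, h.2]

theorem exists_cls (s : Bool) {x : ℕ → Bool} (hx : ptN x ∈ C.N) :
    ∃ e : ℕ → ℕ → Bool, S.cl s x = range e ∧ stN ptN (S.cl s x) ∈ C.N ∧
      sqN (fun n => ptN (e n)) ∈ C.N := by
  obtain ⟨e, he⟩ := (S.cnt s x).exists_eq_range ⟨x, (S.E s).refl x⟩
  obtain ⟨y, hy, e, he, rfl⟩ := C.uwit (.cls s) (C.one hx) ⟨_, e, by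
    simp only [List.getD_cons_zero, dP_ptN]; exact he, rfl⟩
  simp only [List.getD_cons_zero, dP_ptN] at he hy
  exact ⟨e, he, C.pairN_left hy, C.pairN_right hy⟩

theorem cl_mem (s : Bool) {x : ℕ → Bool} : stN ptN (S.cl s x) ∈ C.N ↔ ptN x ∈ C.N := by
  constructor
  · intro h
    have : Countable (S.cl s x) := (S.cnt s x).to_subtype
    exact C.setN_child h ⟨x, (S.E s).refl x⟩
  · intro h
    obtain ⟨e, -, h1, -⟩ := exists_cls C s h
    exact h1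

theorem ptN_of_rel (s : Bool) {x y : ℕ → Bool} (hx : ptN x ∈ C.N) (h : (S.E s).r x y) :
    ptN y ∈ C.N := by
  have : Countable (S.cl s x) := (S.cnt s x).to_subtype
  exact C.setN_child ((cl_mem C s).2 hx) ⟨y, h⟩

theorem cls_eq (s : Bool) {x : ℕ → Bool} (hx : ptN x ∈ C.N) :
    cls C.M (C.val (stN prN (S.gr s))) (enc x) = C.val (stN ptN (S.cl s x)) := by
  ext a
  rw [cls, ZFSet.mem_sep, mem_cantor, mem_tr]
  constructor
  · rintro ⟨⟨y, h1, rfl⟩, h2⟩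
    exact ⟨y, ((enc_mem_tr2 C).1 h2).1, h1, rfl⟩
  · rintro ⟨y, h1, h2, rfl⟩
    exact ⟨⟨y, h2, rfl⟩, (enc_mem_tr2 C).2 ⟨h1, hx, h2⟩⟩

theorem cber (s : Bool) : CBERIn C.M (C.val (stN prN (S.gr s))) := by
  refine ⟨borel_gr C s, fun a ha => ?_, fun a b h => ?_, fun a b c h h' => ?_, fun a ha => ?_⟩
  · obtain ⟨x, hx, rfl⟩ := (mem_cantor C).1 ha
    exact (enc_mem_tr2 C).2 ⟨(S.E s).refl x, hx, hx⟩
  · obtain ⟨x, y, h1, h2, h3, rfl, rfl⟩ := (pair_mem_tr2 C).1 h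
    exact (enc_mem_tr2 C).2 ⟨(S.E s).symm h1, h3, h2⟩
  · obtain ⟨x, y, h1, h2, h3, rfl, rfl⟩ := (pair_mem_tr2 C).1 h
    obtain ⟨y', z, h4, h5, h6, e, rfl⟩ := (pair_mem_tr2 C).1 h'
    obtain rfl := enc_inj e
    exact (enc_mem_tr2 C).2 ⟨(S.E s).trans h1 h4, h2, h6⟩
  · obtain ⟨x, hx, rfl⟩ := (mem_cantor C).1 ha
    obtain ⟨e, h1, -, h3⟩ := exists_cls C s hx
    refine ctbl_of_sqN C h3 fun b => ?_
    rw [cls_eq C s hx, mem_tr, h1]
    constructor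
    · rintro ⟨_, ⟨n, rfl⟩, h4, rfl⟩
      exact ⟨n, (val_ptN C h4).symm⟩
    · rintro ⟨n, rfl⟩
      exact ⟨_, ⟨n, rfl⟩, sqN_child C h3 n, val_ptN C (sqN_child C h3 n)⟩

theorem mem_quot (s : Bool) {c : ZFSet} : c ∈ quot C.M (C.val (stN prN (S.gr s))) ↔
    ∃ x, ptN x ∈ C.N ∧ c = C.val (stN ptN (S.cl s x)) := by
  rw [quot, ZFSet.mem_sep, ZFSet.mem_powerset]
  constructor
  · rintro ⟨-, a, ha, rfl⟩
    obtain ⟨x, hx, rfl⟩ := (mem_cantor C).1 ha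
    exact ⟨x, hx, cls_eq C s hx⟩
  · rintro ⟨x, hx, rfl⟩
    refine ⟨fun a ha => ?_, enc x, (enc_mem_cantor C).2 hx, (cls_eq C s hx).symm⟩
    obtain ⟨z, -, h2, rfl⟩ := (mem_tr C).1 ha
    exact (enc_mem_cantor C).2 h2

theorem cl_congr (s : Bool) {x y : ℕ → Bool} (h : (S.E s).r x y) : S.cl s x = S.cl s y := by
  ext z
  exact ⟨fun h' => (S.E s).trans ((S.E s).symm h) h', fun h' => (S.E s).trans h h'⟩

theorem rel_of_val_eq (s : Bool) {x y : ℕ → Bool} (hy : ptN y ∈ C.N)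
    (h : C.val (stN ptN (S.cl s x)) = C.val (stN ptN (S.cl s y))) : (S.E s).r x y := by
  have : enc y ∈ C.val (stN ptN (S.cl s y)) := (enc_mem_tr C).2 ⟨(S.E s).refl y, hy⟩
  rw [← h] at this
  exact ((enc_mem_tr C).1 this).1

/-- The generic matching of points. -/
def Mg (s : Bool) (x y : ℕ → Bool) : Prop :=
  ptN x ∈ C.N ∧ ptN y ∈ C.N ∧ ∃ p ∈ C.G, S.mt s p x y

theorem Mg.total (s : Bool) {x : ℕ → Bool} (hx : ptN x ∈ C.N) : ∃ y, Mg C s x y := by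
  obtain ⟨p, hp, y, hy⟩ := C.udense (.tot s) (C.one hx) C.top fun q _ => by
    simpa [Sys.D] using S.total s q x
  obtain ⟨q, hq, q1, q2⟩ := C.cof p hp
  obtain ⟨_, h1, y, h2, rfl⟩ := C.uwit (.tot s) (C.two q2 hx) ⟨_, y, by
    simpa using S.mono s p q _ _ q1 hy, rfl⟩
  exact ⟨y, hx, h1, q, hq, by simpa using h2⟩

variable {C} in
theorem Mg.iff {s : Bool} {x y x' y' : ℕ → Bool} (h : Mg C s x y) (h' : Mg C s x' y') :
    (S.E s).r x x' ↔ (S.E (!s)).r y y' := by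
  obtain ⟨-, -, p, hp, h⟩ := h
  obtain ⟨-, -, p', hp', h'⟩ := h'
  obtain ⟨r, _, r1, r2⟩ := C.dir p hp p' hp'
  exact S.iff s r _ _ _ _ (S.mono _ _ _ _ _ r1 h) (S.mono _ _ _ _ _ r2 h')

variable {C} in
theorem Mg.sat {s : Bool} {x y x' y' : ℕ → Bool} (h : Mg C s x y) (h1 : (S.E s).r x x')
    (h2 : (S.E (!s)).r y y') : Mg C s x' y' := by
  obtain ⟨a, b, p, hp, h⟩ := h
  exact ⟨ptN_of_rel C s a h1, ptN_of_rel C _ b h2, p, hp, S.sat _ _ _ _ _ _ h h1 h2⟩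

theorem Mg.swap {x y : ℕ → Bool} : Mg C true x y ↔ Mg C false y x := by
  simp only [Mg, S.swap]
  tauto

theorem borel_transfer (s : Bool) {U W : ZFSet} (hW : W ⊆ cantor C.M)
    (hinv : ∀ x x', (S.E s).r x x' → ptN x ∈ C.N → enc x' ∈ U → enc x ∈ U)
    (hsurj : ∀ y, ptN y ∈ C.N → ∃ x, Mg C s x y)
    (hUW : ∀ x y, Mg C s x y → (enc x ∈ U ↔ enc y ∈ W)) (hU : BorelIn C.M U) :
    BorelIn C.M W := by
  obtain ⟨A, h1, h2, rfl⟩ := (borelIn_iff C).1 hU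
  obtain ⟨p, hp, B, hB, hpart⟩ := C.udense (.part s) (C.one h2) C.top fun q _ => by
    simpa [Sys.D, Sys.Part] using S.partner s q A h1
  obtain ⟨q, hq, q1, q2⟩ := C.cof p hp
  obtain ⟨_, h3, B, hB, hpart, rfl⟩ := C.uwit (.part s) (C.two q2 h2) ⟨_, B, hB, by
    simp only [List.getD_cons_zero, List.getD_cons_succ, dC_cN]
    exact fun r hr => hpart r (hr.trans q1), rfl⟩
  simp only [List.getD_cons_zero, List.getD_cons_succ, dC_cN, dS_stN] at hpart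
  refine (borelIn_iff C).2 ⟨B, hB, h3, ?_⟩
  have key : ∀ y, ptN y ∈ C.N → (enc y ∈ W ↔ y ∈ B) := by
    intro y hy
    obtain ⟨x, hxy⟩ := hsurj y hy
    rw [← hUW x y hxy]
    obtain ⟨hx, -, r, hr, h⟩ := hxy
    obtain ⟨t, _, t1, t2⟩ := C.dir q hq r hr
    rw [← hpart t t1 x y (S.mono _ _ _ _ _ t2 h)]
    constructor
    · exact fun h' => ⟨x, ((enc_mem_tr C).1 h').1, (S.E s).refl x⟩
    · rintro ⟨x', h4, h5⟩
      exact hinv x x' h5 hx ((enc_mem_tr C).2 ⟨h4, ptN_of_rel C s hx h5⟩)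
  ext a
  rw [mem_tr]
  constructor
  · intro ha
    obtain ⟨y, hy, rfl⟩ := (mem_cantor C).1 (hW ha)
    exact ⟨y, (key y hy).1 ha, hy, rfl⟩
  · rintro ⟨y, h4, hy, rfl⟩
    exact (key y hy).2 h4

theorem mem_phi {a : ZFSet} : a ∈ C.val S.phiN ↔ ∃ x y, Mg C false x y ∧
    a = ZFSet.pair (C.val (stN ptN (S.cl false x))) (C.val (stN ptN (S.cl true y))) := by
  rw [C.mem_val]
  constructor
  · rintro ⟨⟨⟨x, y, p⟩, h⟩, h1, h2, rfl⟩
    exact ⟨x, y, ⟨(cl_mem C _).1 (C.pairN_left h1), (cl_mem C _).1 (C.pairN_right h1), p, h2, h⟩,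
      C.val_pairN h1⟩
  · rintro ⟨x, y, ⟨h1, h2, p, hp, h⟩, rfl⟩
    have h3 := C.pair_memN ((cl_mem C false).2 h1) ((cl_mem C true).2 h2)
    exact ⟨⟨(x, y, p), h⟩, h3, hp, (C.val_pairN h3).symm⟩

theorem union_inv (s : Bool) {A : ZFSet} (hA : A ⊆ quot C.M (C.val (stN prN (S.gr s))))
    {x : ℕ → Bool} (hx : ptN x ∈ C.N) :
    enc x ∈ ZFSet.sUnion A ↔ C.val (stN ptN (S.cl s x)) ∈ A := by
  rw [ZFSet.mem_sUnion]
  constructor
  · rintro ⟨c, hc, h⟩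
    obtain ⟨z, hz, rfl⟩ := (mem_quot C s).1 (hA hc)
    rwa [← cl_congr s ((enc_mem_tr C).1 h).1]
  · exact fun h => ⟨_, h, (enc_mem_tr C).2 ⟨(S.E s).refl x, hx⟩⟩

theorem union_sub (s : Bool) {A : ZFSet} (hA : A ⊆ quot C.M (C.val (stN prN (S.gr s)))) :
    ZFSet.sUnion A ⊆ cantor C.M := by
  intro a ha
  obtain ⟨c, hc, h⟩ := ZFSet.mem_sUnion.1 ha
  exact ZFSet.mem_powerset.1 (ZFSet.mem_sep.1 (hA hc)).1 h

theorem qiso : QIsoIn C.M (C.val (stN prN (S.gr false))) (C.val (stN prN (S.gr true))) := by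
  refine ⟨_, C.val_mem_M (ufun C .phi C.nil fun _ => Iff.rfl), ⟨fun a ha => ?_, fun c hc => ?_⟩,
    fun d hd => ?_, fun A _ hA => ?_⟩
  · obtain ⟨x, y, h, rfl⟩ := (mem_phi C).1 ha
    exact ZFSet.pair_mem_prod.2 ⟨(mem_quot C _).2 ⟨x, h.1, rfl⟩, (mem_quot C _).2 ⟨y, h.2.1, rfl⟩⟩
  · obtain ⟨x, hx, rfl⟩ := (mem_quot C _).1 hc
    obtain ⟨y, hy⟩ := Mg.total C false hx
    refine ⟨_, (mem_phi C).2 ⟨x, y, hy, rfl⟩, fun d hd => ?_⟩
    obtain ⟨x', y', h', e⟩ := (mem_phi C).1 hd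
    rw [ZFSet.pair_inj] at e
    rw [e.2]
    exact congrArg (fun B => C.val (stN ptN B))
      (cl_congr true ((hy.iff h').1 (rel_of_val_eq C false h'.1 e.1))).symm
  · obtain ⟨y, hy, rfl⟩ := (mem_quot C _).1 hd
    obtain ⟨x, hx⟩ := Mg.total C true hy
    rw [Mg.swap] at hx
    refine ⟨_, (mem_phi C).2 ⟨x, y, hx, rfl⟩, fun c hc => ?_⟩
    obtain ⟨x', y', h', e⟩ := (mem_phi C).1 hc
    rw [ZFSet.pair_inj] at e
    rw [e.1]
    exact congrArg (fun B => C.val (stN ptN B))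
      (cl_congr false ((hx.iff h').2 (rel_of_val_eq C true h'.2.1 e.2))).symm
  · set A' := ZFSet.sep (fun d => ∃ c ∈ A, ZFSet.pair c d ∈ C.val S.phiN)
      (quot C.M (C.val (stN prN (S.gr true)))) with hA'
    have hsub : A' ⊆ quot C.M (C.val (stN prN (S.gr true))) := fun d hd => (ZFSet.mem_sep.1 hd).1
    have key : ∀ x y, Mg C false x y → (enc x ∈ ZFSet.sUnion A ↔ enc y ∈ ZFSet.sUnion A') := by
      intro x y h
      rw [union_inv C false hA h.1, union_inv C true hsub h.2.1, hA', ZFSet.mem_sep]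
      constructor
      · exact fun h' => ⟨(mem_quot C _).2 ⟨y, h.2.1, rfl⟩, _, h', (mem_phi C).2 ⟨x, y, h, rfl⟩⟩
      · rintro ⟨-, c, hc, h'⟩
        obtain ⟨x', y', h'', e⟩ := (mem_phi C).1 h'
        rw [ZFSet.pair_inj] at e
        rw [cl_congr false ((h.iff h'').2 (rel_of_val_eq C true h''.2.1 e.2)), ← e.1]
        exact hc
    have inv : ∀ s (B : ZFSet), B ⊆ quot C.M (C.val (stN prN (S.gr s))) → ∀ x x',
        (S.E s).r x x' → ptN x ∈ C.N → enc x' ∈ ZFSet.sUnion B → enc x ∈ ZFSet.sUnion B := by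
      intro s B hB x x' h hx h'
      rw [union_inv C s hB (ptN_of_rel C s hx h), ← cl_congr s h] at h'
      exact (union_inv C s hB hx).2 h'
    constructor
    · refine borel_transfer C false (union_sub C true hsub) (inv false A hA) (fun y hy => ?_) key
      obtain ⟨x, hx⟩ := Mg.total C true hy
      exact ⟨x, (Mg.swap C).1 hx⟩
    · refine borel_transfer C true (union_sub C false hA) (inv true A' hsub) (fun x hx => ?_)
        fun y x h => (key x y ((Mg.swap C).1 h)).symm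
      obtain ⟨y, hy⟩ := Mg.total C false hx
      exact ⟨y, (Mg.swap C).2 hy⟩

theorem not_reduces :
    ¬ ReducesIn C.M (C.val (stN prN (S.gr true))) (C.val (stN prN (S.gr false))) := by
  rintro ⟨g, hg, hfun, hbor, hred⟩
  obtain ⟨σ, hσ, rfl⟩ := C.mem_M.1 hg
  have hval : ∀ y z, prN (y, z) ∈ C.N →
      (ZFSet.pair (enc y) (enc z) ∈ C.val σ ↔ ∃ p ∈ C.G, FMem (prN (y, z)) σ p) := by
    intro y z h
    rw [← C.val_mem_iff h hσ, val_prN C h]
  have hmono : ∀ n, ∀ p ∈ T2 σ n, ∀ q ≤ p, q ∈ T2 σ n :=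
    fun n p ⟨B, h1, h2⟩ q hq => ⟨B, h1, fun r hr => h2 r (hr.trans hq)⟩
  obtain ⟨p, hp, hd⟩ := C.udense .red (C.one hσ) C.top fun q _ =>
    decide_all S.closed (T2 σ) hmono q
  have hall : ∀ n, p ∈ T2 σ n := by
    intro n
    refine (hd n).resolve_right fun h => ?_
    obtain ⟨B, h1, h2, e⟩ := (borelIn_iff C).1 (hbor (cyl C.M (nat n))
      fun T _ _ hT => hT _ (mem_omega.2 ⟨n, rfl⟩))
    obtain ⟨r, hr, ⟨y, z, h3, h4⟩ | h3⟩ := C.udec (.agree n) (C.two hσ h2)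
    · obtain ⟨q, hq, q1, q2⟩ := C.cof r hr
      obtain ⟨_, h5, y, z, h3, h4, rfl⟩ := C.uwit (.agree n) (C.three q2 hσ h2) ⟨_, y, z, by
        simpa using h3.mono q1, h4, rfl⟩
      simp only [List.getD_cons_zero, List.getD_cons_succ, dC_cN, dS_stN] at h3 h4
      have h6 := (hval y z h5).2 ⟨q, hq, h3⟩
      obtain ⟨hy, hz⟩ := (prN_mem C).1 h5
      have h7 : enc y ∈ C.val (stN ptN B) ↔ y ∈ B := by rw [enc_mem_tr]; simp [hy]
      apply h4
      rw [← h7, ← e, ZFSet.mem_sep, cyl_eq]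
      constructor
      · rintro ⟨h8, w, hw, h9⟩
        rw [(hfun.2 _ h8).unique h9 h6] at hw
        exact ((enc_mem_tr C).1 hw).1
      · exact fun h8 => ⟨(enc_mem_cantor C).2 hy, _, (enc_mem_tr C).2 ⟨h8, hz⟩, h6⟩
    · obtain ⟨s, _, s1, s2⟩ := C.dir p hp r hr
      refine h s s1 ⟨B, h1, fun t ht y z h4 => ?_⟩
      by_contra h5
      exact h3 t (ht.trans s2) ⟨y, z, h4, by simpa using h5⟩
  obtain ⟨q, hq, q1, q2⟩ := C.cof p hp
  choose B hB1 hB2 using fun n => hmono n p (hall n) q q1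
  have hnr : ∃ y y', ¬ ((S.E true).r y y' ↔
      (S.E false).r (fun n => decide (y ∈ B n)) (fun n => decide (y' ∈ B n))) := by
    by_contra hc
    push Not at hc
    exact S.nonred ⟨fun y n => decide (y ∈ B n),
      measurable_pi_lambda _ fun n => measurable_decide (hB1 n), hc⟩
  obtain ⟨y, y', hyy⟩ := hnr
  obtain ⟨_, h1, B, hB, y, y', hyy, rfl⟩ := C.uwit .nonred (C.two q2 hσ) ⟨_, B, by
    simpa using hB2, y, y', hyy, rfl⟩
  simp only [List.getD_cons_zero, List.getD_cons_succ, dC_cN] at hB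
  have key : ∀ y, ptN y ∈ C.N → ptN (fun n => decide (y ∈ B n)) ∈ C.N ∧
      ZFSet.pair (enc y) (enc fun n => decide (y ∈ B n)) ∈ C.val σ := by
    intro y hy
    obtain ⟨w, hw, -⟩ := hfun.2 _ ((enc_mem_cantor C).2 hy)
    obtain ⟨z, hz, rfl⟩ := (mem_cantor C).1 (ZFSet.pair_mem_prod.1 (hfun.1 hw)).2
    obtain ⟨r, hr, h2⟩ := (hval y z ((prN_mem C).2 ⟨hy, hz⟩)).1 hw
    obtain ⟨s, _, s1, s2⟩ := C.dir q hq r hr
    have : (fun n => decide (y ∈ B n)) = z := by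
      ext n
      rw [Bool.eq_iff_iff, decide_eq_true_eq]
      exact hB n s s1 y z (h2.mono s2)
    rw [this]
    exact ⟨hz, hw⟩
  obtain ⟨hy, hy'⟩ := (prN_mem C).1 h1
  have := hred _ _ _ _ (key y hy).2 (key y' hy').2
  rw [enc_mem_tr2, enc_mem_tr2] at this
  exact hyy ⟨fun h => (this.1 ⟨h, hy, hy'⟩).1, fun h => (this.2 ⟨h, (key y hy).1, (key y' hy').1⟩).1⟩

theorem exists_model : ∃ M : ZFSet.{0}, ModelZF M ∧ ChoiceIn M ∧ ∃ E ∈ M, ∃ F ∈ M,
    CBERIn M E ∧ CBERIn M F ∧ QIsoIn M E F ∧ ¬ (ReducesIn M E F ∧ ReducesIn M F E) := by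
  obtain ⟨P, _, _, ⟨S⟩⟩ := exists_sys
  obtain ⟨C⟩ := exists_ctx S.R S.D
  exact ⟨C.M, C.modelZF, C.choice, _, C.val_mem_M (gr_mem C false), _,
    C.val_mem_M (gr_mem C true), cber C false, cber C true, qiso C, fun h => not_reduces C h.2⟩

end Pool.Agent.Lib.MP_00fb6a_lc
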